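import Pool.Agent.Y719.EL.NF7

/-!
# Elliptic curves and forms of weight two
-/

set_option autoImplicit false

namespace Pool.Agent.Y719.EL.N

open Filter Topology MeasureTheory Finset Polynomial NumberField IsDedekindDomain
  Pool.Agent.H921R2.TatePole
open Pool.Agent.Y774.MD (Concentrated nm_pos deg_le)
open Pool.Agent.Y774.FP (BW BW_coeff BW_deg BW_zero BW_small not_six)

variable {K : Type} [Field K] [NumberField K]

lemma nz_eval (w : ℝ) (P : HeightOneSpectrum (𝓞 K) → ℂ[X]) (v : HeightOneSpectrum (𝓞 K)) (z : ℂ) :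
    (nz w P v).eval z = (P v).eval ((((nm v : ℝ) ^ (-(w / 2)) : ℝ) : ℂ) * z) := by
  unfold nz
  rw [comp_C_mul_X_eval]

lemma nz_coeff_zero {w : ℝ} {P : HeightOneSpectrum (𝓞 K) → ℂ[X]} {v : HeightOneSpectrum (𝓞 K)}
    (h : (P v).coeff 0 = 1) : (nz w P v).coeff 0 = 1 := by
  rw [coeff_zero_eq_eval_zero, nz_eval, mul_zero, ← coeff_zero_eq_eval_zero]
  exact h

lemma nz_deg {w : ℝ} {P : HeightOneSpectrum (𝓞 K) → ℂ[X]} {v : HeightOneSpectrum (𝓞 K)} {N : ℕ}
    (h : (P v).natDegree ≤ N) : (nz w P v).natDegree ≤ N := by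
  unfold nz
  refine natDegree_comp_le.trans ?_
  calc (P v).natDegree * (C ((((nm v : ℝ) ^ (-(w / 2)) : ℝ) : ℂ)) * X : ℂ[X]).natDegree ≤ N * 1 :=
        Nat.mul_le_mul h ((natDegree_C_mul_le _ _).trans natDegree_X_le)
    _ = N := mul_one N

lemma nz_norm (w : ℝ) (v : HeightOneSpectrum (𝓞 K)) (z : ℂ) :
    ‖(((nm v : ℝ) ^ (-(w / 2)) : ℝ) : ℂ) * z‖ = (nm v : ℝ) ^ (-(w / 2)) * ‖z‖ := by
  rw [norm_mul, Complex.norm_real, Real.norm_of_nonneg (Real.rpow_pos_of_pos (nm_real_pos v) _).le]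

/-- elliptic curves -/
theorem typ_elliptic (W : HeightOneSpectrum (𝓞 K) → WeierstrassCurve (𝓞 K)) :
    Typ (nz 1 (BW W)) 2 := by
  refine typ_of_tempered (fun v => nz_coeff_zero (BW_coeff W v)) (fun v => nz_deg (BW_deg W v))
    (fun v z hz => ?_) ?_
  · rw [nz_eval] at hz
    by_contra h
    push Not at h
    refine BW_small W v ?_ hz
    rw [nz_norm]
    have hn := nm_real_pos v
    calc (nm v : ℝ) ^ (-((1 : ℝ) / 2)) * ‖z‖ ≤ (nm v : ℝ) ^ (-((1 : ℝ) / 2)) * (nm v : ℝ)⁻¹ :=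
          mul_le_mul_of_nonneg_left h (by positivity)
      _ = (nm v : ℝ) ^ (-(3 / 2) : ℝ) := by
          rw [← Real.rpow_neg_one, ← Real.rpow_add hn]
          norm_num
  · have hfin : {v : HeightOneSpectrum (𝓞 K) | (below v : ℕ) = 2 ∨ (below v : ℕ) = 3}.Finite := by
      have h1 : ∀ p : Nat.Primes, {v : HeightOneSpectrum (𝓞 K) | below v = p}.Finite := fun p =>
        Set.finite_coe_iff.1 (Finite.of_fintype {v : HeightOneSpectrum (𝓞 K) // below v = p})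
      refine ((h1 ⟨2, Nat.prime_two⟩).union (h1 ⟨3, Nat.prime_three⟩)).subset ?_
      rintro v (hv | hv)
      · exact Or.inl (Subtype.ext hv)
      · exact Or.inr (Subtype.ext hv)
    filter_upwards [hfin.compl_mem_cofinite] with v hv z hz
    rw [Set.mem_compl_iff, Set.mem_ofPred_eq, not_or] at hv
    rw [nz_eval] at hz
    have h1 := BW_zero W (not_six hv.1 hv.2) hz
    rw [nz_norm] at h1
    have h2 : 0 < (nm v : ℝ) ^ (-((1 : ℝ) / 2)) := Real.rpow_pos_of_pos (nm_real_pos v) _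
    have h3 : (nm v : ℝ) ^ (-((1 : ℝ) / 2)) * 1 ≤ (nm v : ℝ) ^ (-((1 : ℝ) / 2)) * ‖z‖ := by
      rw [mul_one]
      refine le_trans (le_of_eq ?_) h1
      norm_num
    exact le_of_mul_le_mul_left h3 h2

/-- the Euler factors of a form: eigenvalues `a`, central values `b`, level `S` -/
noncomputable def FP (a b : HeightOneSpectrum (𝓞 K) → ℂ) (v : HeightOneSpectrum (𝓞 K)) : ℂ[X] :=
  1 - C (a v) * X + C (b v) * X ^ 2

omit [NumberField K] in
lemma FP_eval (a b : HeightOneSpectrum (𝓞 K) → ℂ) (v : HeightOneSpectrum (𝓞 K)) (z : ℂ) :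
    (FP a b v).eval z = 1 - a v * z + b v * z ^ 2 := by
  unfold FP
  simp

omit [NumberField K] in
lemma FP_coeff_zero (a b : HeightOneSpectrum (𝓞 K) → ℂ) (v : HeightOneSpectrum (𝓞 K)) :
    (FP a b v).coeff 0 = 1 := by
  rw [coeff_zero_eq_eval_zero, FP_eval]
  simp

omit [NumberField K] in
lemma FP_coeff_one (a b : HeightOneSpectrum (𝓞 K) → ℂ) (v : HeightOneSpectrum (𝓞 K)) :
    (FP a b v).coeff 1 = -a v := by
  unfold FP
  simp [coeff_one, coeff_X_pow]

omit [NumberField K] in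
lemma FP_deg (a b : HeightOneSpectrum (𝓞 K) → ℂ) (v : HeightOneSpectrum (𝓞 K)) :
    (FP a b v).natDegree ≤ 2 := by
  unfold FP
  refine (natDegree_add_le _ _).trans (max_le ?_ ?_)
  · refine (natDegree_sub_le _ _).trans (max_le (by simp) ?_)
    exact (natDegree_C_mul_le _ _).trans (by rw [natDegree_X]; norm_num)
  · exact natDegree_C_mul_X_pow_le _ _

/-- forms of weight `w + 1` with roots bounded by `Nv^(w/2 + θ)`, and a mean square bound -/
theorem typ_form {a b : HeightOneSpectrum (𝓞 K) → ℂ} {w θ : ℝ} (hθ : θ < 1 / 2)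
    (hz : ∀ v, ∀ z : ℂ, 1 - a v * z + b v * z ^ 2 = 0 → (nm v : ℝ) ^ (-(w / 2 + θ)) ≤ ‖z‖)
    {C₀ : ℝ} (hms : ∀ (x : ℕ) (T : Finset (HeightOneSpectrum (𝓞 K))), (∀ v ∈ T, nm v < x) →
      ∑ v ∈ T, ‖a v‖ ^ 2 * (nm v : ℝ) ^ (-w) * Real.log (nm v) ≤ C₀ * x) :
    Typ (nz w (FP a b)) 2 := by
  have key : ∀ v (z : ℂ), (nz w (FP a b) v).eval z = 0 → (nm v : ℝ) ^ (-θ) ≤ ‖z‖ := by
    intro v z h
    rw [nz_eval, FP_eval] at h
    have h1 := hz v _ h
    rw [nz_norm] at h1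
    have hn := nm_real_pos v
    have h2 : 0 < (nm v : ℝ) ^ (-(w / 2)) := Real.rpow_pos_of_pos hn _
    have h3 : (nm v : ℝ) ^ (-(w / 2)) * (nm v : ℝ) ^ (-θ) ≤ (nm v : ℝ) ^ (-(w / 2)) * ‖z‖ := by
      rw [← Real.rpow_add hn, ← neg_add]
      exact h1
    exact le_of_mul_le_mul_left h3 h2
  refine ⟨fun v => nz_coeff_zero (FP_coeff_zero a b v), fun v => nz_deg (FP_deg a b v),
    fun v z h => ?_, ⟨θ, hθ, Eventually.of_forall key⟩, ⟨C₀, fun x T hT => ?_⟩⟩
  · refine lt_of_lt_of_le ?_ (key v z h)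
    have h1 : (1 : ℝ) < nm v := by linarith [nm_real_two v]
    rw [← Real.rpow_neg_one]
    exact Real.rpow_lt_rpow_of_exponent_lt h1 (by linarith)
  · refine le_trans (le_of_eq (sum_congr rfl fun v _ => ?_)) (hms x T hT)
    congr 1
    unfold nz
    rw [comp_C_mul_X_coeff, FP_coeff_one, pow_one, norm_mul, norm_neg, Complex.norm_real,
      Real.norm_of_nonneg (Real.rpow_pos_of_pos (nm_real_pos v) _).le, mul_pow]
    congr 1
    rw [← Real.rpow_natCast, ← Real.rpow_mul (Nat.cast_nonneg _)]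
    congr 1
    push_cast
    ring

end Pool.Agent.Y719.EL.N
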