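import Pool.Agent.Y719.EL.NF8

/-!
# Existence of separating functions, tempered Euler systems
-/

set_option autoImplicit false

namespace Pool.Agent.Y719.EL.N

open Filter Topology MeasureTheory Finset Polynomial NumberField IsDedekindDomain
  Pool.Agent.H921R2.TatePole
open Pool.Agent.Y774.MD (Concentrated nm_pos deg_le)

variable {K : Type} [Field K] [NumberField K]

instance countable_places : Countable (HeightOneSpectrum (𝓞 K)) := by
  have h1 : Countable ((p : Nat.Primes) × {v : HeightOneSpectrum (𝓞 K) // below v = p}) := by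
    have h2 : ∀ p : Nat.Primes, Countable {v : HeightOneSpectrum (𝓞 K) // below v = p} :=
      fun p => (fiber_finite p).to_countable
    infer_instance
  exact (Equiv.sigmaFiberEquiv (below (K := K))).symm.countable_iff.2 h1

/-- there are separating unitary functions -/
theorem exists_sep (N : ℕ) : ∃ ψ : HeightOneSpectrum (𝓞 K) → ℂ, (∀ v, ‖ψ v‖ = 1) ∧
    ∀ v w, v ≠ w → ∀ k l : ℕ, 1 ≤ k → k ≤ N → 1 ≤ l → l ≤ N → ψ v ^ k ≠ ψ w ^ l := by
  obtain ⟨i, hi⟩ := Countable.exists_injective_nat (HeightOneSpectrum (𝓞 K))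
  set c : HeightOneSpectrum (𝓞 K) → ℕ := fun v => (N + 1) ^ i v with hc
  refine ⟨fun v => Complex.exp ((c v : ℂ) * Complex.I), fun v => ?_, fun v w hvw k l hk hkN hl hlN h =>
    ?_⟩
  · have h1 : (c v : ℂ) * Complex.I = (((c v : ℝ)) : ℂ) * Complex.I := by push_cast; rfl
    show ‖Complex.exp ((c v : ℂ) * Complex.I)‖ = 1
    rw [h1, Complex.norm_exp_ofReal_mul_I]
  · simp only at h
    rw [← Complex.exp_nat_mul, ← Complex.exp_nat_mul, Complex.exp_eq_exp_iff_exists_int] at h
    obtain ⟨m, hm⟩ := h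
    have h1 : ((k * c v : ℕ) : ℂ) = ((l * c w : ℕ) : ℂ) + m * (2 * Real.pi) := by
      have h2 : (Complex.I : ℂ) ≠ 0 := Complex.I_ne_zero
      refine mul_right_cancel₀ h2 ?_
      push_cast
      linear_combination hm
    have h2 : ((k * c v : ℕ) : ℝ) = ((l * c w : ℕ) : ℝ) + m * (2 * Real.pi) := by exact_mod_cast h1
    have hm0 : m = 0 := by
      by_contra hm0
      have h3 : Real.pi = ((((k * c v : ℕ) : ℤ) - ((l * c w : ℕ) : ℤ) : ℚ) / (2 * m) : ℚ) := by
        push_cast
        have h4 : (m : ℝ) ≠ 0 := by exact_mod_cast hm0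
        field_simp
        push_cast at h2
        linarith
      exact irrational_pi ⟨_, h3.symm⟩
    rw [hm0, Int.cast_zero, zero_mul, add_zero] at h2
    have h3 : k * c v = l * c w := by exact_mod_cast h2
    have key : ∀ x y : ℕ, x < y → ∀ a b : ℕ, 1 ≤ a → b ≤ N → b * (N + 1) ^ x < a * (N + 1) ^ y := by
      intro x y hxy a b ha hb
      calc b * (N + 1) ^ x < (N + 1) * (N + 1) ^ x :=
            Nat.mul_lt_mul_of_pos_right (by omega) (by positivity)
        _ = (N + 1) ^ (x + 1) := by ring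
        _ ≤ (N + 1) ^ y := Nat.pow_le_pow_right (by omega) hxy
        _ ≤ a * (N + 1) ^ y := Nat.le_mul_of_pos_left _ ha
    have hne : i v ≠ i w := fun h4 => hvw (hi h4)
    rcases lt_or_gt_of_ne hne with h4 | h4
    · have := key _ _ h4 l k hl hkN
      simp only [hc] at h3
      omega
    · have := key _ _ h4 k l hk hlN
      simp only [hc] at h3
      omega

/-- tempered Euler factors of weight `w` -/
theorem typ_weight {P : HeightOneSpectrum (𝓞 K) → ℂ[X]} {w : ℝ} {N : ℕ}
    (one : ∀ v, (P v).coeff 0 = 1) (dg : ∀ v, (P v).natDegree ≤ N)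
    (zeros : ∀ v, ∀ z : ℂ, (P v).eval z = 0 → (nm v : ℝ) ^ (-(w / 2)) ≤ ‖z‖) :
    Typ (nz w P) N := by
  have key : ∀ v (z : ℂ), (nz w P v).eval z = 0 → 1 ≤ ‖z‖ := by
    intro v z hz
    rw [nz_eval] at hz
    have h1 := zeros v _ hz
    rw [nz_norm] at h1
    have h2 : 0 < (nm v : ℝ) ^ (-(w / 2)) := Real.rpow_pos_of_pos (nm_real_pos v) _
    have h3 : (nm v : ℝ) ^ (-(w / 2)) * 1 ≤ (nm v : ℝ) ^ (-(w / 2)) * ‖z‖ := by
      rw [mul_one]
      exact h1
    exact le_of_mul_le_mul_left h3 h2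
  refine typ_of_tempered (fun v => nz_coeff_zero (one v)) (fun v => nz_deg (dg v))
    (fun v z hz => lt_of_lt_of_le ?_ (key v z hz)) (Eventually.of_forall key)
  exact inv_lt_one_of_one_lt₀ (by linarith [nm_real_two v])

end Pool.Agent.Y719.EL.N
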