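import Pool.Agent.H341R2.TwoSided
import Pool.Agent.H341R2.Bessel

/-!
# Bessel's inequality near the edge with the mean square of the coefficients
-/

set_option autoImplicit false

namespace Pool.Agent.Y719.EL

open Complex Filter Topology ComplexConjugate
open Pool.Agent.H341R2 (E lam summable_E E_le E_nonneg E_add E_const_mul E_sum w_nonneg
  lam_bounded lam_tendsto)

/-- the expansion of the square -/
theorem expand {κ : Type*} (K : Finset κ) (t : Nat.Primes → ℂ)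
    (v : κ → Nat.Primes → ℂ) (m : κ → ℝ) (b : ℝ) (ht : ∀ p, ‖t p‖ ≤ b) (hv : ∀ k p, ‖v k p‖ ≤ 1)
    {ε : ℝ} (hε : 0 < ε) :
    0 ≤ E ε (fun p => ‖t p‖ ^ 2) + (∑ k ∈ K, 2 * (m k * E ε fun p => (t p * conj (v k p)).re) +
          ∑ k ∈ K, ∑ l ∈ K, (m k * m l) * E ε fun p => (v k p * conj (v l p)).re) := by
  have hb0 : 0 ≤ b := (norm_nonneg _).trans (ht ⟨2, Nat.prime_two⟩)
  -- pointwise identity
  have hpt : ∀ p, ‖t p + ∑ k ∈ K, (m k : ℂ) * v k p‖ ^ 2 =
      ‖t p‖ ^ 2 + (∑ k ∈ K, 2 * (m k * (t p * conj (v k p)).re) +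
        ∑ k ∈ K, ∑ l ∈ K, (m k * m l) * (v k p * conj (v l p)).re) := by
    intro p
    have e1 : ‖t p + ∑ k ∈ K, (m k : ℂ) * v k p‖ ^ 2 =
        ((t p + ∑ k ∈ K, (m k : ℂ) * v k p) * conj (t p + ∑ k ∈ K, (m k : ℂ) * v k p)).re := by
      rw [Complex.mul_conj, Complex.ofReal_re, Complex.normSq_eq_norm_sq]
    have e2 : ‖t p‖ ^ 2 = (t p * conj (t p)).re := by
      rw [Complex.mul_conj, Complex.ofReal_re, Complex.normSq_eq_norm_sq]
    have e3 : ((∑ k ∈ K, (m k : ℂ) * v k p) * conj (t p)).re =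
        (t p * conj (∑ k ∈ K, (m k : ℂ) * v k p)).re := by
      rw [← Complex.conj_re, map_mul, Complex.conj_conj, mul_comm]
    have e4 : (t p * conj (∑ k ∈ K, (m k : ℂ) * v k p)).re =
        ∑ k ∈ K, m k * (t p * conj (v k p)).re := by
      rw [map_sum, Finset.mul_sum, Complex.re_sum]
      refine Finset.sum_congr rfl fun k _ => ?_
      rw [map_mul, Complex.conj_ofReal, mul_left_comm, Complex.re_ofReal_mul]
    have e5 : ((∑ k ∈ K, (m k : ℂ) * v k p) * conj (∑ k ∈ K, (m k : ℂ) * v k p)).re =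
        ∑ k ∈ K, ∑ l ∈ K, (m k * m l) * (v k p * conj (v l p)).re := by
      rw [map_sum, Finset.sum_mul_sum, Complex.re_sum]
      refine Finset.sum_congr rfl fun k _ => ?_
      rw [Complex.re_sum]
      refine Finset.sum_congr rfl fun l _ => ?_
      rw [map_mul, Complex.conj_ofReal]
      have : (m k : ℂ) * v k p * ((m l : ℂ) * conj (v l p)) =
          ((m k * m l : ℝ) : ℂ) * (v k p * conj (v l p)) := by
        push_cast; ring
      rw [this, Complex.re_ofReal_mul]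
    rw [e1, map_add, add_mul, mul_add, mul_add, Complex.add_re, Complex.add_re, Complex.add_re,
      e3, e4, e5, e2, ← Finset.mul_sum]
    ring
  have hbt : ∀ p, |‖t p‖ ^ 2| ≤ b ^ 2 := by
    intro p
    rw [abs_of_nonneg (sq_nonneg _)]
    exact pow_le_pow_left₀ (norm_nonneg _) (ht p) 2
  have hb1 : ∀ k p, |(t p * conj (v k p)).re| ≤ b := by
    intro k p
    refine (Complex.abs_re_le_norm _).trans ?_
    rw [norm_mul, Complex.norm_conj]
    calc ‖t p‖ * ‖v k p‖ ≤ b * 1 := mul_le_mul (ht p) (hv k p) (norm_nonneg _) hb0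
      _ = b := mul_one b
  have hb2 : ∀ k l p, |(v k p * conj (v l p)).re| ≤ 1 := by
    intro k l p
    refine (Complex.abs_re_le_norm _).trans ?_
    rw [norm_mul, Complex.norm_conj]
    exact mul_le_one₀ (hv k p) (norm_nonneg _) (hv l p)
  have hb1' : ∀ k p, |2 * (m k * (t p * conj (v k p)).re)| ≤ 2 * (|m k| * b) := by
    intro k p
    rw [abs_mul, abs_mul, abs_two]
    gcongr
    exact hb1 k p
  have hb2' : ∀ k l p, |m k * m l * (v k p * conj (v l p)).re| ≤ |m k * m l| * 1 := by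
    intro k l p
    rw [abs_mul]
    gcongr
    exact hb2 k l p
  have hS2 : ∀ k p, |∑ l ∈ K, m k * m l * (v k p * conj (v l p)).re| ≤
      ∑ l ∈ K, |m k * m l| * 1 := fun k p =>
    (Finset.abs_sum_le_sum_abs _ _).trans (Finset.sum_le_sum fun l _ => hb2' k l p)
  have hexp : E ε (fun p => ‖t p + ∑ k ∈ K, (m k : ℂ) * v k p‖ ^ 2) =
      E ε (fun p => ‖t p‖ ^ 2) + (∑ k ∈ K, 2 * (m k * E ε fun p => (t p * conj (v k p)).re) +
        ∑ k ∈ K, ∑ l ∈ K, (m k * m l) * E ε fun p => (v k p * conj (v l p)).re) := by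
    have s1 : ∀ p, |∑ k ∈ K, 2 * (m k * (t p * conj (v k p)).re)| ≤
        ∑ k ∈ K, 2 * (|m k| * b) := fun p =>
      (Finset.abs_sum_le_sum_abs _ _).trans (Finset.sum_le_sum fun k _ => hb1' k p)
    have s2 : ∀ p, |∑ k ∈ K, ∑ l ∈ K, (m k * m l) * (v k p * conj (v l p)).re| ≤
        ∑ k ∈ K, ∑ l ∈ K, |m k * m l| * 1 := fun p =>
      (Finset.abs_sum_le_sum_abs _ _).trans (Finset.sum_le_sum fun k _ => hS2 k p)
    rw [funext hpt, E_add hε hbt (B' := ∑ k ∈ K, 2 * (|m k| * b) +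
      ∑ k ∈ K, ∑ l ∈ K, |m k * m l| * 1)
      (fun p => (abs_add_le _ _).trans (add_le_add (s1 p) (s2 p))), E_add hε s1 s2,
      E_sum hε K _ (fun k => 2 * (|m k| * b)) (fun k _ p => hb1' k p),
      E_sum hε K _ (fun k => ∑ l ∈ K, |m k * m l| * 1) (fun k _ p => hS2 k p)]
    congr 2
    · refine Finset.sum_congr rfl fun k _ => ?_
      rw [E_const_mul, E_const_mul]
    · refine Finset.sum_congr rfl fun k _ => ?_
      rw [E_sum hε K _ (fun l => |m k * m l| * 1) (fun l _ p => hb2' k l p)]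
      refine Finset.sum_congr rfl fun l _ => ?_
      rw [E_const_mul]
  have hpos : 0 ≤ E ε (fun p => ‖t p + ∑ k ∈ K, (m k : ℂ) * v k p‖ ^ 2) :=
    E_nonneg fun p => sq_nonneg _
  rw [hexp] at hpos
  exact hpos

/-- Bessel's inequality near the edge. -/
theorem bessel_ms {κ : Type*} [DecidableEq κ] (K : Finset κ) (t : Nat.Primes → ℂ)
    (v : κ → Nat.Primes → ℂ) (b : ℝ) (ht : ∀ p, ‖t p‖ ≤ b) (hv : ∀ k p, ‖v k p‖ ≤ 1)
    (horth : ∀ k ∈ K, ∀ l ∈ K, k ≠ l → ∃ C : ℝ, ∀ᶠ ε : ℝ in 𝓝[>] 0,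
      |E ε fun p => (v k p * conj (v l p)).re| ≤ C) :
    ∃ C : ℝ, ∀ᶠ ε : ℝ in 𝓝[>] 0, ∑ k ∈ K, (E ε fun p => (t p * conj (v k p)).re) ^ 2 ≤
      lam ε * (E ε (fun p => ‖t p‖ ^ 2) + C) := by
  classical
  have hb0 : 0 ≤ b := (norm_nonneg _).trans (ht ⟨2, Nat.prime_two⟩)
  have horth' : ∀ k l : κ, ∃ C : ℝ, k ∈ K → l ∈ K → k ≠ l → ∀ᶠ ε : ℝ in 𝓝[>] 0,
      |E ε fun p => (v k p * conj (v l p)).re| ≤ C := by
    intro k l
    by_cases h : k ∈ K ∧ l ∈ K ∧ k ≠ l
    · obtain ⟨C, hC⟩ := horth k h.1 l h.2.1 h.2.2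
      exact ⟨C, fun _ _ _ => hC⟩
    · exact ⟨0, fun h1 h2 h3 => absurd ⟨h1, h2, h3⟩ h⟩
  choose Co hCo using horth'
  have ev1 : ∀ᶠ ε : ℝ in 𝓝[>] 0, ∀ k ∈ K, ∀ l ∈ K, k ≠ l →
      |E ε fun p => (v k p * conj (v l p)).re| ≤ Co k l := by
    rw [Filter.eventually_all_finset]
    intro k hk
    rw [Filter.eventually_all_finset]
    intro l hl
    by_cases hkl : k = l
    · exact Filter.Eventually.of_forall fun _ h => absurd hkl h
    · filter_upwards [hCo k l hk hl hkl] with ε h _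
      exact h
  refine ⟨∑ k ∈ K, ∑ l ∈ K, b ^ 2 * |Co k l|, ?_⟩
  filter_upwards [ev1, self_mem_nhdsWithin, lam_tendsto.eventually_gt_atTop 0] with ε h1 h2 h3
  have hε : (0 : ℝ) < ε := h2
  set r : κ → ℝ := fun k => E ε fun p => (t p * conj (v k p)).re with hr
  set Λ := lam ε with hΛ
  have hrb : ∀ k, |r k| ≤ b * Λ := by
    intro k
    have hb1 : ∀ p, |(t p * conj (v k p)).re| ≤ b := by
      intro p
      refine (Complex.abs_re_le_norm _).trans ?_
      rw [norm_mul, Complex.norm_conj]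
      calc ‖t p‖ * ‖v k p‖ ≤ b * 1 := mul_le_mul (ht p) (hv k p) (norm_nonneg _) hb0
        _ = b := mul_one b
    rw [abs_le]
    constructor
    · have h4 := E_le hε (φ := fun p => -(t p * conj (v k p)).re) (B := b) (b := b)
        (fun p => by rw [abs_neg]; exact hb1 p) (fun p => by
          have := (abs_le.1 (hb1 p)).1
          linarith)
      have h5 : E ε (fun p => -(t p * conj (v k p)).re) = -r k := by
        have := E_const_mul (ε := ε) (-1) (fun p => (t p * conj (v k p)).re)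
        simp only [neg_mul, one_mul] at this
        exact this
      rw [h5] at h4
      linarith
    · exact E_le hε hb1 fun p => (abs_le.1 (hb1 p)).2
  have h4 := expand K t v (fun k => -(r k / Λ)) b ht hv hε
  have h5 : ∑ k ∈ K, 2 * (-(r k / Λ) * E ε fun p => (t p * conj (v k p)).re) =
      -(2 * (∑ k ∈ K, r k ^ 2) / Λ) := by
    rw [Finset.mul_sum, Finset.sum_div, ← Finset.sum_neg_distrib]
    refine Finset.sum_congr rfl fun k _ => ?_
    change 2 * (-(r k / Λ) * r k) = _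
    ring
  have hc : ∀ k, |-(r k / Λ)| ≤ b := by
    intro k
    rw [abs_neg, abs_div, abs_of_pos h3, div_le_iff₀ h3]
    exact hrb k
  have hb2 : ∀ k l p, |(v k p * conj (v l p)).re| ≤ 1 := by
    intro k l p
    refine (Complex.abs_re_le_norm _).trans ?_
    rw [norm_mul, Complex.norm_conj]
    exact mul_le_one₀ (hv k p) (norm_nonneg _) (hv l p)
  have h6 : ∑ k ∈ K, ∑ l ∈ K, (-(r k / Λ) * -(r l / Λ)) *
        (E ε fun p => (v k p * conj (v l p)).re) ≤
      ∑ k ∈ K, (r k ^ 2 / Λ + ∑ l ∈ K, b ^ 2 * |Co k l|) := by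
    refine Finset.sum_le_sum fun k hk => ?_
    rw [← Finset.add_sum_erase K _ hk, ← Finset.add_sum_erase K (fun l => b ^ 2 * |Co k l|) hk]
    have d1 : (-(r k / Λ) * -(r k / Λ)) * (E ε fun p => (v k p * conj (v k p)).re) ≤
        r k ^ 2 / Λ := by
      have e1 := E_le hε (hb2 k k) (b := 1) fun p => (le_abs_self _).trans (hb2 k k p)
      have e2 : (-(r k / Λ) * -(r k / Λ)) = (r k / Λ) ^ 2 := by ring
      rw [e2]
      calc (r k / Λ) ^ 2 * (E ε fun p => (v k p * conj (v k p)).re)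
          ≤ (r k / Λ) ^ 2 * (1 * Λ) := mul_le_mul_of_nonneg_left e1 (sq_nonneg _)
        _ = r k ^ 2 / Λ := by field_simp
    have d2 : ∑ l ∈ K.erase k, (-(r k / Λ) * -(r l / Λ)) *
        (E ε fun p => (v k p * conj (v l p)).re) ≤ ∑ l ∈ K.erase k, b ^ 2 * |Co k l| := by
      refine Finset.sum_le_sum fun l hl => ?_
      rw [Finset.mem_erase] at hl
      refine (le_abs_self _).trans ?_
      rw [abs_mul, abs_mul, sq]
      exact mul_le_mul (mul_le_mul (hc k) (hc l) (abs_nonneg _) hb0)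
        ((h1 k hk l hl.2 (Ne.symm hl.1)).trans (le_abs_self _)) (abs_nonneg _) (by positivity)
    have d3 : 0 ≤ b ^ 2 * |Co k k| := by positivity
    linarith
  rw [Finset.sum_add_distrib, ← Finset.sum_div] at h6
  rw [h5] at h4
  have h7 : (∑ k ∈ K, r k ^ 2) / Λ ≤ E ε (fun p => ‖t p‖ ^ 2) +
      ∑ k ∈ K, ∑ l ∈ K, b ^ 2 * |Co k l| := by
    have e1 : 2 * (∑ k ∈ K, r k ^ 2) / Λ = 2 * ((∑ k ∈ K, r k ^ 2) / Λ) := by ring
    rw [e1] at h4
    linarith
  rw [div_le_iff₀ h3] at h7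
  linarith

end Pool.Agent.Y719.EL
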