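import Pool.Agent.Y719.EL.Rep

/-!
# Continuation or transcendence, for countable families simultaneously
-/

set_option autoImplicit false

namespace Pool.Agent.Y719.EL

open Finset Filter Topology MeasureTheory
open Pool.Agent.TH339.MP (PP FF tm bl ap bα norm_bα fα hasProd_α summable_tm norm_b_le bl_angle
  ae_notMem boundary)
open Pool.Agent.TH345.ET (ep Cont bv vals ae_transcendental tendsto_ep)
open Pool.Agent.W350.Edge (divSet)

/-- the angle at `1 + iτ` -/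
def ang (τ K : ℝ) : Set ℂ := {s : ℂ | 1 < s.re ∧ ‖s - ep τ‖ ≤ K * (s.re - 1)}

section
variable {b : PP → ℂ} {M : ℝ}

lemma exp_angle (hb : ∀ x, ‖b x‖ ≤ M / (x.2 + 1 : ℕ)) {τ : ℝ} (hτ : τ ∉ divSet (ap b)) (K : ℝ) :
    Tendsto (fun s => Complex.exp (FF b s)) (𝓝[ang τ K] (ep τ)) (𝓝 (bv b (fun _ => 1) τ)) := by
  have h5 := (Complex.continuous_exp.tendsto _).comp (bl_angle hb hτ K)
  have h6 : Tendsto (fun s : ℂ => s - ep τ) (𝓝[ang τ K] (ep τ))
      (𝓝[{z : ℂ | 0 < z.re ∧ ‖z‖ ≤ K * z.re}] 0) := by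
    rw [tendsto_nhdsWithin_iff]
    constructor
    · have h7 : Tendsto (fun s : ℂ => s - ep τ) (𝓝 (ep τ)) (𝓝 (ep τ - ep τ)) :=
        (continuous_id.sub continuous_const).tendsto _
      rw [sub_self] at h7
      exact h7.mono_left nhdsWithin_le_nhds
    · filter_upwards [self_mem_nhdsWithin] with s hs
      have hre : (s - ep τ).re = s.re - 1 := by
        unfold ep
        simp
      refine ⟨?_, ?_⟩
      · rw [hre]
        linarith [hs.1]
      · rw [hre]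
        exact hs.2
  have h8 := h5.comp h6
  unfold bv
  rw [one_mul]
  refine h8.congr' ?_
  filter_upwards [self_mem_nhdsWithin] with s hs
  simp only [Function.comp_apply]
  congr 2
  unfold ep
  ring

lemma exp_radial (hb : ∀ x, ‖b x‖ ≤ M / (x.2 + 1 : ℕ)) {τ : ℝ} (hτ : τ ∉ divSet (ap b)) :
    Tendsto (fun x : ℝ => Complex.exp (FF b (1 + τ * Complex.I + x))) (𝓝[>] 0)
      (𝓝 (bv b (fun _ => 1) τ)) := by
  refine (exp_angle hb hτ 1).comp ?_
  rw [tendsto_nhdsWithin_iff]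
  refine ⟨tendsto_ep τ, ?_⟩
  filter_upwards [self_mem_nhdsWithin] with x hx
  rw [Set.mem_Ioi] at hx
  refine ⟨?_, ?_⟩
  · simp
    exact hx
  · unfold ep
    have h1 : (1 + τ * Complex.I + x : ℂ) - (1 + τ * Complex.I) = x := by ring
    rw [h1, Complex.norm_real, Real.norm_of_nonneg hx.le]
    simp

/-- a countable family of local continuations -/
lemma exists_family (hb : ∀ x, ‖b x‖ ≤ M / (x.2 + 1 : ℕ)) :
    ∃ F : Set (ℂ → ℂ), F.Countable ∧ ∀ τ : ℝ, τ ∉ divSet (ap b) → Cont b (fun _ => 1) τ →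
      bv b (fun _ => 1) τ ∈ vals F (ep τ) := by
  classical
  have key : ∀ τ : {τ : ℝ // Cont b (fun _ => 1) τ}, ∃ (φ : ℂ → ℂ) (r : ℝ), 0 < r ∧
      (∀ s ∈ Metric.ball (ep τ) r, AnalyticAt ℂ φ s) ∧
      ∀ s ∈ Metric.ball (ep τ) r, 1 < s.re → Complex.exp (FF b s) = φ s := by
    rintro ⟨τ, φ, hφ, hev⟩
    have h1 := hφ.eventually_analyticAt
    obtain ⟨r, hr, hr2⟩ := Metric.eventually_nhds_iff_ball.1 (h1.and hev)
    refine ⟨φ, r, hr, fun s hs => (hr2 s hs).1, fun s hs hs1 => ?_⟩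
    have h2 := (hr2 s hs).2 hs1
    rw [one_mul] at h2
    exact h2
  choose φ r hr hφ hev using key
  obtain ⟨T, hT, hTU⟩ := TopologicalSpace.isOpen_iUnion_countable
    (fun t : {τ : ℝ // Cont b (fun _ => 1) τ} => Metric.ball (ep t) (r t))
    (fun t => Metric.isOpen_ball)
  refine ⟨φ '' T, hT.image _, fun τ hτ hc => ?_⟩
  have h1 : ep τ ∈ ⋃ t : {τ : ℝ // Cont b (fun _ => 1) τ}, Metric.ball (ep t) (r t) :=
    Set.mem_iUnion.2 ⟨⟨τ, hc⟩, Metric.mem_ball_self (hr ⟨τ, hc⟩)⟩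
  rw [← hTU] at h1
  simp only [Set.mem_iUnion] at h1
  obtain ⟨t, ht, hmem⟩ := h1
  refine ⟨φ t, ⟨t, ht, rfl⟩, hφ t _ hmem, ?_⟩
  have h2 : Tendsto (fun x : ℝ => φ t (1 + τ * Complex.I + x)) (𝓝[>] 0) (𝓝 (φ t (ep τ))) :=
    ((hφ t _ hmem).continuousAt.tendsto).comp (tendsto_ep τ)
  refine tendsto_nhds_unique_of_eventuallyEq h2 (exp_radial hb hτ) ?_
  have h3 : ∀ᶠ x : ℝ in 𝓝[>] 0, (1 + τ * Complex.I + x : ℂ) ∈ Metric.ball (ep t) (r t) :=
    (tendsto_ep τ).eventually (Metric.isOpen_ball.mem_nhds hmem)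
  filter_upwards [h3, self_mem_nhdsWithin] with x hx hx0
  rw [Set.mem_Ioi] at hx0
  refine (hev t _ hx ?_).symm
  simp
  exact hx0

end

section
variable {ι : Type} [Countable ι] (b : ι → PP → ℂ) (N : ι → ℝ)

/-- the coefficients of a monomial in the products -/
noncomputable def cb (m : ι →₀ ℤ) : PP → ℂ := comb m.support m b

/-- the boundary value of a monomial in the products -/
noncomputable def lm (m : ι →₀ ℤ) (τ : ℝ) : ℂ := bv (cb b m) (fun _ => 1) τ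

omit [Countable ι] in
lemma lm_ne (m : ι →₀ ℤ) (τ : ℝ) : lm b m τ ≠ 0 := by
  unfold lm bv
  rw [one_mul]
  exact Complex.exp_ne_zero _

variable {N}

omit [Countable ι] in
lemma norm_cb (hb : ∀ i x, ‖b i x‖ ≤ N i / (x.2 + 1 : ℕ)) (m : ι →₀ ℤ) (x : PP) :
    ‖cb b m x‖ ≤ (∑ i ∈ m.support, |(m i : ℝ)| * N i) / (x.2 + 1 : ℕ) :=
  norm_comb m.support m b N (fun i _ => hb i) x

omit [Countable ι] in
lemma exp_cb (hb : ∀ i x, ‖b i x‖ ≤ N i / (x.2 + 1 : ℕ)) (m : ι →₀ ℤ) {s : ℂ} (hs : 1 < s.re) :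
    Complex.exp (FF (cb b m) s) = m.prod fun i k => Complex.exp (FF (b i) s) ^ k :=
  exp_comb m.support m b N (fun i _ => hb i) hs

/-- the exceptional set -/
def exc : Set ℝ := ⋃ m : ι →₀ ℤ, divSet (ap (cb b m))

lemma dim_exc (hb : ∀ i x, ‖b i x‖ ≤ N i / (x.2 + 1 : ℕ)) : dimH (exc b) = 0 := by
  unfold exc
  rw [dimH_iUnion]
  exact ENNReal.iSup_eq_zero.2 fun m => (boundary (norm_cb b hb m)).2.1

lemma lm_angle (hb : ∀ i x, ‖b i x‖ ≤ N i / (x.2 + 1 : ℕ)) {τ : ℝ} (hτ : τ ∉ exc b)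
    (m : ι →₀ ℤ) (K : ℝ) :
    Tendsto (fun s => Complex.exp (FF (cb b m) s)) (𝓝[ang τ K] (ep τ)) (𝓝 (lm b m τ)) :=
  exp_angle (norm_cb b hb m) (fun h => hτ (Set.mem_iUnion.2 ⟨m, h⟩)) K

/-- **Continuation or transcendence, simultaneously.** -/
theorem main (hb : ∀ i x, ‖b i x‖ ≤ N i / (x.2 + 1 : ℕ)) {A : Set (ℂ → ℂ)} (hA : A.Countable) :
    ∀ᵐ τ : ℝ, ∀ m : ι →₀ ℤ, Cont (cb b m) (fun _ => 1) τ ∨
      Transcendental (IntermediateField.adjoin ℚ (vals A (ep τ) ∪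
        {z : ℂ | ∃ m' : ι →₀ ℤ, Cont (cb b m') (fun _ => 1) τ ∧ lm b m' τ = z})) (lm b m τ) := by
  have h1 := fun m : ι →₀ ℤ => exists_family (norm_cb b hb m)
  choose F hF hFv using h1
  set A' : Set (ℂ → ℂ) := A ∪ ⋃ m, F m with hA'
  have hA'c : A'.Countable := hA.union (Set.countable_iUnion hF)
  have h2 : ∀ᵐ τ : ℝ, ∀ m : ι →₀ ℤ, Cont (cb b m) (fun _ => 1) τ ∨
      Transcendental (IntermediateField.adjoin ℚ (vals A' (ep τ)))
        (bv (cb b m) (fun _ => 1) τ) :=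
    ae_all_iff.2 fun m => ae_transcendental (norm_cb b hb m) (fun τ => analyticAt_const) hA'c
  have h3 : ∀ᵐ τ : ℝ, ∀ m : ι →₀ ℤ, τ ∉ divSet (ap (cb b m)) :=
    ae_all_iff.2 fun m => ae_notMem (norm_cb b hb m)
  filter_upwards [h2, h3] with τ hτ hτ3 m
  rcases hτ m with h | h
  · exact Or.inl h
  · right
    intro halg
    apply h
    have hle : IntermediateField.adjoin ℚ (vals A (ep τ) ∪
        {z : ℂ | ∃ m' : ι →₀ ℤ, Cont (cb b m') (fun _ => 1) τ ∧ lm b m' τ = z}) ≤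
        IntermediateField.adjoin ℚ (vals A' (ep τ)) := by
      refine IntermediateField.adjoin.mono _ _ _ ?_
      rintro z (⟨g, hg, hga, rfl⟩ | ⟨m', hm', rfl⟩)
      · exact ⟨g, Or.inl hg, hga, rfl⟩
      · obtain ⟨g, hg, hga, hgv⟩ := hFv m' τ (hτ3 m') hm'
        exact ⟨g, Or.inr (Set.mem_iUnion.2 ⟨m', hg⟩), hga, hgv⟩
    obtain ⟨P, hP, hPx⟩ := halg
    refine ⟨P.map (IntermediateField.inclusion hle).toRingHom, ?_, ?_⟩
    · rw [Polynomial.map_ne_zero_iff (IntermediateField.inclusion hle).toRingHom.injective]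
      exact hP
    · rw [Polynomial.aeval_def, Polynomial.eval₂_map]
      rw [Polynomial.aeval_def] at hPx
      exact hPx

end

end Pool.Agent.Y719.EL
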