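import Pool.Agent.Y719.EL.Rep
import Pool.Agent.TH345.ET.X

/-!
# Continuation or transcendence, for countable families simultaneously, with analytic factors
-/

set_option autoImplicit false

namespace Pool.Agent.Y719.EL

open Finset Filter Topology MeasureTheory
open Pool.Agent.TH339.MP (PP FF tm bl ap bα norm_bα fα hasProd_α summable_tm norm_b_le bl_angle
  ae_notMem boundary)
open Pool.Agent.TH345.ET (ep Cont bv vals ae_transcendental tendsto_ep)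
open Pool.Agent.W350.Edge (divSet)

namespace H

/-- the angle at `1 + iτ` -/
def ang (τ K : ℝ) : Set ℂ := {s : ℂ | 1 < s.re ∧ ‖s - ep τ‖ ≤ K * (s.re - 1)}

/-- the values at `s` of the functions in `A` that are analytic at `s`, with all derivatives -/
def dvals (A : Set (ℂ → ℂ)) (s : ℂ) : Set ℂ :=
  {z : ℂ | ∃ g ∈ A, ∃ k : ℕ, AnalyticAt ℂ g s ∧ iteratedDeriv k g s = z}

lemma dvals_subset (A : Set (ℂ → ℂ)) (s : ℂ) :
    dvals A s ⊆ vals (⋃ k : ℕ, (iteratedDeriv k) '' A) s := by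
  rintro z ⟨g, hg, k, hga, rfl⟩
  refine ⟨iteratedDeriv k g, Set.mem_iUnion.2 ⟨k, g, hg, rfl⟩, ?_, rfl⟩
  have := hga.iterated_deriv k
  rwa [← iteratedDeriv_eq_iterate] at this

section
variable {b : PP → ℂ} {M : ℝ} {h : ℂ → ℂ}

lemma exp_angle (hb : ∀ x, ‖b x‖ ≤ M / (x.2 + 1 : ℕ)) (hh : ∀ τ, AnalyticAt ℂ h (ep τ)) {τ : ℝ}
    (hτ : τ ∉ divSet (ap b)) (K : ℝ) :
    Tendsto (fun s => h s * Complex.exp (FF b s)) (𝓝[ang τ K] (ep τ)) (𝓝 (bv b h τ)) := by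
  have h5 := (Complex.continuous_exp.tendsto _).comp (bl_angle hb hτ K)
  have h6 : Tendsto (fun s : ℂ => s - ep τ) (𝓝[ang τ K] (ep τ))
      (𝓝[{z : ℂ | 0 < z.re ∧ ‖z‖ ≤ K * z.re}] 0) := by
    rw [tendsto_nhdsWithin_iff]
    constructor
    · have h7 : Tendsto (fun s : ℂ => s - ep τ) (𝓝 (ep τ)) (𝓝 (ep τ - ep τ)) :=
        (continuous_id.sub continuous_const).tendsto _
      rw [sub_self] at h7
      exact h7.mono_left nhdsWithin_le_nhds
    · filter_upwards [self_mem_nhdsWithin] with s hs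
      have hre : (s - ep τ).re = s.re - 1 := by
        unfold ep
        simp
      refine ⟨?_, ?_⟩
      · rw [hre]
        linarith [hs.1]
      · rw [hre]
        exact hs.2
  have h8 := ((hh τ).continuousAt.tendsto.mono_left
    (nhdsWithin_le_nhds (s := ang τ K))).mul (h5.comp h6)
  unfold bv
  refine h8.congr' ?_
  filter_upwards [self_mem_nhdsWithin] with s hs
  simp only [Function.comp_apply]
  congr 3
  unfold ep
  ring

lemma exp_radial (hb : ∀ x, ‖b x‖ ≤ M / (x.2 + 1 : ℕ)) (hh : ∀ τ, AnalyticAt ℂ h (ep τ)) {τ : ℝ}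
    (hτ : τ ∉ divSet (ap b)) :
    Tendsto (fun x : ℝ => h (1 + τ * Complex.I + x) * Complex.exp (FF b (1 + τ * Complex.I + x)))
      (𝓝[>] 0) (𝓝 (bv b h τ)) := by
  refine (exp_angle hb hh hτ 1).comp ?_
  rw [tendsto_nhdsWithin_iff]
  refine ⟨tendsto_ep τ, ?_⟩
  filter_upwards [self_mem_nhdsWithin] with x hx
  rw [Set.mem_Ioi] at hx
  refine ⟨?_, ?_⟩
  · simp
    exact hx
  · unfold ep
    have h1 : (1 + τ * Complex.I + x : ℂ) - (1 + τ * Complex.I) = x := by ring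
    rw [h1, Complex.norm_real, Real.norm_of_nonneg hx.le]
    simp

/-- `φ` is a local continuation at `1 + iτ` -/
def IsCont (b : PP → ℂ) (h : ℂ → ℂ) (τ : ℝ) (φ : ℂ → ℂ) : Prop :=
  AnalyticAt ℂ φ (ep τ) ∧ ∀ᶠ s in 𝓝 (ep τ), 1 < s.re → h s * Complex.exp (FF b s) = φ s

/-- two local continuations coincide -/
lemma IsCont.eventuallyEq {τ : ℝ} {φ ψ : ℂ → ℂ} (h1 : AnalyticAt ℂ φ (ep τ))
    (h2 : AnalyticAt ℂ ψ (ep τ)) (h3 : ∀ᶠ s in 𝓝 (ep τ), 1 < s.re → φ s = ψ s) :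
    φ =ᶠ[𝓝 (ep τ)] ψ := by
  refine (h1.frequently_eq_iff_eventually_eq h2).1 ?_
  have hpath : Tendsto (fun x : ℝ => (1 + τ * Complex.I + x : ℂ)) (𝓝[>] 0) (𝓝[≠] (ep τ)) := by
    rw [tendsto_nhdsWithin_iff]
    refine ⟨tendsto_ep τ, ?_⟩
    filter_upwards [self_mem_nhdsWithin] with x hx
    have hx' : (0 : ℝ) < x := hx
    simp only [Set.mem_compl_iff, Set.mem_singleton_iff]
    unfold ep
    rw [add_eq_left]
    exact_mod_cast hx'.ne'
  refine hpath.frequently (Eventually.frequently ?_)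
  filter_upwards [(tendsto_ep τ).eventually h3, self_mem_nhdsWithin] with x hx hx0
  have hx' : (0 : ℝ) < x := hx0
  refine hx ?_
  simp
  exact hx'

/-- a countable family of local continuations -/
lemma exists_family (b : PP → ℂ) (h : ℂ → ℂ) :
    ∃ F : Set (ℂ → ℂ), F.Countable ∧ ∀ τ : ℝ, ∀ φ, IsCont b h τ φ → ∃ ψ ∈ F,
      AnalyticAt ℂ ψ (ep τ) ∧ φ =ᶠ[𝓝 (ep τ)] ψ := by
  classical
  have key : ∀ τ : {τ : ℝ // Cont b h τ}, ∃ (φ : ℂ → ℂ) (r : ℝ), 0 < r ∧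
      (∀ s ∈ Metric.ball (ep τ) r, AnalyticAt ℂ φ s) ∧
      ∀ s ∈ Metric.ball (ep τ) r, 1 < s.re → h s * Complex.exp (FF b s) = φ s := by
    rintro ⟨τ, φ, hφ, hev⟩
    have h1 := hφ.eventually_analyticAt
    obtain ⟨r, hr, hr2⟩ := Metric.eventually_nhds_iff_ball.1 (h1.and hev)
    exact ⟨φ, r, hr, fun s hs => (hr2 s hs).1, fun s hs hs1 => (hr2 s hs).2 hs1⟩
  choose φ r hr hφ hev using key
  obtain ⟨T, hT, hTU⟩ := TopologicalSpace.isOpen_iUnion_countable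
    (fun t : {τ : ℝ // Cont b h τ} => Metric.ball (ep t) (r t))
    (fun t => Metric.isOpen_ball)
  refine ⟨φ '' T, hT.image _, fun τ ψ hψ => ?_⟩
  have hc : Cont b h τ := ⟨ψ, hψ.1, hψ.2⟩
  have h1 : ep τ ∈ ⋃ t : {τ : ℝ // Cont b h τ}, Metric.ball (ep t) (r t) :=
    Set.mem_iUnion.2 ⟨⟨τ, hc⟩, Metric.mem_ball_self (hr ⟨τ, hc⟩)⟩
  rw [← hTU] at h1
  simp only [Set.mem_iUnion] at h1
  obtain ⟨t, ht, hmem⟩ := h1
  refine ⟨φ t, ⟨t, ht, rfl⟩, hφ t _ hmem, ?_⟩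
  refine IsCont.eventuallyEq hψ.1 (hφ t _ hmem) ?_
  filter_upwards [hψ.2, Metric.isOpen_ball.mem_nhds hmem] with s hs1 hs2 hs3
  rw [← hs1 hs3, hev t s hs2 hs3]

end

section
variable {ι : Type} [Countable ι] (b : ι → PP → ℂ) (h : ι → ℂ → ℂ) (N : ι → ℝ)

/-- the coefficients of a monomial in the products -/
noncomputable def cb (m : ι →₀ ℤ) : PP → ℂ := comb m.support m b

/-- the analytic factor of a monomial in the products -/
noncomputable def hm (m : ι →₀ ℤ) (s : ℂ) : ℂ := ∏ i ∈ m.support, h i s ^ m i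

/-- the boundary value of a monomial in the products -/
noncomputable def lm (m : ι →₀ ℤ) (τ : ℝ) : ℂ := bv (cb b m) (hm h m) τ

variable {h N}

omit [Countable ι] in
lemma hm_analytic (hh : ∀ i τ, AnalyticAt ℂ (h i) (ep τ)) (hh0 : ∀ i τ, h i (ep τ) ≠ 0)
    (m : ι →₀ ℤ) (τ : ℝ) : AnalyticAt ℂ (hm h m) (ep τ) := by
  unfold hm
  exact Finset.analyticAt_fun_prod _ fun i _ => (hh i τ).fun_zpow (hh0 i τ)

omit [Countable ι] in
lemma lm_ne (hh0 : ∀ i τ, h i (ep τ) ≠ 0) (m : ι →₀ ℤ) (τ : ℝ) : lm b h m τ ≠ 0 := by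
  unfold lm bv hm
  exact mul_ne_zero (Finset.prod_ne_zero_iff.2 fun i _ => zpow_ne_zero _ (hh0 i τ))
    (Complex.exp_ne_zero _)

omit [Countable ι] in
lemma norm_cb (hb : ∀ i x, ‖b i x‖ ≤ N i / (x.2 + 1 : ℕ)) (m : ι →₀ ℤ) (x : PP) :
    ‖cb b m x‖ ≤ (∑ i ∈ m.support, |(m i : ℝ)| * N i) / (x.2 + 1 : ℕ) :=
  norm_comb m.support m b N (fun i _ => hb i) x

omit [Countable ι] in
lemma exp_cb (hb : ∀ i x, ‖b i x‖ ≤ N i / (x.2 + 1 : ℕ)) (m : ι →₀ ℤ) {s : ℂ} (hs : 1 < s.re) :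
    hm h m s * Complex.exp (FF (cb b m) s) =
      ∏ i ∈ m.support, (h i s * Complex.exp (FF (b i) s)) ^ m i := by
  rw [cb, exp_comb m.support m b N (fun i _ => hb i) hs, hm, ← Finset.prod_mul_distrib]
  exact Finset.prod_congr rfl fun i _ => by rw [mul_zpow]

/-- the exceptional set -/
def exc : Set ℝ := ⋃ m : ι →₀ ℤ, divSet (ap (cb b m))

lemma dim_exc (hb : ∀ i x, ‖b i x‖ ≤ N i / (x.2 + 1 : ℕ)) : dimH (exc b) = 0 := by
  unfold exc
  rw [dimH_iUnion]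
  exact ENNReal.iSup_eq_zero.2 fun m => (boundary (norm_cb b hb m)).2.1

omit [Countable ι] in
lemma lm_angle (hb : ∀ i x, ‖b i x‖ ≤ N i / (x.2 + 1 : ℕ))
    (hh : ∀ i τ, AnalyticAt ℂ (h i) (ep τ)) (hh0 : ∀ i τ, h i (ep τ) ≠ 0) {τ : ℝ}
    (hτ : τ ∉ exc b) (m : ι →₀ ℤ) (K : ℝ) :
    Tendsto (fun s => hm h m s * Complex.exp (FF (cb b m) s)) (𝓝[ang τ K] (ep τ))
      (𝓝 (lm b h m τ)) :=
  exp_angle (norm_cb b hb m) (hm_analytic hh hh0 m)
    (fun h => hτ (Set.mem_iUnion.2 ⟨m, h⟩)) K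

/-- **Continuation or transcendence, simultaneously.** -/
theorem main (hb : ∀ i x, ‖b i x‖ ≤ N i / (x.2 + 1 : ℕ))
    (hh : ∀ i τ, AnalyticAt ℂ (h i) (ep τ)) (hh0 : ∀ i τ, h i (ep τ) ≠ 0)
    {A : Set (ℂ → ℂ)} (hA : A.Countable) :
    ∀ᵐ τ : ℝ, ∀ m : ι →₀ ℤ, Cont (cb b m) (hm h m) τ ∨
      Transcendental (IntermediateField.adjoin ℚ (dvals A (ep τ) ∪
        {z : ℂ | ∃ (m' : ι →₀ ℤ) (φ : ℂ → ℂ) (k : ℕ), IsCont (cb b m') (hm h m') τ φ ∧
          iteratedDeriv k φ (ep τ) = z})) (lm b h m τ) := by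
  have h1 := fun m : ι →₀ ℤ => exists_family (cb b m) (hm h m)
  choose F hF hFv using h1
  set A₁ : Set (ℂ → ℂ) := A ∪ ⋃ m, F m with hA₁
  have hA₁c : A₁.Countable := hA.union (Set.countable_iUnion hF)
  set A' : Set (ℂ → ℂ) := ⋃ k : ℕ, (iteratedDeriv k) '' A₁ with hA'
  have hA'c : A'.Countable := Set.countable_iUnion fun k => hA₁c.image _
  have h2 : ∀ᵐ τ : ℝ, ∀ m : ι →₀ ℤ, Cont (cb b m) (hm h m) τ ∨
      Transcendental (IntermediateField.adjoin ℚ (vals A' (ep τ)))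
        (bv (cb b m) (hm h m) τ) :=
    ae_all_iff.2 fun m => ae_transcendental (norm_cb b hb m) (hm_analytic hh hh0 m) hA'c
  filter_upwards [h2] with τ hτ m
  rcases hτ m with h | h'
  · exact Or.inl h
  · right
    intro halg
    apply h'
    have hle : IntermediateField.adjoin ℚ (dvals A (ep τ) ∪
        {z : ℂ | ∃ (m' : ι →₀ ℤ) (φ : ℂ → ℂ) (k : ℕ), IsCont (cb b m') (hm h m') τ φ ∧
          iteratedDeriv k φ (ep τ) = z}) ≤
        IntermediateField.adjoin ℚ (vals A' (ep τ)) := by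
      refine IntermediateField.adjoin.mono _ _ _ ?_
      rintro z (hz | ⟨m', φ, k, hφ, rfl⟩)
      · refine dvals_subset A₁ _ ?_
        obtain ⟨g, hg, k, hga, hk⟩ := hz
        exact ⟨g, Or.inl hg, k, hga, hk⟩
      · obtain ⟨ψ, hψ, hψa, hψe⟩ := hFv m' τ φ hφ
        refine dvals_subset A₁ _ ⟨ψ, Or.inr (Set.mem_iUnion.2 ⟨m', hψ⟩), k, hψa, ?_⟩
        exact (hψe.iteratedDeriv_eq k).symm
    obtain ⟨P, hP, hPx⟩ := halg
    refine ⟨P.map (IntermediateField.inclusion hle).toRingHom, ?_, ?_⟩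
    · rw [Polynomial.map_ne_zero_iff (IntermediateField.inclusion hle).toRingHom.injective]
      exact hP
    · rw [Polynomial.aeval_def, Polynomial.eval₂_map]
      rw [Polynomial.aeval_def] at hPx
      exact hPx

end

end H

end Pool.Agent.Y719.EL
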