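import Pool.Agent.Y719.EL.ContH

/-!
# Twisted Euler products of elliptic curves over number fields
-/

set_option autoImplicit false

namespace Pool.Agent.Y719.EL.EC

open Finset Filter Topology MeasureTheory NumberField IsDedekindDomain
open Pool.Agent.TH339.MP (PP FF elf S6 lfac nm av two_le_nm av_triv exists_beta bb norm_bb hasProd_L
  cpow_two)
open Pool.Agent.TH345.ET (ep analytic_cpow)

lemma den_ne' {q : ℕ} (hq : 2 ≤ q) {a : ℂ} (ha : ‖a‖ ≤ q) {e : ℂ} (he : ‖e‖ ≤ q) {s : ℂ}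
    (hs : 3 / 2 ≤ s.re) : 1 - a * (q : ℂ) ^ (-s) + e * (q : ℂ) ^ (-2 * s) ≠ 0 := by
  have hq0 : (0 : ℝ) < q := by exact_mod_cast (by omega : 0 < q)
  have hq1 : (1 : ℝ) ≤ q := by exact_mod_cast (by omega : 1 ≤ q)
  have hq2 : (2 : ℝ) ≤ q := by exact_mod_cast hq
  have hx : ‖(q : ℂ) ^ (-s)‖ ≤ (q : ℝ) ^ (-(3 / 2) : ℝ) := by
    rw [Complex.norm_natCast_cpow_of_pos (by omega), Complex.neg_re]
    exact Real.rpow_le_rpow_of_exponent_le hq1 (by linarith)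
  have h1 : (q : ℝ) * (q : ℝ) ^ (-(3 / 2) : ℝ) ≤ 708 / 1000 := by
    have e1 : (q : ℝ) * (q : ℝ) ^ (-(3 / 2) : ℝ) = (Real.sqrt q)⁻¹ := by
      rw [Real.sqrt_eq_rpow, ← Real.rpow_neg hq0.le]
      nth_rewrite 1 [← Real.rpow_one (q : ℝ)]
      rw [← Real.rpow_add hq0]
      norm_num
    rw [e1, inv_le_comm₀ (Real.sqrt_pos.2 hq0) (by norm_num)]
    refine Real.le_sqrt_of_sq_le ?_
    norm_num
    linarith
  have h2 : (q : ℝ) * ((q : ℝ) ^ (-(3 / 2) : ℝ)) ^ 2 ≤ 1 / 4 := by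
    have e1 : (q : ℝ) * ((q : ℝ) ^ (-(3 / 2) : ℝ)) ^ 2 = ((q : ℝ) ^ 2)⁻¹ := by
      rw [← Real.rpow_natCast, ← Real.rpow_mul hq0.le]
      nth_rewrite 1 [← Real.rpow_one (q : ℝ)]
      rw [← Real.rpow_add hq0, ← Real.rpow_natCast (q : ℝ) 2, ← Real.rpow_neg hq0.le]
      norm_num
    rw [e1, inv_le_comm₀ (by positivity) (by norm_num)]
    nlinarith
  have h3 : ‖a * (q : ℂ) ^ (-s)‖ ≤ 708 / 1000 := by
    rw [norm_mul]
    exact (mul_le_mul ha hx (norm_nonneg _) hq0.le).trans h1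
  have h4 : ‖e * (q : ℂ) ^ (-2 * s)‖ ≤ 1 / 4 := by
    rw [cpow_two q (by omega), norm_mul, norm_pow]
    exact (mul_le_mul he (pow_le_pow_left₀ (norm_nonneg _) hx 2) (by positivity) hq0.le).trans h2
  intro h0
  have h7 : (1 : ℂ) = a * (q : ℂ) ^ (-s) - e * (q : ℂ) ^ (-2 * s) := by linear_combination h0
  have h8 : ‖(1 : ℂ)‖ ≤ ‖a * (q : ℂ) ^ (-s)‖ + ‖e * (q : ℂ) ^ (-2 * s)‖ := by
    rw [h7]
    exact norm_sub_le _ _
  rw [norm_one] at h8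
  linarith

section
variable {K : Type} [Field K] [NumberField K]

open Classical in
/-- the twisted Euler factor -/
noncomputable def telf (W : HeightOneSpectrum (𝓞 K) → WeierstrassCurve (𝓞 K))
    (ψ : HeightOneSpectrum (𝓞 K) → ℂ) (v : HeightOneSpectrum (𝓞 K)) (s : ℂ) : ℂ :=
  (1 - ((av W v : ℝ) : ℂ) * ψ v * (nm v : ℂ) ^ (-s) +
    (if (W v).Δ ∈ v.asIdeal then 0 else (nm v : ℂ)) * ψ v ^ 2 * (nm v : ℂ) ^ (-2 * s))⁻¹

open Classical in
lemma den_telf (W : HeightOneSpectrum (𝓞 K) → WeierstrassCurve (𝓞 K))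
    {ψ : HeightOneSpectrum (𝓞 K) → ℂ} (hψ : ∀ v, ‖ψ v‖ ≤ 1) (v : HeightOneSpectrum (𝓞 K)) {s : ℂ}
    (hs : 3 / 2 ≤ s.re) :
    1 - ((av W v : ℝ) : ℂ) * ψ v * (nm v : ℂ) ^ (-s) +
      (if (W v).Δ ∈ v.asIdeal then 0 else (nm v : ℂ)) * ψ v ^ 2 * (nm v : ℂ) ^ (-2 * s) ≠ 0 := by
  refine den_ne' (two_le_nm v) ?_ ?_ hs
  · rw [norm_mul, Complex.norm_real]
    calc |av W v| * ‖ψ v‖ ≤ (nm v : ℝ) * 1 :=
          mul_le_mul (av_triv W v) (hψ v) (norm_nonneg _) (by positivity)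
      _ = nm v := mul_one _
  · rw [norm_mul, norm_pow]
    have h1 : ‖ψ v‖ ^ 2 ≤ 1 := pow_le_one₀ (norm_nonneg _) (hψ v)
    split_ifs
    · simp
    · rw [Complex.norm_natCast]
      calc (nm v : ℝ) * ‖ψ v‖ ^ 2 ≤ (nm v : ℝ) * 1 := by gcongr
        _ = nm v := mul_one _

lemma telf_analytic (W : HeightOneSpectrum (𝓞 K) → WeierstrassCurve (𝓞 K))
    {ψ : HeightOneSpectrum (𝓞 K) → ℂ} (hψ : ∀ v, ‖ψ v‖ ≤ 1)
    (v : HeightOneSpectrum (𝓞 K)) {s : ℂ} (hs : 3 / 2 ≤ s.re) : AnalyticAt ℂ (telf W ψ v) s := by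
  classical
  unfold telf
  refine AnalyticAt.fun_inv ?_ (den_telf W hψ v hs)
  refine (analyticAt_const.sub (analyticAt_const.mul ?_)).add (analyticAt_const.mul ?_)
  · exact analytic_cpow (two_le_nm v) _ _ analyticAt_id.neg
  · exact analytic_cpow (two_le_nm v) _ _ (analyticAt_const.mul analyticAt_id)

/-- the factor of the primes above `6`, normalised -/
noncomputable def hT (W : HeightOneSpectrum (𝓞 K) → WeierstrassCurve (𝓞 K))
    (ψ : HeightOneSpectrum (𝓞 K) → ℂ) (s : ℂ) : ℂ :=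
  ∏ v ∈ (S6 : Finset (HeightOneSpectrum (𝓞 K))), telf W ψ v (s + 1 / 2)

lemma hT_analytic (W : HeightOneSpectrum (𝓞 K) → WeierstrassCurve (𝓞 K))
    {ψ : HeightOneSpectrum (𝓞 K) → ℂ} (hψ : ∀ v, ‖ψ v‖ ≤ 1) (τ : ℝ) :
    AnalyticAt ℂ (hT W ψ) (ep τ) := by
  unfold hT
  refine Finset.analyticAt_fun_prod _ fun v _ => ?_
  refine AnalyticAt.fun_comp (g := telf W ψ v) (f := fun s : ℂ => s + 1 / 2) ?_
    (analyticAt_id.add analyticAt_const)
  refine telf_analytic W hψ v ?_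
  unfold ep
  simp
  norm_num

lemma hT_ne (W : HeightOneSpectrum (𝓞 K) → WeierstrassCurve (𝓞 K))
    {ψ : HeightOneSpectrum (𝓞 K) → ℂ} (hψ : ∀ v, ‖ψ v‖ ≤ 1) (τ : ℝ) : hT W ψ (ep τ) ≠ 0 := by
  unfold hT
  refine Finset.prod_ne_zero_iff.2 fun v _ => ?_
  unfold telf
  refine inv_ne_zero (den_telf W hψ v ?_)
  unfold ep
  simp
  norm_num

lemma telf_beta (W : HeightOneSpectrum (𝓞 K) → WeierstrassCurve (𝓞 K))
    (ψ : HeightOneSpectrum (𝓞 K) → ℂ) (v : HeightOneSpectrum (𝓞 K)) {β : Fin 2 → ℂ}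
    (h : ∀ s : ℂ, elf W v s = ∏ j, (1 - β j * ((nm v : ℕ) : ℂ) ^ (-(s - 1 / 2)))⁻¹) (s : ℂ) :
    telf W ψ v s = ∏ j, (1 - β j * ψ v * ((nm v : ℕ) : ℂ) ^ (-(s - 1 / 2)))⁻¹ := by
  classical
  by_cases hψ : ψ v = 0
  · unfold telf
    rw [hψ]
    simp
  · have hq : ((nm v : ℕ) : ℂ) ≠ 0 := Nat.cast_ne_zero.2 (by have := two_le_nm v; omega)
    have hlog : Complex.log ((nm v : ℕ) : ℂ) ≠ 0 := by
      have h1 : Complex.log ((nm v : ℕ) : ℂ) = ((Real.log (nm v : ℕ) : ℝ) : ℂ) := by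
        rw [Complex.ofReal_log (by positivity)]
        simp
      rw [h1]
      have h2 : 0 < Real.log (nm v : ℕ) := Real.log_pos (by exact_mod_cast two_le_nm v)
      exact_mod_cast h2.ne'
    set c : ℂ := Complex.log (ψ v) / Complex.log ((nm v : ℕ) : ℂ) with hc
    have hpow : ((nm v : ℕ) : ℂ) ^ c = ψ v := by
      rw [Complex.cpow_def_of_ne_zero hq, hc, mul_div_cancel₀ _ hlog, Complex.exp_log hψ]
    have h1 : ((nm v : ℕ) : ℂ) ^ (-(s - c)) = ψ v * ((nm v : ℕ) : ℂ) ^ (-s) := by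
      rw [show -(s - c) = c + -s by ring, Complex.cpow_add _ _ hq, hpow]
    have h2 : ((nm v : ℕ) : ℂ) ^ (-2 * (s - c)) = ψ v ^ 2 * ((nm v : ℕ) : ℂ) ^ (-2 * s) := by
      rw [cpow_two _ (by exact_mod_cast hq), cpow_two _ (by exact_mod_cast hq), h1, mul_pow]
    have h3 : ((nm v : ℕ) : ℂ) ^ (-(s - c - 1 / 2)) =
        ψ v * ((nm v : ℕ) : ℂ) ^ (-(s - 1 / 2)) := by
      rw [show -(s - c - 1 / 2) = c + -(s - 1 / 2) by ring, Complex.cpow_add _ _ hq, hpow]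
    have h4 := h (s - c)
    unfold elf lfac at h4
    rw [h1, h2] at h4
    have h5 : telf W ψ v s = (1 - ((av W v : ℝ) : ℂ) * (ψ v * (nm v : ℂ) ^ (-s)) +
        (if (W v).Δ ∈ v.asIdeal then 0 else (nm v : ℂ)) *
          (ψ v ^ 2 * (nm v : ℂ) ^ (-2 * s)))⁻¹ := by
      unfold telf
      congr 1
      ring
    rw [h5, h4]
    refine Finset.prod_congr rfl fun j _ => ?_
    rw [h3, mul_assoc]

theorem telf_hasProd (W : HeightOneSpectrum (𝓞 K) → WeierstrassCurve (𝓞 K))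
    {ψ : HeightOneSpectrum (𝓞 K) → ℂ} (hψ : ∀ v, ‖ψ v‖ ≤ 1) :
    ∃ b : PP → ℂ, (∀ x, ‖b x‖ ≤ ((Module.finrank ℚ K : ℝ) * 2) / (x.2 + 1 : ℕ)) ∧
      ∀ s : ℂ, 1 < s.re →
        HasProd (fun v => telf W ψ v (s + 1 / 2)) (hT W ψ s * Complex.exp (FF b s)) := by
  classical
  obtain ⟨β, h1, h2⟩ := exists_beta W
  set β' : HeightOneSpectrum (𝓞 K) → Fin 2 → ℂ :=
    fun v j => if v ∈ S6 then 0 else β v j * ψ v with hβ'
  have hb' : ∀ v j, ‖β' v j‖ ≤ 1 := by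
    intro v j
    simp only [hβ']
    split_ifs
    · simp
    · rw [norm_mul]
      exact mul_le_one₀ (h1 v j) (norm_nonneg _) (hψ v)
  refine ⟨bb β', fun x => by simpa using norm_bb hb' x, fun s hs => ?_⟩
  have h3 := hasProd_L hb' hs
  have h4 : HasProd (fun v => if v ∈ (S6 : Finset (HeightOneSpectrum (𝓞 K))) then
      telf W ψ v (s + 1 / 2) else 1) (hT W ψ s) := by
    have h5 := hasProd_prod_of_ne_finset_one (L := SummationFilter.unconditional _)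
      (s := (S6 : Finset (HeightOneSpectrum (𝓞 K))))
      (f := fun v => if v ∈ (S6 : Finset (HeightOneSpectrum (𝓞 K))) then
        telf W ψ v (s + 1 / 2) else 1)
      (fun v hv => if_neg hv)
    have h6 : ∏ v ∈ (S6 : Finset (HeightOneSpectrum (𝓞 K))),
        (if v ∈ (S6 : Finset (HeightOneSpectrum (𝓞 K))) then telf W ψ v (s + 1 / 2) else 1) =
        hT W ψ s :=
      Finset.prod_congr rfl fun v hv => if_pos hv
    rwa [h6] at h5
  have h5 := h4.mul h3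
  refine h5.congr_fun ?_ |> fun h => h
  intro v
  by_cases hv : v ∈ (S6 : Finset (HeightOneSpectrum (𝓞 K)))
  · simp only [hβ', if_pos hv]
    simp
  · simp only [hβ', if_neg hv]
    rw [telf_beta W ψ v (fun s => h2 v hv s), one_mul]
    refine prod_congr rfl fun j _ => ?_
    congr 4
    ring

end

end Pool.Agent.Y719.EL.EC
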