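import Pool.Agent.Y719.EL.Mod
import Mathlib.LinearAlgebra.Matrix.Charpoly.Eigs

/-!
# Detecting products of Euler products from the moduli on the edge
-/

set_option autoImplicit false

namespace Pool.Agent.Y719.EL.M

open Filter Topology MeasureTheory Finset Polynomial
open Pool.Agent.Y774.MD (IsEuler fac LQ eabs Concentrated Continues GoodAt prod_coeff)

/-- the polynomial at the prime `p` of the product of the shifted Euler products -/
noncomputable def tw {κ : Type} [Fintype κ] (P : κ → ℕ → ℂ[X]) (t : κ → ℝ) (p : ℕ) : ℂ[X] :=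
  ∏ k, (P k p).comp (C ((p : ℂ) ^ (-(t k * Complex.I))) * X)

section
variable {κ : Type} [Fintype κ] {P₀ : ℕ → ℂ[X]} {P : κ → ℕ → ℂ[X]} {t : κ → ℝ}

/-- the factors of the product -/
lemma fac_tw {p : ℕ} (hp : p.Prime) (s : ℂ) :
    ((tw P t p).eval ((p : ℂ) ^ (-s)))⁻¹ = ∏ k, fac (P k) p (s + t k * Complex.I) := by
  have hpc : (p : ℂ) ≠ 0 := by exact_mod_cast hp.ne_zero
  unfold tw fac
  rw [Polynomial.eval_prod, Finset.prod_inv_distrib]
  congr 1
  refine prod_congr rfl fun k _ => ?_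
  rw [eval_comp, eval_mul, eval_C, eval_X, neg_add, Complex.cpow_add _ _ hpc, mul_comm]

/-- the product of the L-functions -/
lemma LQ_tw (h0 : ∀ p : ℕ, p.Prime → P₀ p = tw P t p)
    (h : ∀ k, ∃ D θ C E, IsEuler (P k) D θ C E) {s : ℂ} (hs : 1 < s.re) :
    LQ P₀ s = ∏ k, LQ (P k) (s + t k * Complex.I) := by
  unfold LQ
  rw [← Multipliable.tprod_finsetProd]
  · refine tprod_congr fun p => ?_
    rw [← fac_tw p.2]
    unfold fac
    rw [h0 p p.2]
  · intro k _
    obtain ⟨D, θ, C, E, hk⟩ := h k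
    have hre : 1 < (s + t k * Complex.I).re := by simpa using hs
    exact (hk.hasProd hre).multipliable

/-- the moduli of the boundary values -/
lemma eabs_tw (h0 : ∀ p : ℕ, p.Prime → P₀ p = tw P t p)
    (h : ∀ k, ∃ D θ C E, IsEuler (P k) D θ C E) :
    ∀ᵐ τ : ℝ, eabs P₀ τ = ∏ k, eabs (P k) (τ + t k) := by
  have h1 : ∀ᵐ τ : ℝ, ∀ k, Tendsto
      (fun σ : ℝ => ‖LQ (P k) (1 + σ + (τ + t k : ℝ) * Complex.I)‖) (𝓝[>] 0)
      (𝓝 (eabs (P k) (τ + t k))) := by
    rw [ae_all_iff]
    intro k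
    obtain ⟨D, θ, C, E, hk⟩ := h k
    have h2 : ∀ᵐ τ : ℝ, Tendsto (fun σ : ℝ => ‖LQ (P k) (1 + σ + τ * Complex.I)‖) (𝓝[>] 0)
        (𝓝 (eabs (P k) τ)) := hk.edge'.mono fun τ hτ => hτ.1.2
    exact Pool.Agent.Y774.MD.ae_shift h2 (t k)
  filter_upwards [h1] with τ hτ
  have h3 : Tendsto (fun σ : ℝ => ‖LQ P₀ (1 + σ + τ * Complex.I)‖) (𝓝[>] 0)
      (𝓝 (∏ k, eabs (P k) (τ + t k))) := by
    refine (tendsto_finsetProd univ fun k _ => hτ k).congr' ?_
    filter_upwards [self_mem_nhdsWithin] with σ hσ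
    have hσ' : (0 : ℝ) < σ := hσ
    have hre : 1 < (1 + σ + τ * Complex.I : ℂ).re := by
      simp
      exact hσ'
    rw [LQ_tw h0 h hre, norm_prod]
    refine prod_congr rfl fun k _ => ?_
    congr 2
    push_cast
    ring
  exact h3.limUnder_eq

/-- a function that vanishes almost everywhere is concentrated -/
lemma concentrated_of_ae {f : ℝ → ℝ} (h : ∀ᵐ τ : ℝ, f τ = 0) : Concentrated f := by
  refine ⟨1, one_pos, fun ε hε => Eventually.frequently ?_⟩
  filter_upwards [eventually_gt_atTop 0] with T hT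
  refine ⟨0, ?_⟩
  have h1 : volume (Set.Ioc 0 T) ≤ volume {τ | τ ∈ Set.Ioc 0 T ∧ |f τ - 0| < ε} := by
    refine measure_mono_ae ?_
    filter_upwards [h] with τ hτ hmem
    exact ⟨hmem, by rw [hτ]; simpa using hε⟩
  rw [Real.volume_Ioc, sub_zero] at h1
  rw [one_mul]
  exact h1

/-- equality almost everywhere gives concentration -/
lemma concentrated_of_eq (h : ∀ k, ∃ D θ C E, IsEuler (P k) D θ C E)
    (h1 : ∀ᵐ τ : ℝ, eabs P₀ τ = ∏ k, eabs (P k) (τ + t k)) :
    Concentrated fun τ => Real.log (eabs P₀ τ) - ∑ k, Real.log (eabs (P k) (τ + t k)) := by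
  refine concentrated_of_ae ?_
  have h2 : ∀ᵐ τ : ℝ, ∀ k, eabs (P k) (τ + t k) ≠ 0 := by
    rw [ae_all_iff]
    intro k
    obtain ⟨D, θ, C, E, hk⟩ := h k
    have h3 : ∀ᵐ τ : ℝ, eabs (P k) τ ≠ 0 := hk.edge'.mono fun τ hτ => hτ.1.1.ne'
    exact Pool.Agent.Y774.MD.ae_shift h3 (t k)
  filter_upwards [h1, h2] with τ hτ hτ2
  rw [hτ, Real.log_prod fun k _ => hτ2 k, sub_self]

/-- equality of the polynomials from the concentration -/
lemma eq_tw (ha : ∃ D θ C E, IsEuler P₀ D θ C E) (hb : ∀ k, ∃ D θ C E, IsEuler (P k) D θ C E)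
    (hc : Concentrated fun τ => Real.log (eabs P₀ τ) - ∑ k, Real.log (eabs (P k) (τ + t k)))
    {q : ℕ} (hq : q.Prime) (hg₀ : GoodAt (P₀ q) q) (hg : ∀ k, GoodAt (P k q) q) :
    P₀ q = tw P t q := by
  have hc' : Concentrated (Pool.Agent.Y774.MD.cmp P₀ P (fun _ => 1) t) := by
    refine cast (congrArg Concentrated ?_) hc
    funext τ
    unfold Pool.Agent.Y774.MD.cmp
    simp
  refine eq_of_eval hq fun s hs => inv_injective ?_
  have h2 := Pool.Agent.Y774.MD.factors ha hb hc' hq hg₀ hg hs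
  rw [fac_tw hq]
  refine h2.trans (prod_congr rfl fun k _ => zpow_one _)

end

section

/-- the inverse roots -/
noncomputable def sat (P : ℂ[X]) : Multiset ℂ := P.roots.map fun z => z⁻¹

lemma sat_ne {P : ℂ[X]} (h : P.coeff 0 = 1) : ∀ z ∈ sat P, z ≠ 0 := by
  intro z hz
  unfold sat at hz
  rw [Multiset.mem_map] at hz
  obtain ⟨w, hw, rfl⟩ := hz
  refine inv_ne_zero ?_
  rintro rfl
  have h1 := (mem_roots'.1 hw).2
  rw [IsRoot.def, ← coeff_zero_eq_eval_zero, h] at h1
  exact one_ne_zero h1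

lemma sat_card (P : ℂ[X]) : Multiset.card (sat P) = P.natDegree := by
  unfold sat
  rw [Multiset.card_map, splits_iff_card_roots.1 (IsAlgClosed.splits _)]

lemma prod_sat {P : ℂ[X]} (h : P.coeff 0 = 1) :
    ((sat P).map fun a => (1 - C a * X : ℂ[X])).prod = P := by
  have h0 : ∀ z ∈ P.roots, z ≠ 0 := by
    rintro z hz rfl
    have h1 := (mem_roots'.1 hz).2
    rw [IsRoot.def, ← coeff_zero_eq_eval_zero, h] at h1
    exact one_ne_zero h1
  have h2 : P = C P.leadingCoeff * (P.roots.map fun a => X - C a).prod :=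
    (IsAlgClosed.splits P).eq_prod_roots
  have h3 : (P.roots.map fun a => (X - C a : ℂ[X])).prod =
      C ((P.roots.map fun a => -a).prod) * ((sat P).map fun a => (1 - C a * X : ℂ[X])).prod := by
    unfold sat
    rw [Multiset.map_map]
    have h4 : ∀ u : Multiset ℂ, (∀ z ∈ u, z ≠ 0) → (u.map fun a => (X - C a : ℂ[X])).prod =
        C ((u.map fun a => -a).prod) *
          (u.map ((fun a => (1 - C a * X : ℂ[X])) ∘ fun z => z⁻¹)).prod := by
      intro u
      induction u using Multiset.induction_on with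
      | empty => simp
      | cons a u ih =>
        intro hu
        have ha : a ≠ 0 := hu a (Multiset.mem_cons_self a u)
        rw [Multiset.map_cons, Multiset.prod_cons, ih fun z hz => hu z (Multiset.mem_cons_of_mem hz),
          Multiset.map_cons, Multiset.prod_cons, Multiset.map_cons, Multiset.prod_cons, C_mul]
        simp only [Function.comp_apply]
        have h5 : (X - C a : ℂ[X]) = C (-a) * (1 - C a⁻¹ * X) := by
          rw [mul_sub, ← mul_assoc, ← C_mul, neg_mul, mul_inv_cancel₀ ha, C_neg, C_neg, C_1]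
          ring
        rw [h5]
        ring
    exact h4 P.roots h0
  have h6 : P = C (P.leadingCoeff * (P.roots.map fun a => -a).prod) *
      ((sat P).map fun a => (1 - C a * X : ℂ[X])).prod := by
    rw [C_mul, mul_assoc, ← h3]
    exact h2
  have h7 := congrArg (fun Q : ℂ[X] => Q.coeff 0) h6
  simp only [coeff_C_mul, (prod_coeff _).1, h, mul_one] at h7
  rw [← h7, C_1, one_mul] at h6
  exact h6.symm

variable {κ : Type} [Fintype κ] {P : κ → ℕ → ℂ[X]} {t : κ → ℝ}

lemma prod_comp (u : Multiset ℂ) (b : ℂ) :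
    ((u.map fun a => (1 - C a * X : ℂ[X])).prod).comp (C b * X) =
      ((u.map fun z => z * b).map fun a => (1 - C a * X : ℂ[X])).prod := by
  induction u using Multiset.induction_on with
  | empty => simp
  | cons a u ih =>
    rw [Multiset.map_cons, Multiset.prod_cons, mul_comp, ih, Multiset.map_cons, Multiset.map_cons,
      Multiset.prod_cons]
    congr 1
    rw [sub_comp, mul_comp, C_comp, X_comp, one_comp, C_mul]
    ring

omit [Fintype κ] in
lemma prod_sum_map (s : Finset κ) (f : κ → Multiset ℂ) :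
    ((∑ k ∈ s, f k).map fun a => (1 - C a * X : ℂ[X])).prod =
      ∏ k ∈ s, ((f k).map fun a => (1 - C a * X : ℂ[X])).prod := by
  classical
  induction s using Finset.induction_on with
  | empty => simp
  | insert a s ha ih => rw [sum_insert ha, prod_insert ha, Multiset.map_add, Multiset.prod_add, ih]

/-- the inverse roots of the product -/
lemma roots_tw {u : Multiset ℂ} (hu : ∀ z ∈ u, z ≠ 0) {p : ℕ} (hp : p.Prime)
    (hP : ∀ k, (P k p).coeff 0 = 1)
    (h : (u.map fun a => (1 - C a * X : ℂ[X])).prod = tw P t p) :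
    u = ∑ k, (sat (P k p)).map fun z => z * (p : ℂ) ^ (-(t k * Complex.I)) := by
  classical
  have hpc : (p : ℂ) ≠ 0 := by exact_mod_cast hp.ne_zero
  refine inj hu (fun z hz => ?_) ?_
  · rw [Multiset.mem_sum] at hz
    obtain ⟨k, _, hk⟩ := hz
    rw [Multiset.mem_map] at hk
    obtain ⟨w, hw, rfl⟩ := hk
    refine mul_ne_zero (sat_ne (hP k) w hw) ?_
    rw [Complex.cpow_def_of_ne_zero hpc]
    exact Complex.exp_ne_zero _
  · rw [h, prod_sum_map]
    unfold tw
    refine prod_congr rfl fun k _ => ?_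
    rw [← prod_comp, prod_sat (hP k)]

variable {n : ℕ}

/-- the reversed characteristic polynomial -/
lemma charpolyRev_eq (M : Matrix (Fin n) (Fin n) ℂ) :
    M.charpolyRev = (M.charpoly.roots.map fun a => (1 - C a * X : ℂ[X])).prod := by
  rw [← Matrix.reverse_charpoly]
  have h1 : M.charpoly = (M.charpoly.roots.map fun a => X - C a).prod := by
    have h2 := (IsAlgClosed.splits M.charpoly).eq_prod_roots
    rw [(Matrix.charpoly_monic M).leadingCoeff, C_1, one_mul] at h2
    exact h2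
  have h3 : ∀ u : Multiset ℂ, ((u.map fun a => (X - C a : ℂ[X])).prod).reverse =
      (u.map fun a => (1 - C a * X : ℂ[X])).prod := by
    intro u
    induction u using Multiset.induction_on with
    | empty => simp [reverse]
    | cons a u ih =>
      rw [Multiset.map_cons, Multiset.prod_cons, reverse_mul_of_domain, ih, Multiset.map_cons,
        Multiset.prod_cons]
      congr 1
      have h4 : (X - C a : ℂ[X]) = X + C (-a) := by rw [C_neg]; ring
      have h5 : (X : ℂ[X]).reverse = 1 := by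
        have h6 := reverse_mul_X (1 : ℂ[X])
        rw [one_mul] at h6
        rw [h6, ← C_1, reverse_C]
      rw [h4, reverse_add_C, h5, natDegree_X, pow_one, C_neg]
      ring
  rw [← h3, ← h1]

lemma eig_ne (g : GL (Fin n) ℂ) :
    ∀ z ∈ (g : Matrix (Fin n) (Fin n) ℂ).charpoly.roots, z ≠ 0 := by
  rintro z hz rfl
  have h1 := (Polynomial.mem_roots'.1 hz).2
  rw [Polynomial.IsRoot.def, ← Polynomial.coeff_zero_eq_eval_zero] at h1
  have h2 := Matrix.det_eq_sign_charpoly_coeff (g : Matrix (Fin n) (Fin n) ℂ)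
  rw [h1, mul_zero] at h2
  have h3 : IsUnit (g : Matrix (Fin n) (Fin n) ℂ).det :=
    (Matrix.isUnit_iff_isUnit_det _).1 g.isUnit
  rw [h2] at h3
  exact not_isUnit_zero h3

lemma eig_card (g : GL (Fin n) ℂ) :
    Multiset.card (g : Matrix (Fin n) (Fin n) ℂ).charpoly.roots = n := by
  rw [Polynomial.splits_iff_card_roots.1 (IsAlgClosed.splits _), Matrix.charpoly_natDegree_eq_dim,
    Fintype.card_fin]

end

end Pool.Agent.Y719.EL.M
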