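import Pool.Agent.Y774.MD.Main

/-!
# Euler products given by the inverse roots of their factors
-/

set_option autoImplicit false

namespace Pool.Agent.Y719.EL.M

open Filter Topology MeasureTheory Finset Polynomial
open Pool.Agent.Y774.MD (IsEuler fac LQ eabs Concentrated Continues GoodAt prod_coeff)

/-- the polynomials with the inverse roots `a p` -/
noncomputable def PM (S : Finset ℕ) (a : ℕ → Multiset ℂ) (p : ℕ) : ℂ[X] :=
  if p ∈ S then 1 else ((a p).map fun z => (1 - C z * X : ℂ[X])).prod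

section
variable {S : Finset ℕ} {a : ℕ → Multiset ℂ}

lemma PM_coeff_zero (p : ℕ) : (PM S a p).coeff 0 = 1 := by
  unfold PM
  split_ifs
  · simp
  · exact (prod_coeff _).1

lemma eval_prod (s : Multiset ℂ) (z : ℂ) :
    ((s.map fun a => (1 - C a * X : ℂ[X])).prod).eval z = (s.map fun a => 1 - a * z).prod := by
  rw [eval_multiset_prod, Multiset.map_map]
  congr 1
  refine Multiset.map_congr rfl fun a _ => ?_
  simp

lemma natDegree_le (s : Multiset ℂ) :
    ((s.map fun a => (1 - C a * X : ℂ[X])).prod).natDegree ≤ Multiset.card s := by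
  induction s using Multiset.induction_on with
  | empty => simp
  | cons a s ih =>
    rw [Multiset.map_cons, Multiset.prod_cons, Multiset.card_cons]
    have h1 : (1 - C a * X : ℂ[X]).natDegree ≤ 1 := by
      refine (natDegree_sub_le _ _).trans ?_
      rw [natDegree_one]
      exact max_le (Nat.zero_le _) ((natDegree_C_mul_le _ _).trans natDegree_X_le)
    exact (natDegree_mul_le).trans (by omega)

lemma PM_euler {D : ℕ} {δ C₀ : ℝ} (hδ : δ < 1 / 2)
    (hcard : ∀ p : ℕ, p.Prime → p ∉ S → Multiset.card (a p) ≤ D)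
    (hb : ∀ p : ℕ, p.Prime → p ∉ S → ∀ z ∈ a p, ‖z‖ ≤ (p : ℝ) ^ δ)
    (hms : ∀ x : ℕ, ∑ p ∈ (range x).filter (fun p => p.Prime ∧ p ∉ S),
      ‖(a p).sum‖ ^ 2 * Real.log p ≤ C₀ * x) :
    IsEuler (PM S a) D δ C₀ S := by
  classical
  refine ⟨fun p _ h => ?_, hδ, fun p hp hpS => ⟨PM_coeff_zero p, ?_, ?_⟩, fun x => ?_⟩
  · have h1 := PM_coeff_zero (S := S) (a := a) p
    rw [h] at h1
    simp at h1
  · unfold PM
    rw [if_neg hpS]
    exact (natDegree_le _).trans (hcard p hp hpS)
  · intro z hz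
    unfold PM at hz
    rw [if_neg hpS, eval_prod, Multiset.prod_eq_zero_iff, Multiset.mem_map] at hz
    obtain ⟨w, hw, hwz⟩ := hz
    have hp0 : (0 : ℝ) < p := by exact_mod_cast hp.pos
    have h1 : w * z = 1 := by linear_combination -hwz
    have h2 : ‖w‖ * ‖z‖ = 1 := by rw [← norm_mul, h1, norm_one]
    have h3 := hb p hp hpS w hw
    rw [Real.rpow_neg hp0.le]
    have h4 : 0 < (p : ℝ) ^ δ := Real.rpow_pos_of_pos hp0 _
    rw [inv_le_iff_one_le_mul₀ h4]
    calc (1 : ℝ) = ‖w‖ * ‖z‖ := h2.symm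
      _ ≤ (p : ℝ) ^ δ * ‖z‖ := mul_le_mul_of_nonneg_right h3 (norm_nonneg _)
      _ = ‖z‖ * (p : ℝ) ^ δ := mul_comm _ _
  · refine le_trans (le_of_eq ?_) (hms x)
    have h1 : (range x).filter (fun p => p.Prime ∧ p ∉ S) =
        ((range x).filter Nat.Prime).filter (fun p => p ∉ S) := by
      rw [filter_filter]
    rw [h1, sum_filter (p := fun p => p ∉ S)]
    refine sum_congr rfl fun p _ => ?_
    unfold PM
    by_cases h : p ∈ S
    · rw [if_pos h, if_neg (not_not.2 h)]
      simp [coeff_one]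
    · rw [if_neg h, if_pos h, (prod_coeff _).2, norm_neg]

lemma fac_PM {p : ℕ} (hpS : p ∉ S) (s : ℂ) :
    fac (PM S a) p s = ((a p).map fun z => 1 - z * (p : ℂ) ^ (-s)).prod⁻¹ := by
  unfold fac PM
  rw [if_neg hpS, eval_prod]

/-- nonzero inverse roots are determined by the polynomial -/
lemma inj {s t : Multiset ℂ} (hs : ∀ z ∈ s, z ≠ 0) (ht : ∀ z ∈ t, z ≠ 0)
    (h : (s.map fun a => (1 - C a * X : ℂ[X])).prod = (t.map fun a => (1 - C a * X : ℂ[X])).prod) :
    s = t := by
  have key : ∀ u : Multiset ℂ, (∀ z ∈ u, z ≠ 0) →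
      ((u.map fun a => (1 - C a * X : ℂ[X])).prod).roots = u.map fun z => z⁻¹ := by
    intro u
    induction u using Multiset.induction_on with
    | empty => simp
    | cons a u ih =>
      intro hu
      have ha : a ≠ 0 := hu a (Multiset.mem_cons_self a u)
      have hne : ∀ v : Multiset ℂ, (v.map fun a => (1 - C a * X : ℂ[X])).prod ≠ 0 := by
        intro v h0
        have := (prod_coeff v).1
        rw [h0] at this
        simp at this
      have h1 : (1 - C a * X : ℂ[X]) = C (-a) * (X - C a⁻¹) := by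
        rw [mul_sub, ← C_mul, neg_mul, mul_inv_cancel₀ ha, C_neg, C_neg, C_1]
        ring
      rw [Multiset.map_cons, Multiset.prod_cons, Multiset.map_cons,
        roots_mul (mul_ne_zero (by
          intro h0
          have := (prod_coeff {a}).1
          rw [Multiset.map_singleton, Multiset.prod_singleton, h0] at this
          simp at this) (hne u)), ih fun z hz => hu z (Multiset.mem_cons_of_mem hz), h1,
        roots_C_mul _ (neg_ne_zero.2 ha), roots_X_sub_C]
      rfl
  have h1 := key s hs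
  rw [h, key t ht] at h1
  have h2 := congrArg (fun u : Multiset ℂ => u.map fun z => z⁻¹) h1
  simp only [Multiset.map_map, Function.comp_def, inv_inv, Multiset.map_id'] at h2
  exact h2.symm

/-- polynomials with equal values at the points `q^{-s}`, `Re s ≥ 1`, are equal -/
lemma eq_of_eval {P Q : ℂ[X]} {q : ℕ} (hq : q.Prime)
    (h : ∀ s : ℂ, 1 ≤ s.re → P.eval ((q : ℂ) ^ (-s)) = Q.eval ((q : ℂ) ^ (-s))) : P = Q := by
  have hinj : Function.Injective fun n : ℕ => (q : ℂ) ^ (-((n : ℂ) + 1)) := by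
    intro m n hmn
    simp only at hmn
    have h1 := congrArg norm hmn
    rw [Complex.norm_natCast_cpow_of_pos hq.pos, Complex.norm_natCast_cpow_of_pos hq.pos] at h1
    have hq1 : (1 : ℝ) < q := by exact_mod_cast hq.one_lt
    have h2 := (Real.rpow_right_inj (by linarith) (by linarith)).1 h1
    simp at h2
    exact h2
  refine Polynomial.eq_of_infinite_eval_eq P Q ?_
  refine Set.Infinite.mono ?_ (Set.infinite_range_of_injective hinj)
  rintro z ⟨n, rfl⟩
  refine h _ ?_
  simp

end

end Pool.Agent.Y719.EL.M
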