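import Pool.Agent.Y719.EL.Lift

/-!
# Euler products over number fields and their twists
-/

set_option autoImplicit false

namespace Pool.Agent.Y719.EL.N

open Filter Topology MeasureTheory Finset Polynomial NumberField IsDedekindDomain
  Pool.Agent.H921R2.TatePole
open Pool.Agent.Y774.MD (IsEuler fac LQ eabs Concentrated Continues GoodAt GP GP_eval fac_GP
  coeff_zero_GP nm_pos deg_le inv LG)
open Pool.Agent.TH958.BV (LFun localFactor)

variable {K : Type} [Field K] [NumberField K]

/-- Euler factors, normalised, good everywhere, with a mean square bound -/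
structure Typ (B : HeightOneSpectrum (𝓞 K) → ℂ[X]) (N : ℕ) : Prop where
  one : ∀ v, (B v).coeff 0 = 1
  dg : ∀ v, (B v).natDegree ≤ N
  small : ∀ v, ∀ z : ℂ, (B v).eval z = 0 → ((nm v : ℝ))⁻¹ < ‖z‖
  zeros : ∃ θ : ℝ, θ < 1 / 2 ∧ ∀ᶠ v in cofinite, ∀ z : ℂ, (B v).eval z = 0 →
    (nm v : ℝ) ^ (-θ) ≤ ‖z‖
  ms : ∃ C : ℝ, ∀ (x : ℕ) (T : Finset (HeightOneSpectrum (𝓞 K))), (∀ v ∈ T, nm v < x) →
    ∑ v ∈ T, ‖(B v).coeff 1‖ ^ 2 * Real.log (nm v) ≤ C * x

/-- the twist -/
noncomputable def tws (ψ : HeightOneSpectrum (𝓞 K) → ℂ) (B : HeightOneSpectrum (𝓞 K) → ℂ[X])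
    (v : HeightOneSpectrum (𝓞 K)) : ℂ[X] := (B v).comp (C (ψ v) * X)

omit [NumberField K] in
lemma tws_eval (ψ : HeightOneSpectrum (𝓞 K) → ℂ) (B : HeightOneSpectrum (𝓞 K) → ℂ[X])
    (v : HeightOneSpectrum (𝓞 K)) (z : ℂ) : (tws ψ B v).eval z = (B v).eval (ψ v * z) := by
  unfold tws
  rw [eval_comp]
  simp

lemma log_nm_nonneg (v : HeightOneSpectrum (𝓞 K)) : 0 ≤ Real.log (nm v) :=
  Real.log_natCast_nonneg _

variable {B : HeightOneSpectrum (𝓞 K) → ℂ[X]} {N : ℕ}

lemma Typ.twist (h : Typ B N) {ψ : HeightOneSpectrum (𝓞 K) → ℂ} (hψ : ∀ v, ‖ψ v‖ ≤ 1) :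
    Typ (tws ψ B) N := by
  have key : ∀ v (z : ℂ), ‖ψ v * z‖ ≤ ‖z‖ := fun v z => by
    rw [norm_mul]
    exact mul_le_of_le_one_left (norm_nonneg _) (hψ v)
  refine ⟨fun v => ?_, fun v => ?_, fun v z hz => ?_, ?_, ?_⟩
  · rw [coeff_zero_eq_eval_zero, tws_eval, mul_zero, ← coeff_zero_eq_eval_zero]
    exact h.one v
  · unfold tws
    refine natDegree_comp_le.trans ?_
    calc (B v).natDegree * (C (ψ v) * X : ℂ[X]).natDegree ≤ N * 1 :=
          Nat.mul_le_mul (h.dg v) ((natDegree_C_mul_le _ _).trans natDegree_X_le)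
      _ = N := mul_one N
  · rw [tws_eval] at hz
    exact lt_of_lt_of_le (h.small v _ hz) (key v z)
  · obtain ⟨θ, h1, h2⟩ := h.zeros
    refine ⟨θ, h1, ?_⟩
    filter_upwards [h2] with v hv z hz
    rw [tws_eval] at hz
    exact (hv _ hz).trans (key v z)
  · obtain ⟨C₀, hC⟩ := h.ms
    refine ⟨C₀, fun x T hT => le_trans (sum_le_sum fun v _ => ?_) (hC x T hT)⟩
    refine mul_le_mul_of_nonneg_right ?_ (log_nm_nonneg v)
    refine pow_le_pow_left₀ (norm_nonneg _) ?_ 2
    unfold tws
    rw [comp_C_mul_X_coeff, pow_one, norm_mul, mul_comm]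
    exact mul_le_of_le_one_left (norm_nonneg _) (hψ v)

/-- polynomials with constant term one -/
lemma coeff_one_prod {ι : Type} (s : Finset ι) (f : ι → ℂ[X]) (hf : ∀ i ∈ s, (f i).coeff 0 = 1) :
    (∏ i ∈ s, f i).coeff 1 = ∑ i ∈ s, (f i).coeff 1 := by
  classical
  induction s using Finset.induction_on with
  | empty => simp [coeff_one]
  | insert a s ha ih =>
    have h0 : (∏ i ∈ s, f i).coeff 0 = 1 := by
      rw [coeff_zero_prod]
      exact prod_eq_one fun i hi => hf i (mem_insert_of_mem hi)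
    rw [prod_insert ha, sum_insert ha, mul_coeff_one, h0, hf a (mem_insert_self _ _),
      ih fun i hi => hf i (mem_insert_of_mem hi)]
    ring

/-- the factor at a place as a polynomial in the variable of the prime number -/
lemma GP_eq (B : HeightOneSpectrum (𝓞 K) → ℂ[X]) {p : ℕ} (hp : p.Prime) :
    GP B 0 p = ∏ v : {v : HeightOneSpectrum (𝓞 K) // below v = ⟨p, hp⟩},
      expand ℂ (deg v.1) (B v.1) := by
  refine Polynomial.funext fun z => ?_
  rw [GP_eval B 0 hp, eval_prod]
  refine prod_congr rfl fun v _ => ?_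
  rw [expand_eval]
  simp

lemma coeff_one_expand (P : ℂ[X]) {f : ℕ} (hf : 0 < f) :
    (expand ℂ f P).coeff 1 = if f = 1 then P.coeff 1 else 0 := by
  rw [coeff_expand hf]
  by_cases h : f = 1
  · subst h
    simp
  · rw [if_neg h, if_neg]
    intro h1
    exact h (Nat.dvd_one.1 h1)

lemma below_val {p : ℕ} (hp : p.Prime)
    (v : {v : HeightOneSpectrum (𝓞 K) // below v = ⟨p, hp⟩}) :
    nm v.1 = p ^ deg v.1 ∧ 0 < deg v.1 := by
  obtain ⟨h1, h2, -⟩ := nm_eq v.1
  have hb : ((below v.1 : Nat.Primes) : ℕ) = p := by rw [v.2]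
  rw [hb] at h1
  exact ⟨h1, h2⟩

/-- good at all prime numbers -/
lemma Typ.goodAt (h : Typ B N) {q : ℕ} (hq : q.Prime) : GoodAt (GP B 0 q) q := by
  refine Pool.Agent.Y774.MD.goodAt_GP hq fun v _ => ⟨h.one v, fun z hz => ?_⟩
  have h1 := h.small v z hz
  rw [zero_div, zero_add, Real.rpow_neg_one]
  exact h1

/-- Euler products over the rational numbers -/
lemma Typ.isEuler (h : Typ B N) : ∃ D θ C E, IsEuler (GP B 0) D θ C E := by
  classical
  obtain ⟨θ, hθ, h2⟩ := h.zeros
  obtain ⟨C₀, hC⟩ := h.ms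
  obtain ⟨E, hE⟩ := Pool.Agent.Y774.MD.bad_finite (B := B) h2
  have hne : ∀ v, B v ≠ 0 := fun v h0 => by
    have := h.one v
    rw [h0] at this
    simp at this
  set n := Module.finrank ℚ K with hn
  refine ⟨N * n * n, θ, n * C₀, E, fun p _ => Pool.Agent.Y774.MD.GP_ne hne 0 p, hθ,
    fun p hp hpE => ⟨?_, ?_, fun z hz => ?_⟩, fun x => ?_⟩
  · rw [coeff_zero_GP B 0 hp]
    exact prod_eq_one fun v _ => h.one v.1
  · rw [GP_eq B hp]
    refine (natDegree_prod_le _ _).trans ?_
    calc ∑ v : {v : HeightOneSpectrum (𝓞 K) // below v = ⟨p, hp⟩},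
          (expand ℂ (deg v.1) (B v.1)).natDegree
        ≤ ∑ _v : {v : HeightOneSpectrum (𝓞 K) // below v = ⟨p, hp⟩}, N * n := by
          refine sum_le_sum fun v _ => ?_
          rw [natDegree_expand]
          exact Nat.mul_le_mul (h.dg v.1) (deg_le v.1)
      _ = Fintype.card {v : HeightOneSpectrum (𝓞 K) // below v = ⟨p, hp⟩} * (N * n) := by
          rw [sum_const, card_univ, smul_eq_mul]
      _ ≤ n * (N * n) := Nat.mul_le_mul_right _ (fiber_card_le _)
      _ = N * n * n := by ring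
  · rw [GP_eq B hp, eval_prod, prod_eq_zero_iff] at hz
    obtain ⟨v, -, hv⟩ := hz
    rw [expand_eval] at hv
    obtain ⟨e1, e2⟩ := below_val hp v
    have h3 := hE v.1 (by rw [v.2]; exact hpE) _ hv
    rw [e1, norm_pow, Nat.cast_pow, ← Real.rpow_natCast, ← Real.rpow_mul (Nat.cast_nonneg _),
      mul_comm, Real.rpow_mul (Nat.cast_nonneg _), Real.rpow_natCast] at h3
    exact le_of_pow_le_pow_left₀ e2.ne' (norm_nonneg _) h3
  · -- the mean square
    have hfib : ∀ p : ℕ, (hp : p.Prime) → ‖(GP B 0 p).coeff 1‖ ^ 2 ≤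
        n * ∑ v : {v : HeightOneSpectrum (𝓞 K) // below v = ⟨p, hp⟩},
          if deg v.1 = 1 then ‖(B v.1).coeff 1‖ ^ 2 else 0 := by
      intro p hp
      have h3 : (GP B 0 p).coeff 1 = ∑ v : {v : HeightOneSpectrum (𝓞 K) // below v = ⟨p, hp⟩},
          if deg v.1 = 1 then (B v.1).coeff 1 else 0 := by
        rw [GP_eq B hp, coeff_one_prod]
        · refine sum_congr rfl fun v _ => ?_
          exact coeff_one_expand _ (below_val hp v).2
        · intro v _
          rw [coeff_zero_eq_eval_zero, expand_eval, zero_pow (below_val hp v).2.ne',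
            ← coeff_zero_eq_eval_zero]
          exact h.one v.1
      have h4 : ‖(GP B 0 p).coeff 1‖ ≤
          ∑ v : {v : HeightOneSpectrum (𝓞 K) // below v = ⟨p, hp⟩},
            if deg v.1 = 1 then ‖(B v.1).coeff 1‖ else 0 := by
        rw [h3]
        refine (norm_sum_le _ _).trans (sum_le_sum fun v _ => ?_)
        split_ifs <;> simp
      calc ‖(GP B 0 p).coeff 1‖ ^ 2 ≤
          (∑ v : {v : HeightOneSpectrum (𝓞 K) // below v = ⟨p, hp⟩},
            if deg v.1 = 1 then ‖(B v.1).coeff 1‖ else 0) ^ 2 :=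
            pow_le_pow_left₀ (norm_nonneg _) h4 2
        _ ≤ Fintype.card {v : HeightOneSpectrum (𝓞 K) // below v = ⟨p, hp⟩} *
            ∑ v : {v : HeightOneSpectrum (𝓞 K) // below v = ⟨p, hp⟩},
            (if deg v.1 = 1 then ‖(B v.1).coeff 1‖ else 0) ^ 2 := by
            have h5 := sq_sum_le_card_mul_sum_sq (s := (univ : Finset {v :
              HeightOneSpectrum (𝓞 K) // below v = ⟨p, hp⟩}))
              (f := fun v => if deg v.1 = 1 then ‖(B v.1).coeff 1‖ else 0)
            rw [card_univ] at h5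
            exact h5
        _ ≤ n * ∑ v : {v : HeightOneSpectrum (𝓞 K) // below v = ⟨p, hp⟩},
            (if deg v.1 = 1 then ‖(B v.1).coeff 1‖ else 0) ^ 2 := by
            refine mul_le_mul_of_nonneg_right ?_ (sum_nonneg fun v _ => sq_nonneg _)
            exact_mod_cast fiber_card_le _
        _ = _ := by
            congr 1
            refine sum_congr rfl fun v _ => ?_
            split_ifs <;> simp
    -- the finite set of places
    set T : Finset (HeightOneSpectrum (𝓞 K)) := ((range x).filter Nat.Prime).attach.biUnion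
      fun p => ((univ : Finset {v : HeightOneSpectrum (𝓞 K) //
        below v = ⟨p.1, (mem_filter.1 p.2).2⟩}).filter (fun v => deg v.1 = 1)).map
          (Function.Embedding.subtype _) with hTdef
    have hT : ∀ v ∈ T, nm v < x := by
      intro v hv
      rw [hTdef, mem_biUnion] at hv
      obtain ⟨p, -, hp⟩ := hv
      rw [Finset.mem_map] at hp
      obtain ⟨w, hw, rfl⟩ := hp
      rw [mem_filter] at hw
      have h6 := (below_val (mem_filter.1 p.2).2 w).1
      rw [hw.2, pow_one] at h6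
      have h7 := mem_range.1 (mem_filter.1 p.2).1
      show nm w.1 < x
      omega
    have hsum : ∑ p ∈ ((range x).filter Nat.Prime).attach,
        ∑ v : {v : HeightOneSpectrum (𝓞 K) // below v = ⟨p.1, (mem_filter.1 p.2).2⟩},
          (if deg v.1 = 1 then ‖(B v.1).coeff 1‖ ^ 2 * Real.log (nm v.1) else 0) =
        ∑ v ∈ T, ‖(B v).coeff 1‖ ^ 2 * Real.log (nm v) := by
      rw [hTdef, sum_biUnion]
      · refine sum_congr rfl fun p _ => ?_
        rw [sum_map, sum_filter]
        rfl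
      · intro p _ q _ hpq
        rw [Function.onFun, disjoint_left]
        intro v hv hv'
        rw [Finset.mem_map] at hv hv'
        obtain ⟨w, -, hw⟩ := hv
        obtain ⟨w', -, hw'⟩ := hv'
        apply hpq
        have h8 : (w.1 : HeightOneSpectrum (𝓞 K)) = w'.1 := hw.trans hw'.symm
        have h9 := w.2
        rw [h8, w'.2] at h9
        have h10 : q.1 = p.1 := congrArg (fun y : Nat.Primes => (y : ℕ)) h9
        exact Subtype.ext h10.symm
    calc ∑ p ∈ (range x).filter Nat.Prime, ‖(GP B 0 p).coeff 1‖ ^ 2 * Real.log p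
        = ∑ p ∈ ((range x).filter Nat.Prime).attach, ‖(GP B 0 p.1).coeff 1‖ ^ 2 * Real.log p.1 :=
          (sum_attach _ _).symm
      _ ≤ ∑ p ∈ ((range x).filter Nat.Prime).attach, n *
          ∑ v : {v : HeightOneSpectrum (𝓞 K) // below v = ⟨p.1, (mem_filter.1 p.2).2⟩},
            (if deg v.1 = 1 then ‖(B v.1).coeff 1‖ ^ 2 * Real.log (nm v.1) else 0) := by
          refine sum_le_sum fun p _ => ?_
          have hlog : 0 ≤ Real.log (p.1 : ℕ) := Real.log_natCast_nonneg _
          refine (mul_le_mul_of_nonneg_right (hfib p.1 (mem_filter.1 p.2).2) hlog).trans ?_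
          rw [mul_assoc, sum_mul]
          refine le_of_eq ?_
          congr 1
          refine sum_congr rfl fun v _ => ?_
          split_ifs with h6
          · have h7 := (below_val (mem_filter.1 p.2).2 v).1
            rw [h6, pow_one] at h7
            rw [h7]
          · rw [zero_mul]
      _ = n * ∑ v ∈ T, ‖(B v).coeff 1‖ ^ 2 * Real.log (nm v) := by rw [← mul_sum, hsum]
      _ ≤ n * (C₀ * x) := mul_le_mul_of_nonneg_left (hC x T hT) (Nat.cast_nonneg _)
      _ = n * C₀ * x := by ring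

end Pool.Agent.Y719.EL.N
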