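import Pool.Agent.Y719.EL.NF9

/-!
# Integer exponents
-/

set_option autoImplicit false

namespace Pool.Agent.Y719.EL.N

open Filter Topology MeasureTheory Finset Polynomial NumberField IsDedekindDomain
  Pool.Agent.H921R2.TatePole
open Pool.Agent.Y774.MD (IsEuler fac LQ eabs Concentrated Continues GoodAt GP GP_eval fac_GP
  coeff_zero_GP nm_pos deg_le)
open Pool.Agent.TH958.BV (LFun localFactor)

variable {K : Type} [Field K] [NumberField K]

instance infinite_places : Infinite (HeightOneSpectrum (𝓞 K)) := by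
  have h1 : ∀ p : Nat.Primes, ∃ v : HeightOneSpectrum (𝓞 K), (below v : ℕ) = p := by
    intro p
    have hp := p.2
    have hne : Ideal.span {(((p : ℕ) : 𝓞 K))} ≠ ⊤ := by
      intro h
      have h2 := congrArg Ideal.absNorm h
      rw [Ideal.absNorm_span_natCast, Ideal.absNorm_top, RingOfIntegers.rank] at h2
      have h3 : 0 < Module.finrank ℚ K := Module.finrank_pos
      have h4 := Nat.one_lt_pow h3.ne' hp.one_lt
      omega
    obtain ⟨I, hI, hle⟩ := Ideal.exists_le_maximal _ hne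
    have hbot : I ≠ ⊥ := by
      rintro rfl
      rw [le_bot_iff, Ideal.span_singleton_eq_bot] at hle
      exact hp.ne_zero (by exact_mod_cast hle)
    refine ⟨⟨I, hI.isPrime, hbot⟩, ?_⟩
    rw [Pool.Agent.Y774.MD.below_eq_iff hp]
    exact hle (Ideal.mem_span_singleton_self _)
  choose f hf using h1
  refine Infinite.of_injective f fun p q hpq => ?_
  have h2 := hf p
  rw [hpq, hf q] at h2
  exact Subtype.ext h2.symm

lemma GP_tws_eval (ψ : HeightOneSpectrum (𝓞 K) → ℂ) (A : HeightOneSpectrum (𝓞 K) → ℂ[X]) {q : ℕ}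
    (hq : q.Prime) (z : ℂ) : (GP (tws ψ A) 0 q).eval z =
      ∏ v : {v : HeightOneSpectrum (𝓞 K) // below v = ⟨q, hq⟩},
        (A v.1).eval (ψ v.1 * z ^ deg v.1) := by
  rw [GP_eq _ hq, eval_prod]
  refine prod_congr rfl fun v _ => ?_
  rw [expand_eval, tws_eval]

lemma nm_cpow {q : ℕ} (hq : q.Prime) (v : {v : HeightOneSpectrum (𝓞 K) // below v = ⟨q, hq⟩})
    (s : ℂ) : (nm v.1 : ℂ) ^ s = ((q : ℂ) ^ s) ^ deg v.1 := by
  obtain ⟨h3, -⟩ := below_val hq v
  rw [h3, Nat.cast_pow, ← Complex.natCast_cpow_natCast_mul, ← Complex.cpow_nat_mul]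

lemma eval_ne {B : HeightOneSpectrum (𝓞 K) → ℂ[X]} {N : ℕ} (h : Typ B N)
    (v : HeightOneSpectrum (𝓞 K)) {s : ℂ} (hs : 1 ≤ s.re) : (B v).eval ((nm v : ℂ) ^ (-s)) ≠ 0 := by
  intro h0
  have h1 := h.small v _ h0
  rw [Complex.norm_natCast_cpow_of_pos (nm_pos v), ← Real.rpow_neg_one] at h1
  have h2 : (1 : ℝ) ≤ nm v := by linarith [nm_real_two v]
  have h3 : (nm v : ℝ) ^ (-s).re ≤ (nm v : ℝ) ^ (-1 : ℝ) := by
    refine Real.rpow_le_rpow_of_exponent_le h2 ?_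
    rw [Complex.neg_re]
    linarith
  linarith

variable {κ : Type} [Fintype κ] {B₀ : HeightOneSpectrum (𝓞 K) → ℂ[X]}
  {B : κ → HeightOneSpectrum (𝓞 K) → ℂ[X]} {t : κ → ℝ} {N₀ M : ℕ} {n : κ → ℕ} {m : κ → ℤ}

lemma cmp_eq {ψ : HeightOneSpectrum (𝓞 K) → ℂ} (hψ : ∀ v, ‖ψ v‖ ≤ 1) (h₀ : Typ B₀ N₀)
    (h : ∀ k, Typ (B k) (n k)) :
    (fun τ => Real.log (edgeAbs (tws ψ B₀) τ) -
      ∑ k, m k * Real.log (edgeAbs (tws ψ (B k)) (τ + t k))) =
    Pool.Agent.Y774.MD.cmp (GP (tws ψ B₀) 0) (fun k => GP (tws ψ (B k)) 0) m t := by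
  funext τ
  unfold Pool.Agent.Y774.MD.cmp
  rw [(h₀.twist hψ).eabs_eq]
  congr 1
  exact sum_congr rfl fun k _ => by rw [((h k).twist hψ).eabs_eq]

/-- continuation of the twist -/
theorem continues_twist {ψ : HeightOneSpectrum (𝓞 K) → ℂ} (hψ : ∀ v, ‖ψ v‖ ≤ 1) (h₀ : Typ B₀ N₀)
    (h : ∀ k, Typ (B k) (n k)) (hc : Concentrated fun τ => Real.log (edgeAbs (tws ψ B₀) τ) -
      ∑ k, m k * Real.log (edgeAbs (tws ψ (B k)) (τ + t k)))
    (hcont : ∀ k, Continues (LFun (tws ψ (B k))) 1) : Continues (LFun (tws ψ B₀)) 1 := by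
  rw [cmp_eq hψ h₀ h] at hc
  have h1 := Pool.Agent.Y774.MD.continuation (h₀.twist hψ).isEuler
    (fun k => ((h k).twist hψ).isEuler) hc (fun k => by
      obtain ⟨F, hF1, hF2⟩ := hcont k
      exact ⟨F, hF1, fun s hs => by rw [hF2 s hs, ((h k).twist hψ).LFun_eq hs]⟩)
  obtain ⟨F, hF1, hF2⟩ := h1
  exact ⟨F, hF1, fun s hs => by rw [hF2 s hs, (h₀.twist hψ).LFun_eq hs]⟩

/-- **Integer exponents.** -/
theorem factors_int {ι : Type} (h₀ : Typ B₀ N₀) (h : ∀ k, Typ (B k) (n k))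
    {ψ : ι → HeightOneSpectrum (𝓞 K) → ℂ} (hψ : ∀ j v, ‖ψ j v‖ ≤ 1)
    (hM : N₀ + ∑ k, (m k).natAbs * n k ≤ M) (hsep : Sep ψ M)
    (hc : ∀ j, Concentrated fun τ => Real.log (edgeAbs (tws (ψ j) B₀) τ) -
      ∑ k, m k * Real.log (edgeAbs (tws (ψ j) (B k)) (τ + t k)))
    (v : HeightOneSpectrum (𝓞 K)) {s : ℂ} (hs : 1 ≤ s.re) :
    localFactor B₀ v s = ∏ k, localFactor (B k) v (s + t k * Complex.I) ^ m k := by
  classical
  set Bt : κ → HeightOneSpectrum (𝓞 K) → ℂ[X] := fun k v =>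
    (B k v).comp (C ((nm v : ℂ) ^ (-(t k * Complex.I))) * X) with hBt
  have hBte : ∀ k v z, (Bt k v).eval z = (B k v).eval ((nm v : ℂ) ^ (-(t k * Complex.I)) * z) := by
    intro k v z
    simp only [hBt]
    rw [comp_C_mul_X_eval]
  have hBt0 : ∀ k v, (Bt k v).coeff 0 = 1 := by
    intro k v
    rw [coeff_zero_eq_eval_zero, hBte, mul_zero, ← coeff_zero_eq_eval_zero]
    exact (h k).one v
  have hBtd : ∀ k v, (Bt k v).natDegree ≤ n k := by
    intro k v
    simp only [hBt]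
    refine natDegree_comp_le.trans ?_
    calc (B k v).natDegree * (C ((nm v : ℂ) ^ (-(t k * Complex.I))) * X : ℂ[X]).natDegree
        ≤ n k * 1 := Nat.mul_le_mul ((h k).dg v) ((natDegree_C_mul_le _ _).trans natDegree_X_le)
      _ = n k := mul_one _
  set A : HeightOneSpectrum (𝓞 K) → ℂ[X] := fun v => B₀ v * ∏ k, Bt k v ^ (-m k).toNat with hA
  set A' : HeightOneSpectrum (𝓞 K) → ℂ[X] := fun v => ∏ k, Bt k v ^ (m k).toNat with hA'
  have hA0 : ∀ v, (A v).coeff 0 = 1 := by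
    intro v
    simp only [hA]
    rw [mul_coeff_zero, h₀.one v, one_mul, coeff_zero_prod]
    refine prod_eq_one fun k _ => ?_
    rw [coeff_zero_eq_eval_zero, eval_pow, ← coeff_zero_eq_eval_zero, hBt0, one_pow]
  have hA0' : ∀ v, (A' v).coeff 0 = 1 := by
    intro v
    simp only [hA']
    rw [coeff_zero_prod]
    refine prod_eq_one fun k _ => ?_
    rw [coeff_zero_eq_eval_zero, eval_pow, ← coeff_zero_eq_eval_zero, hBt0, one_pow]
  have hAd : ∀ v, (A v).natDegree ≤ M := by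
    intro v
    simp only [hA]
    refine natDegree_mul_le.trans (le_trans (add_le_add (h₀.dg v) ?_) hM)
    refine (natDegree_prod_le _ _).trans (sum_le_sum fun k _ => ?_)
    refine natDegree_pow_le.trans ?_
    exact Nat.mul_le_mul (by omega) (hBtd k v)
  have hAd' : ∀ v, (A' v).natDegree ≤ M := by
    intro v
    simp only [hA']
    refine (natDegree_prod_le _ _).trans (le_trans (sum_le_sum fun k _ => ?_)
      (le_trans (Nat.le_add_left _ N₀) hM))
    refine natDegree_pow_le.trans ?_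
    exact Nat.mul_le_mul (by omega) (hBtd k v)
  have hzp : ∀ (x : ℂ) (a : ℤ), x ≠ 0 → x ^ a * x ^ (-a).toNat = x ^ a.toNat := by
    intro x a hx
    rw [← zpow_natCast, ← zpow_natCast, ← zpow_add₀ hx]
    congr 1
    omega
  -- the identity of the polynomials of the prime numbers
  have hGP : ∀ (q : ℕ) (hq : q.Prime) (j : ι), GP (tws (ψ j) A) 0 q = GP (tws (ψ j) A') 0 q := by
    intro q hq j
    refine Pool.Agent.Y719.EL.M.eq_of_eval hq fun s hs => ?_
    have hc' := hc j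
    rw [cmp_eq (hψ j) h₀ h] at hc'
    have h1 := Pool.Agent.Y774.MD.factors (h₀.twist (hψ j)).isEuler
      (fun k => ((h k).twist (hψ j)).isEuler) hc' hq ((h₀.twist (hψ j)).goodAt hq)
      (fun k => ((h k).twist (hψ j)).goodAt hq) hs
    have hqc : (q : ℂ) ≠ 0 := by exact_mod_cast hq.ne_zero
    have hgne : ∀ {B : HeightOneSpectrum (𝓞 K) → ℂ[X]} {N : ℕ}, Typ B N → ∀ {s : ℂ},
        1 ≤ s.re → (GP (tws (ψ j) B) 0 q).eval ((q : ℂ) ^ (-s)) ≠ 0 := by
      intro B N hB s hs h0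
      have h2 := ((hB.twist (hψ j)).goodAt hq).2 _ h0
      rw [Complex.norm_natCast_cpow_of_pos hq.pos, one_div, ← Real.rpow_neg_one] at h2
      have h3 : (1 : ℝ) ≤ q := by exact_mod_cast hq.one_le
      have h4 : (q : ℝ) ^ (-s).re ≤ (q : ℝ) ^ (-1 : ℝ) := by
        refine Real.rpow_le_rpow_of_exponent_le h3 ?_
        rw [Complex.neg_re]
        linarith
      linarith
    set X₀ := (GP (tws (ψ j) B₀) 0 q).eval ((q : ℂ) ^ (-s)) with hX₀
    set Y : κ → ℂ := fun k => (GP (tws (ψ j) (B k)) 0 q).eval ((q : ℂ) ^ (-(s + t k * Complex.I)))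
      with hY
    have hY0 : ∀ k, Y k ≠ 0 := fun k => hgne (h k) (by simpa using hs)
    have h2 : X₀ = ∏ k, Y k ^ m k := by
      have h3 : X₀⁻¹ = ∏ k, ((Y k)⁻¹) ^ m k := h1
      have h4 := congrArg (fun x => x⁻¹) h3
      simp only [inv_inv] at h4
      rw [h4, ← prod_inv_distrib]
      refine prod_congr rfl fun k _ => ?_
      rw [inv_zpow, inv_inv]
    have hYe : ∀ k, Y k = ∏ v : {v : HeightOneSpectrum (𝓞 K) // below v = ⟨q, hq⟩},
        (Bt k v.1).eval (ψ j v.1 * ((q : ℂ) ^ (-s)) ^ deg v.1) := by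
      intro k
      simp only [hY]
      rw [GP_tws_eval _ _ hq]
      refine prod_congr rfl fun v _ => ?_
      rw [hBte, nm_cpow hq v, neg_add, Complex.cpow_add _ _ hqc, mul_pow]
      congr 1
      ring
    have e1 : (GP (tws (ψ j) A) 0 q).eval ((q : ℂ) ^ (-s)) = X₀ * ∏ k, Y k ^ (-m k).toNat := by
      rw [GP_tws_eval _ _ hq, hX₀, GP_tws_eval _ _ hq]
      simp_rw [hYe, hA, eval_mul, eval_prod, eval_pow]
      rw [prod_mul_distrib]
      congr 1
      rw [Finset.prod_comm]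
      exact prod_congr rfl fun k _ => prod_pow _ _ _
    have e2 : (GP (tws (ψ j) A') 0 q).eval ((q : ℂ) ^ (-s)) = ∏ k, Y k ^ (m k).toNat := by
      rw [GP_tws_eval _ _ hq]
      simp_rw [hYe, hA', eval_prod, eval_pow]
      rw [Finset.prod_comm]
      exact prod_congr rfl fun k _ => prod_pow _ _ _
    rw [e1, e2, h2, ← prod_mul_distrib]
    exact prod_congr rfl fun k _ => hzp _ _ (hY0 k)
  -- the place
  obtain ⟨q, hq, hv⟩ : ∃ (q : ℕ) (hq : q.Prime), below v = ⟨q, hq⟩ :=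
    ⟨(below v : ℕ), (below v).2, rfl⟩
  have hAA : A v = A' v := sep_eq (N := M) hsep hA0 hA0' hAd hAd' hq (fun j => hGP q hq j) ⟨v, hv⟩
  have hn0 : (nm v : ℂ) ≠ 0 := by exact_mod_cast (nm_pos v).ne'
  set x₀ := (B₀ v).eval ((nm v : ℂ) ^ (-s)) with hx₀
  set y : κ → ℂ := fun k => (B k v).eval ((nm v : ℂ) ^ (-(s + t k * Complex.I))) with hy
  have hy0 : ∀ k, y k ≠ 0 := fun k => eval_ne (h k) v (by simpa using hs)
  have hye : ∀ k, (Bt k v).eval ((nm v : ℂ) ^ (-s)) = y k := by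
    intro k
    simp only [hy]
    rw [hBte, neg_add, Complex.cpow_add _ _ hn0, mul_comm]
  have h5 : x₀ * ∏ k, y k ^ (-m k).toNat = ∏ k, y k ^ (m k).toNat := by
    have h6 := congrArg (fun P : ℂ[X] => P.eval ((nm v : ℂ) ^ (-s))) hAA
    simp only [hA, hA', eval_mul, eval_prod, eval_pow, hye] at h6
    exact h6
  have h7 : x₀ = ∏ k, y k ^ m k := by
    have h8 : (∏ k, y k ^ (-m k).toNat) ≠ 0 := prod_ne_zero_iff.2 fun k _ => pow_ne_zero _ (hy0 k)
    refine mul_right_cancel₀ h8 ?_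
    rw [h5, ← prod_mul_distrib]
    exact (prod_congr rfl fun k _ => hzp _ _ (hy0 k)).symm
  show x₀⁻¹ = ∏ k, ((y k)⁻¹) ^ m k
  rw [h7, ← prod_inv_distrib]
  refine prod_congr rfl fun k _ => ?_
  rw [inv_zpow]

end Pool.Agent.Y719.EL.N
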