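import Pool.Agent.Y719.EL.NF

/-!
# Absolute convergence over the places of a number field
-/

set_option autoImplicit false

namespace Pool.Agent.Y719.EL.N

open Filter Topology MeasureTheory Finset Polynomial NumberField IsDedekindDomain
  Pool.Agent.H921R2.TatePole
open Pool.Agent.Y774.MD (IsEuler fac LQ eabs Concentrated Continues GoodAt GP GP_eval fac_GP
  coeff_zero_GP nm_pos deg_le inv LG LG_approx exp_LG norm_inv_le eval_inv one_sub_slit card_inv_le
  coeff_one_eq two_rpow)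
open Pool.Agent.TH958.BV (LFun localFactor)

variable {K : Type} [Field K] [NumberField K]

lemma nm_real_pos (v : HeightOneSpectrum (𝓞 K)) : (0 : ℝ) < nm v := by exact_mod_cast nm_pos v

lemma nm_real_two (v : HeightOneSpectrum (𝓞 K)) : (2 : ℝ) ≤ nm v := by exact_mod_cast two_le_nm v

/-- squares -/
lemma summable_sq {c : HeightOneSpectrum (𝓞 K) → ℝ} {C₀ : ℝ}
    (h : ∀ (x : ℕ) (T : Finset (HeightOneSpectrum (𝓞 K))), (∀ v ∈ T, nm v < x) →
      ∑ v ∈ T, c v ^ 2 * Real.log (nm v) ≤ C₀ * x) {σ : ℝ} (hσ : 1 < σ) :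
    Summable fun v : HeightOneSpectrum (𝓞 K) => c v ^ 2 * (nm v : ℝ) ^ (-σ) := by
  classical
  have hC : 0 ≤ C₀ := by
    have := h 1 ∅ (by simp)
    simpa using this
  set r : ℝ := 2 ^ (1 - σ) with hr
  have hr0 : 0 < r := Real.rpow_pos_of_pos two_pos _
  have hr1 : r < 1 := Real.rpow_lt_one_of_one_lt_of_neg one_lt_two (by linarith)
  have hgeo : Summable fun k : ℕ => r ^ k := summable_geometric_of_lt_one hr0.le hr1
  have hl2 : 0 < Real.log 2 := Real.log_pos one_lt_two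
  have hnn : ∀ v : HeightOneSpectrum (𝓞 K), 0 ≤ c v ^ 2 * (nm v : ℝ) ^ (-σ) := fun v => by
    positivity
  refine summable_of_sum_le (c := 2 * C₀ / Real.log 2 * ∑' k : ℕ, r ^ k) hnn fun F => ?_
  have hmaps : ∀ v ∈ F, Nat.log 2 (nm v) ∈ F.image fun v => Nat.log 2 (nm v) := fun v hv =>
    mem_image_of_mem _ hv
  rw [← sum_fiberwise_of_maps_to hmaps]
  have h1 : ∀ k ∈ F.image (fun v => Nat.log 2 (nm v)),
      ∑ v ∈ F with Nat.log 2 (nm v) = k, c v ^ 2 * (nm v : ℝ) ^ (-σ) ≤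
        2 * C₀ / Real.log 2 * r ^ k := by
    intro k _
    have h2 : ∀ v ∈ F.filter (fun v => Nat.log 2 (nm v) = k), nm v < 2 ^ (k + 1) := by
      intro v hv
      rw [← (mem_filter.1 hv).2]
      exact Nat.lt_pow_succ_log_self one_lt_two _
    have h3 := h (2 ^ (k + 1)) _ h2
    have h4 : ∀ v ∈ F.filter (fun v => Nat.log 2 (nm v) = k), c v ^ 2 * (nm v : ℝ) ^ (-σ) ≤
        (2 : ℝ) ^ (-(σ * k)) / Real.log 2 * (c v ^ 2 * Real.log (nm v)) := by
      intro v hv
      have h5 : (2 : ℝ) ^ k ≤ nm v := by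
        have h6 : 2 ^ Nat.log 2 (nm v) ≤ nm v := Nat.pow_log_le_self 2 (nm_pos v).ne'
        rw [(mem_filter.1 hv).2] at h6
        exact_mod_cast h6
      have h6 : (nm v : ℝ) ^ (-σ) ≤ (2 : ℝ) ^ (-(σ * k)) := by
        calc (nm v : ℝ) ^ (-σ) ≤ ((2 : ℝ) ^ k) ^ (-σ) :=
              Real.rpow_le_rpow_of_nonpos (by positivity) h5 (by linarith)
          _ = (2 : ℝ) ^ (-(σ * k)) := by
              rw [← Real.rpow_natCast, ← Real.rpow_mul two_pos.le]
              congr 1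
              ring
      have h7 : 1 ≤ Real.log (nm v) / Real.log 2 := by
        rw [le_div_iff₀ hl2, one_mul]
        exact Real.log_le_log two_pos (nm_real_two v)
      calc c v ^ 2 * (nm v : ℝ) ^ (-σ) ≤ c v ^ 2 * (2 : ℝ) ^ (-(σ * k)) :=
            mul_le_mul_of_nonneg_left h6 (sq_nonneg _)
        _ = c v ^ 2 * (2 : ℝ) ^ (-(σ * k)) * 1 := (mul_one _).symm
        _ ≤ c v ^ 2 * (2 : ℝ) ^ (-(σ * k)) * (Real.log (nm v) / Real.log 2) :=
            mul_le_mul_of_nonneg_left h7 (by positivity)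
        _ = _ := by ring
    refine (sum_le_sum h4).trans ?_
    rw [← mul_sum]
    have h8 : (2 : ℝ) ^ (-(σ * k)) * 2 ^ k = r ^ k := by
      rw [hr, ← Real.rpow_natCast 2 k, ← Real.rpow_add two_pos, ← Real.rpow_natCast,
        ← Real.rpow_mul two_pos.le]
      congr 1
      ring
    calc (2 : ℝ) ^ (-(σ * k)) / Real.log 2 *
          ∑ v ∈ F with Nat.log 2 (nm v) = k, c v ^ 2 * Real.log (nm v)
        ≤ (2 : ℝ) ^ (-(σ * k)) / Real.log 2 * (C₀ * ((2 ^ (k + 1) : ℕ) : ℝ)) :=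
          mul_le_mul_of_nonneg_left h3 (by positivity)
      _ = 2 * C₀ / Real.log 2 * ((2 : ℝ) ^ (-(σ * k)) * 2 ^ k) := by
          push_cast
          rw [pow_succ]
          ring
      _ = _ := by rw [h8]
  refine (sum_le_sum h1).trans ?_
  rw [← mul_sum]
  exact mul_le_mul_of_nonneg_left (hgeo.sum_le_tsum _ fun k _ => by positivity) (by positivity)

variable {B : HeightOneSpectrum (𝓞 K) → ℂ[X]} {N : ℕ}

/-- absolute convergence -/
lemma Typ.multipliable (h : Typ B N) {s : ℂ} (hs : 1 < s.re) :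
    ∃ a, HasProd (fun v => localFactor B v s) a := by
  classical
  obtain ⟨θ, hθ, h2⟩ := h.zeros
  obtain ⟨C₀, hC⟩ := h.ms
  set G : HeightOneSpectrum (𝓞 K) → Prop := fun v => ∀ z : ℂ, (B v).eval z = 0 →
    (nm v : ℝ) ^ (-θ) ≤ ‖z‖ with hG
  have hfin : {v | ¬ G v}.Finite := h2
  set S := hfin.toFinset with hS
  have hmem : ∀ v, v ∈ S ↔ ¬ G v := fun v => by simp [hS]
  set T : HeightOneSpectrum (𝓞 K) → ℂ := fun v => if G v then LG (inv (B v)) ((nm v : ℂ) ^ (-s))
    else 0 with hT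
  set σ : ℝ := s.re with hσ
  have hu : ∀ v, G v → ∀ a ∈ inv (B v), ‖a * (nm v : ℂ) ^ (-s)‖ ≤ (nm v : ℝ) ^ (θ - σ) := by
    intro v hv a ha
    have hq := nm_real_pos v
    have h1 := norm_inv_le (h.one v) (Real.rpow_pos_of_pos hq _) hv a ha
    have h3 : ((nm v : ℝ) ^ (-θ))⁻¹ = (nm v : ℝ) ^ θ := by
      rw [← Real.rpow_neg (Nat.cast_nonneg _), neg_neg]
    rw [h3] at h1
    rw [norm_mul, Complex.norm_natCast_cpow_of_pos (nm_pos v)]
    calc ‖a‖ * (nm v : ℝ) ^ (-s).re ≤ (nm v : ℝ) ^ θ * (nm v : ℝ) ^ (-s).re :=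
          mul_le_mul_of_nonneg_right h1 (by positivity)
      _ = (nm v : ℝ) ^ (θ - σ) := by
          rw [← Real.rpow_add hq, Complex.neg_re]
          congr 1
  have hle : ∀ v : HeightOneSpectrum (𝓞 K), (nm v : ℝ) ^ (θ - σ) ≤ 3 / 4 := by
    intro v
    have h1 : (1 : ℝ) ≤ nm v := by linarith [nm_real_two v]
    calc (nm v : ℝ) ^ (θ - σ) ≤ (nm v : ℝ) ^ (-(1 / 2) : ℝ) :=
          Real.rpow_le_rpow_of_exponent_le h1 (by linarith)
      _ ≤ (2 : ℝ) ^ (-(1 / 2) : ℝ) :=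
          Real.rpow_le_rpow_of_nonpos two_pos (nm_real_two v) (by norm_num)
      _ ≤ 3 / 4 := two_rpow
  set g : HeightOneSpectrum (𝓞 K) → ℝ := fun v => 2 * N * (nm v : ℝ) ^ (-(2 * σ - 2 * θ)) +
    (‖(B v).coeff 1‖ ^ 2 * (nm v : ℝ) ^ (-σ) + (nm v : ℝ) ^ (-σ)) with hg
  have hgs : Summable g :=
    ((nm_summable (by linarith)).mul_left _).add ((summable_sq hC hs).add (nm_summable hs))
  have hTb : ∀ v, ‖T v‖ ≤ g v := by
    intro v
    have hn0 : 0 ≤ g v := by
      simp only [hg]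
      positivity
    by_cases hv : G v
    · have h3 := LG_approx (hle v) (hu v hv)
      have h4 : T v = LG (inv (B v)) ((nm v : ℂ) ^ (-s)) := by
        simp only [hT]
        rw [if_pos hv]
      have h5 : (inv (B v)).sum = -(B v).coeff 1 := by
        rw [coeff_one_eq (h.one v), neg_neg]
      rw [h5] at h3
      have h6 : ‖-(B v).coeff 1 * (nm v : ℂ) ^ (-s)‖ ≤
          ‖(B v).coeff 1‖ ^ 2 * (nm v : ℝ) ^ (-σ) + (nm v : ℝ) ^ (-σ) := by
        rw [norm_mul, norm_neg, Complex.norm_natCast_cpow_of_pos (nm_pos v), Complex.neg_re,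
          ← hσ]
        have h7 : 0 < (nm v : ℝ) ^ (-σ) := Real.rpow_pos_of_pos (nm_real_pos v) _
        nlinarith [sq_nonneg (‖(B v).coeff 1‖ - 1), norm_nonneg ((B v).coeff 1)]
      have h8 : 2 * (Multiset.card (inv (B v)) : ℝ) * ((nm v : ℝ) ^ (θ - σ)) ^ 2 ≤
          2 * N * (nm v : ℝ) ^ (-(2 * σ - 2 * θ)) := by
        have h9 : (Multiset.card (inv (B v)) : ℝ) ≤ N := by
          exact_mod_cast (card_inv_le _).trans (h.dg v)
        have h10 : ((nm v : ℝ) ^ (θ - σ)) ^ 2 = (nm v : ℝ) ^ (-(2 * σ - 2 * θ)) := by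
          rw [← Real.rpow_natCast, ← Real.rpow_mul (Nat.cast_nonneg _)]
          congr 1
          push_cast
          ring
        rw [h10]
        exact mul_le_mul_of_nonneg_right (by linarith) (by positivity)
      rw [h4]
      calc ‖LG (inv (B v)) ((nm v : ℂ) ^ (-s))‖ =
          ‖(LG (inv (B v)) ((nm v : ℂ) ^ (-s)) - -(B v).coeff 1 * (nm v : ℂ) ^ (-s)) +
            -(B v).coeff 1 * (nm v : ℂ) ^ (-s)‖ := by
            congr 1
            ring
        _ ≤ _ := (norm_add_le _ _).trans (add_le_add (h3.trans h8) h6)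
    · have h4 : T v = 0 := by
        simp only [hT]
        rw [if_neg hv]
      rw [h4, norm_zero]
      exact hn0
  have hTs : Summable T := Summable.of_norm_bounded hgs hTb
  set F : HeightOneSpectrum (𝓞 K) → ℂ := fun v => if v ∈ S then localFactor B v s else 1 with hF
  have h1 : HasProd F (∏ v ∈ S, F v) :=
    hasProd_prod_of_ne_finset_one fun v hv => by simp only [hF]; rw [if_neg hv]
  refine ⟨(∏ v ∈ S, F v) * Complex.exp (∑' v, T v), ?_⟩
  have h2 := h1.mul hTs.hasSum.cexp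
  have h3 : (fun v => localFactor B v s) = fun v => F v * (Complex.exp ∘ T) v := by
    funext v
    simp only [hF, hT, Function.comp_apply]
    by_cases hv : G v
    · rw [if_neg (by rw [hmem]; tauto), if_pos hv, one_mul]
      unfold localFactor
      have h4 : ∀ a ∈ inv (B v), 1 - a * (nm v : ℂ) ^ (-s) ≠ 0 := fun a ha =>
        Complex.slitPlane_ne_zero (one_sub_slit (lt_of_le_of_lt (hu v hv a ha)
          (by linarith [hle v])))
      rw [exp_LG h4, ← eval_inv (h.one v)]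
      rfl
    · rw [if_pos (by rw [hmem]; exact hv), if_neg hv, Complex.exp_zero, mul_one]
  rw [h3]
  exact h2

/-- The two Euler products agree. -/
lemma Typ.LFun_eq (h : Typ B N) {s : ℂ} (hs : 1 < s.re) : LFun B s = LQ (GP B 0) s := by
  obtain ⟨a, ha⟩ := h.multipliable hs
  have h1 : LFun B s = a := ha.tprod_eq
  have h2 := ((Equiv.sigmaFiberEquiv (below (K := K))).hasProd_iff
    (f := fun v => localFactor B v s)).2 ha
  have h3 : HasProd (fun p : Nat.Primes => ∏ v : {v : HeightOneSpectrum (𝓞 K) // below v = p},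
      localFactor B v.1 s) a := by
    refine h2.sigma fun p => ?_
    exact hasProd_fintype _
  have h4 : (fun p : Nat.Primes => fac (GP B 0) p s) = fun p : Nat.Primes =>
      ∏ v : {v : HeightOneSpectrum (𝓞 K) // below v = p}, localFactor B v.1 s := by
    funext p
    rw [fac_GP B 0 p.2 s]
    refine prod_congr rfl fun v _ => ?_
    congr 1
    simp
  rw [h1]
  unfold LQ
  rw [h4]
  exact h3.tprod_eq.symm

/-- the radial limits of the moduli on the edge -/
noncomputable def edgeAbs (B : HeightOneSpectrum (𝓞 K) → ℂ[X]) (τ : ℝ) : ℝ :=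
  limUnder (𝓝[>] (0 : ℝ)) fun σ : ℝ => ‖LFun B (1 + σ + τ * Complex.I)‖

lemma Typ.eabs_eq (h : Typ B N) (τ : ℝ) : edgeAbs B τ = eabs (GP B 0) τ := by
  unfold eabs edgeAbs limUnder
  congr 1
  refine Filter.map_congr ?_
  filter_upwards [self_mem_nhdsWithin] with σ hσ
  have hσ0 : (0 : ℝ) < σ := hσ
  rw [h.LFun_eq]
  simp
  exact hσ0

/-- the boundary values of the modulus -/
lemma Typ.edge (h : Typ B N) : ∀ᵐ τ : ℝ, 0 < edgeAbs B τ ∧
    Tendsto (fun σ : ℝ => ‖LFun B (1 + σ + τ * Complex.I)‖) (𝓝[>] 0) (𝓝 (edgeAbs B τ)) := by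
  obtain ⟨_, _, _, _, h1⟩ := h.isEuler
  filter_upwards [h1.edge'] with τ hτ
  rw [h.eabs_eq]
  refine ⟨hτ.1.1, hτ.1.2.congr' ?_⟩
  filter_upwards [self_mem_nhdsWithin] with σ hσ
  have hσ0 : (0 : ℝ) < σ := hσ
  rw [h.LFun_eq]
  simp
  exact hσ0

end Pool.Agent.Y719.EL.N
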