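import Pool.Agent.Y719.EL.NF2

/-!
# Separation of the places above a prime number by twists
-/

set_option autoImplicit false

namespace Pool.Agent.Y719.EL.N

open Filter Topology MeasureTheory Finset Polynomial NumberField IsDedekindDomain
  Pool.Agent.H921R2.TatePole
open Pool.Agent.Y774.MD (IsEuler fac LQ eabs Concentrated Continues GoodAt GP GP_eval fac_GP
  coeff_zero_GP nm_pos deg_le)
open Pool.Agent.TH958.BV (LFun localFactor)

variable {K : Type} [Field K] [NumberField K]

/-- products of polynomials which agree up to the order `m` -/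
lemma coeff_prod_sub {ι : Type} (s : Finset ι) {f g : ι → ℂ[X]} {m : ℕ} (hm : 0 < m)
    (hf : ∀ i ∈ s, (f i).coeff 0 = 1) (hg : ∀ i ∈ s, (g i).coeff 0 = 1)
    (h : ∀ i ∈ s, ∀ k < m, (f i).coeff k = (g i).coeff k) :
    (∀ k < m, (∏ i ∈ s, f i).coeff k = (∏ i ∈ s, g i).coeff k) ∧
      (∏ i ∈ s, f i).coeff m - (∏ i ∈ s, g i).coeff m =
        ∑ i ∈ s, ((f i).coeff m - (g i).coeff m) := by
  classical
  induction s using Finset.induction_on with
  | empty => simp
  | insert a s ha ih =>
    obtain ⟨h1, h2⟩ := ih (fun i hi => hf i (mem_insert_of_mem hi))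
      (fun i hi => hg i (mem_insert_of_mem hi)) fun i hi => h i (mem_insert_of_mem hi)
    have hP0 : (∏ i ∈ s, f i).coeff 0 = 1 := by
      rw [coeff_zero_prod]
      exact prod_eq_one fun i hi => hf i (mem_insert_of_mem hi)
    have hg0 := hg a (mem_insert_self _ _)
    have ha' := h a (mem_insert_self _ _)
    have d1 : (X : ℂ[X]) ^ m ∣ f a - g a := by
      rw [X_pow_dvd_iff]
      intro k hk
      rw [coeff_sub, ha' k hk, sub_self]
    have d2 : (X : ℂ[X]) ^ m ∣ (∏ i ∈ s, f i) - ∏ i ∈ s, g i := by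
      rw [X_pow_dvd_iff]
      intro k hk
      rw [coeff_sub, h1 k hk, sub_self]
    obtain ⟨u, hu⟩ := d1
    obtain ⟨w, hw⟩ := d2
    have e1 : (∏ i ∈ insert a s, f i) - ∏ i ∈ insert a s, g i =
        X ^ m * (u * (∏ i ∈ s, f i) + w * g a) := by
      rw [prod_insert ha, prod_insert ha, mul_add, ← mul_assoc, ← mul_assoc, ← hu, ← hw]
      ring
    have e2 : ∀ p : ℂ[X], ((X : ℂ[X]) ^ m * p).coeff m = p.coeff 0 := fun p => by
      have := coeff_X_pow_mul p m 0
      rwa [zero_add] at this
    refine ⟨fun k hk => ?_, ?_⟩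
    · have h3 : (X : ℂ[X]) ^ m ∣ (∏ i ∈ insert a s, f i) - ∏ i ∈ insert a s, g i :=
        ⟨_, e1⟩
      have h4 := X_pow_dvd_iff.1 h3 k hk
      rw [coeff_sub] at h4
      exact sub_eq_zero.1 h4
    · rw [← coeff_sub, e1, e2, sum_insert ha, ← h2, ← coeff_sub, ← coeff_sub, hu, hw, e2, e2,
        coeff_add, mul_coeff_zero, mul_coeff_zero, hP0, hg0, mul_one, mul_one]

/-- The functions separate the places above each prime number, up to the degree `N`. -/
def Sep {ι : Type} (ψ : ι → HeightOneSpectrum (𝓞 K) → ℂ) (N : ℕ) : Prop :=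
  ∀ (q : ℕ) (hq : q.Prime) (m : ℕ), 0 < m →
    ∀ c : {v : HeightOneSpectrum (𝓞 K) // below v = ⟨q, hq⟩} → ℂ,
      (∀ v, c v ≠ 0 → deg v.1 ∣ m ∧ m / deg v.1 ≤ N) →
      (∀ j, ∑ v, c v * ψ j v.1 ^ (m / deg v.1) = 0) → ∀ v, c v = 0

variable {A A' : HeightOneSpectrum (𝓞 K) → ℂ[X]} {N : ℕ}

omit [NumberField K] in
lemma coeff_tws (ψ : HeightOneSpectrum (𝓞 K) → ℂ) (A : HeightOneSpectrum (𝓞 K) → ℂ[X])
    (v : HeightOneSpectrum (𝓞 K)) (k : ℕ) : (tws ψ A v).coeff k = (A v).coeff k * ψ v ^ k := by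
  unfold tws
  rw [comp_C_mul_X_coeff]

theorem sep_eq {ι : Type} {ψ : ι → HeightOneSpectrum (𝓞 K) → ℂ} (hs : Sep ψ N)
    (h1 : ∀ v, (A v).coeff 0 = 1) (h1' : ∀ v, (A' v).coeff 0 = 1)
    (hd : ∀ v, (A v).natDegree ≤ N) (hd' : ∀ v, (A' v).natDegree ≤ N) {q : ℕ} (hq : q.Prime)
    (h : ∀ j, GP (tws (ψ j) A) 0 q = GP (tws (ψ j) A') 0 q)
    (v : {v : HeightOneSpectrum (𝓞 K) // below v = ⟨q, hq⟩}) : A v.1 = A' v.1 := by
  have key : ∀ m : ℕ, ∀ v : {v : HeightOneSpectrum (𝓞 K) // below v = ⟨q, hq⟩},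
      (expand ℂ (deg v.1) (A v.1)).coeff m = (expand ℂ (deg v.1) (A' v.1)).coeff m := by
    intro m
    induction m using Nat.strong_induction_on with
    | _ m ih =>
      have hdp : ∀ v : {v : HeightOneSpectrum (𝓞 K) // below v = ⟨q, hq⟩}, 0 < deg v.1 :=
        fun v => (below_val hq v).2
      rcases Nat.eq_zero_or_pos m with hm | hm
      · subst hm
        intro v
        rw [coeff_expand (hdp v), coeff_expand (hdp v), if_pos (dvd_zero _), if_pos (dvd_zero _),
          Nat.zero_div, h1, h1']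
      · -- the differences
        set c : {v : HeightOneSpectrum (𝓞 K) // below v = ⟨q, hq⟩} → ℂ := fun v =>
          (expand ℂ (deg v.1) (A v.1)).coeff m - (expand ℂ (deg v.1) (A' v.1)).coeff m with hc
        have hc0 : ∀ v, c v = 0 := by
          refine hs q hq m hm c (fun v hv => ?_) fun j => ?_
          · by_contra hcon
            apply hv
            simp only [hc]
            rw [coeff_expand (hdp v), coeff_expand (hdp v)]
            by_cases hdv : deg v.1 ∣ m
            · rw [if_pos hdv, if_pos hdv]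
              have h3 : N < m / deg v.1 := by
                by_contra h4
                exact hcon ⟨hdv, not_lt.1 h4⟩
              rw [coeff_eq_zero_of_natDegree_lt (lt_of_le_of_lt (hd v.1) h3),
                coeff_eq_zero_of_natDegree_lt (lt_of_le_of_lt (hd' v.1) h3), sub_zero]
            · rw [if_neg hdv, if_neg hdv, sub_zero]
          · have hcoef : ∀ (A : HeightOneSpectrum (𝓞 K) → ℂ[X])
                (v : {v : HeightOneSpectrum (𝓞 K) // below v = ⟨q, hq⟩}) (k : ℕ),
                (expand ℂ (deg v.1) (tws (ψ j) A v.1)).coeff k =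
                  (expand ℂ (deg v.1) (A v.1)).coeff k * ψ j v.1 ^ (k / deg v.1) := by
              intro A v k
              rw [coeff_expand (hdp v), coeff_expand (hdp v)]
              split_ifs
              · rw [coeff_tws]
              · rw [zero_mul]
            have h5 := coeff_prod_sub (univ : Finset {v : HeightOneSpectrum (𝓞 K) //
                below v = ⟨q, hq⟩}) (f := fun v => expand ℂ (deg v.1) (tws (ψ j) A v.1))
              (g := fun v => expand ℂ (deg v.1) (tws (ψ j) A' v.1)) hm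
              (fun v _ => by
                rw [hcoef, coeff_expand (hdp v), if_pos (dvd_zero _), Nat.zero_div, h1, pow_zero,
                  mul_one])
              (fun v _ => by
                rw [hcoef, coeff_expand (hdp v), if_pos (dvd_zero _), Nat.zero_div, h1', pow_zero,
                  mul_one])
              (fun v _ k hk => by rw [hcoef, hcoef, ih k hk v])
            have h6 := h j
            rw [GP_eq _ hq, GP_eq _ hq] at h6
            rw [h6, sub_self] at h5
            rw [h5.2]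
            refine sum_congr rfl fun v _ => ?_
            rw [hcoef, hcoef, ← sub_mul]
        intro v
        exact sub_eq_zero.1 (hc0 v)
  have hdp : 0 < deg v.1 := (below_val hq v).2
  have h3 : expand ℂ (deg v.1) (A v.1) = expand ℂ (deg v.1) (A' v.1) :=
    Polynomial.ext fun m => key m v
  exact expand_injective hdp h3

/-- The powers of one function. -/
theorem sep_pow {ψ : HeightOneSpectrum (𝓞 K) → ℂ}
    (h : ∀ v w : HeightOneSpectrum (𝓞 K), v ≠ w → ∀ k l : ℕ, 1 ≤ k → k ≤ N → 1 ≤ l → l ≤ N →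
      nm v ^ k = nm w ^ l → ψ v ^ k ≠ ψ w ^ l) :
    Sep (fun (j : Fin (Module.finrank ℚ K)) v => ψ v ^ (j : ℕ)) N := by
  classical
  intro q hq m hm c hc hj
  -- the support
  set s : Finset {v : HeightOneSpectrum (𝓞 K) // below v = ⟨q, hq⟩} :=
    univ.filter fun v => c v ≠ 0 with hs
  set e := s.equivFin with he
  have hcard : s.card ≤ Module.finrank ℚ K :=
    (card_le_univ s).trans (fiber_card_le _)
  have hmem : ∀ v : {v : HeightOneSpectrum (𝓞 K) // below v = ⟨q, hq⟩}, v ∈ s ↔ c v ≠ 0 :=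
    fun v => by simp [hs]
  set x : Fin s.card → ℂ := fun i => ψ (e.symm i).1.1 ^ (m / deg (e.symm i).1.1) with hx
  set y : Fin s.card → ℂ := fun i => c (e.symm i).1 with hy
  have hinj : Function.Injective x := by
    intro i j hij
    by_contra hne
    have hne' : (e.symm i).1.1 ≠ (e.symm j).1.1 := by
      intro h1
      apply hne
      have h2 : (e.symm i).1 = (e.symm j).1 := Subtype.ext h1
      exact e.symm.injective (Subtype.ext h2)
    have hi := hc _ ((hmem _).1 (e.symm i).2)
    have hj' := hc _ ((hmem _).1 (e.symm j).2)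
    obtain ⟨a1, a2⟩ := below_val hq (e.symm i).1
    obtain ⟨b1, b2⟩ := below_val hq (e.symm j).1
    refine h _ _ hne' (m / deg (e.symm i).1.1) (m / deg (e.symm j).1.1)
      (Nat.div_pos (Nat.le_of_dvd hm hi.1) a2) hi.2 (Nat.div_pos (Nat.le_of_dvd hm hj'.1) b2) hj'.2
      ?_ hij
    rw [a1, b1, ← pow_mul, ← pow_mul, Nat.mul_div_cancel' hi.1, Nat.mul_div_cancel' hj'.1]
  have hzero : y = 0 := by
    refine Matrix.eq_zero_of_forall_pow_sum_mul_pow_eq_zero hinj fun i => ?_
    have h1 := hj ⟨i.1, lt_of_lt_of_le i.2 hcard⟩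
    have h2 : ∑ v, c v * (ψ v.1 ^ (i : ℕ)) ^ (m / deg v.1) =
        ∑ v ∈ s, c v * (ψ v.1 ^ (i : ℕ)) ^ (m / deg v.1) := by
      refine (sum_subset (subset_univ s) fun v _ hv => ?_).symm
      rw [hmem, not_not] at hv
      rw [hv, zero_mul]
    have h3 : ∑ v ∈ s, c v * (ψ v.1 ^ (i : ℕ)) ^ (m / deg v.1) =
        ∑ k : Fin s.card, y k * x k ^ (i : ℕ) := by
      rw [← sum_coe_sort s, ← e.symm.sum_comp]
      refine sum_congr rfl fun k _ => ?_
      simp only [hx, hy]
      rw [← pow_mul, ← pow_mul, mul_comm (i : ℕ)]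
    rw [← h3, ← h2]
    exact h1
  intro v
  by_contra hv
  have h1 := congrFun hzero (e ⟨v, (hmem v).2 hv⟩)
  simp only [hy, Equiv.symm_apply_apply, Pi.zero_apply] at h1
  exact hv h1

end Pool.Agent.Y719.EL.N
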