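import Pool.Agent.Y719.EL.NF3

/-!
# The moduli on the edge of finitely many twists determine all Euler factors
-/

set_option autoImplicit false

namespace Pool.Agent.Y719.EL.N

open Filter Topology MeasureTheory Finset Polynomial NumberField IsDedekindDomain
  Pool.Agent.H921R2.TatePole
open Pool.Agent.Y774.MD (IsEuler fac LQ eabs Concentrated Continues GoodAt GP GP_eval fac_GP
  coeff_zero_GP nm_pos deg_le)
open Pool.Agent.TH958.BV (LFun localFactor)

variable {K : Type} [Field K] [NumberField K]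

/-- the Euler factors of the product of the shifted Euler products -/
noncomputable def shp {κ : Type} [Fintype κ] (B : κ → HeightOneSpectrum (𝓞 K) → ℂ[X]) (t : κ → ℝ)
    (v : HeightOneSpectrum (𝓞 K)) : ℂ[X] :=
  ∏ k, (B k v).comp (C ((nm v : ℂ) ^ (-(t k * Complex.I))) * X)

variable {κ : Type} [Fintype κ] {B₀ : HeightOneSpectrum (𝓞 K) → ℂ[X]}
  {B : κ → HeightOneSpectrum (𝓞 K) → ℂ[X]} {t : κ → ℝ}

omit [NumberField K] in
lemma comp_C_mul_X_eval (P : ℂ[X]) (a z : ℂ) : (P.comp (C a * X)).eval z = P.eval (a * z) := by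
  rw [eval_comp]
  simp

lemma GP_shp (ψ : HeightOneSpectrum (𝓞 K) → ℂ) {p : ℕ} (hp : p.Prime) :
    GP (tws ψ (shp B t)) 0 p =
      Pool.Agent.Y719.EL.M.tw (fun k => GP (tws ψ (B k)) 0) t p := by
  refine Polynomial.funext fun z => ?_
  have hpc : (p : ℂ) ≠ 0 := by exact_mod_cast hp.ne_zero
  unfold Pool.Agent.Y719.EL.M.tw
  rw [GP_eq _ hp, eval_prod, eval_prod]
  have h1 : ∀ k, ((GP (tws ψ (B k)) 0 p).comp (C ((p : ℂ) ^ (-(t k * Complex.I))) * X)).eval z =
      ∏ v : {v : HeightOneSpectrum (𝓞 K) // below v = ⟨p, hp⟩},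
        (B k v.1).eval (ψ v.1 * ((p : ℂ) ^ (-(t k * Complex.I)) * z) ^ deg v.1) := by
    intro k
    rw [comp_C_mul_X_eval, GP_eq _ hp, eval_prod]
    refine prod_congr rfl fun v _ => ?_
    rw [expand_eval, tws_eval]
  rw [prod_congr rfl fun k _ => h1 k, Finset.prod_comm]
  refine prod_congr rfl fun v _ => ?_
  rw [expand_eval, tws_eval]
  unfold shp
  rw [eval_prod]
  refine prod_congr rfl fun k _ => ?_
  rw [comp_C_mul_X_eval]
  congr 1
  have h2 : (nm v.1 : ℂ) ^ (-(t k * Complex.I)) = ((p : ℂ) ^ (-(t k * Complex.I))) ^ deg v.1 := by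
    obtain ⟨h3, -⟩ := below_val hp v
    rw [h3, Nat.cast_pow, ← Complex.natCast_cpow_natCast_mul, ← Complex.cpow_nat_mul]
  rw [h2, mul_pow]
  ring

variable {N₀ M : ℕ} {n : κ → ℕ}

lemma shp_coeff (h : ∀ k, Typ (B k) (n k)) (v : HeightOneSpectrum (𝓞 K)) :
    (shp B t v).coeff 0 = 1 := by
  unfold shp
  rw [coeff_zero_prod]
  refine prod_eq_one fun k _ => ?_
  rw [coeff_zero_eq_eval_zero, comp_C_mul_X_eval, mul_zero, ← coeff_zero_eq_eval_zero]
  exact (h k).one v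

lemma shp_deg (h : ∀ k, Typ (B k) (n k)) (hM : ∑ k, n k ≤ M) (v : HeightOneSpectrum (𝓞 K)) :
    (shp B t v).natDegree ≤ M := by
  unfold shp
  refine (natDegree_prod_le _ _).trans (le_trans (sum_le_sum fun k _ => ?_) hM)
  refine natDegree_comp_le.trans ?_
  calc (B k v).natDegree * (C ((nm v : ℂ) ^ (-(t k * Complex.I))) * X : ℂ[X]).natDegree
      ≤ n k * 1 := Nat.mul_le_mul ((h k).dg v) ((natDegree_C_mul_le _ _).trans natDegree_X_le)
    _ = n k := mul_one _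

/-- **Main theorem.** -/
theorem main {ι : Type} (h₀ : Typ B₀ N₀) (h : ∀ k, Typ (B k) (n k)) (t : κ → ℝ)
    {ψ : ι → HeightOneSpectrum (𝓞 K) → ℂ} (hψ : ∀ j v, ‖ψ j v‖ ≤ 1) (hM₀ : N₀ ≤ M)
    (hM : ∑ k, n k ≤ M) (hsep : Sep ψ M) : List.TFAE
      [∀ v, B₀ v = shp B t v,
       ∀ j, ∀ᵐ τ : ℝ, edgeAbs (tws (ψ j) B₀) τ = ∏ k, edgeAbs (tws (ψ j) (B k)) (τ + t k),
       ∀ j, Concentrated fun τ => Real.log (edgeAbs (tws (ψ j) B₀) τ) -
          ∑ k, Real.log (edgeAbs (tws (ψ j) (B k)) (τ + t k))] := by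
  have e₀ : ∀ j τ, edgeAbs (tws (ψ j) B₀) τ = eabs (GP (tws (ψ j) B₀) 0) τ := fun j τ =>
    (h₀.twist (hψ j)).eabs_eq τ
  have e : ∀ j k τ, edgeAbs (tws (ψ j) (B k)) τ = eabs (GP (tws (ψ j) (B k)) 0) τ := fun j k τ =>
    ((h k).twist (hψ j)).eabs_eq τ
  tfae_have 1 → 2 := by
    intro h1 j
    have h2 : tws (ψ j) B₀ = tws (ψ j) (shp B t) := by
      funext v
      unfold tws
      rw [h1 v]
    have h3 := Pool.Agent.Y719.EL.M.eabs_tw (P₀ := GP (tws (ψ j) B₀) 0)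
      (P := fun k => GP (tws (ψ j) (B k)) 0) (t := t)
      (fun p hp => by rw [h2]; exact GP_shp (ψ j) hp)
      (fun k => ((h k).twist (hψ j)).isEuler)
    filter_upwards [h3] with τ hτ
    rw [e₀, hτ]
    exact prod_congr rfl fun k _ => (e j k _).symm
  tfae_have 2 → 3 := by
    intro h1 j
    have h2 := Pool.Agent.Y719.EL.M.concentrated_of_eq (P₀ := GP (tws (ψ j) B₀) 0)
      (P := fun k => GP (tws (ψ j) (B k)) 0) (t := t)
      (fun k => ((h k).twist (hψ j)).isEuler) (by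
        filter_upwards [h1 j] with τ hτ
        rw [← e₀, hτ]
        exact prod_congr rfl fun k _ => e j k _)
    refine cast (congrArg Concentrated ?_) h2
    funext τ
    rw [e₀]
    congr 1
    exact sum_congr rfl fun k _ => by rw [e]
  tfae_have 3 → 1 := by
    intro h1 v
    obtain ⟨q, hq, hv⟩ : ∃ (q : ℕ) (hq : q.Prime), below v = ⟨q, hq⟩ :=
      ⟨(below v : ℕ), (below v).2, rfl⟩
    refine sep_eq (N := M) hsep h₀.one (shp_coeff h) (fun v => (h₀.dg v).trans hM₀)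
      (shp_deg h hM) hq (fun j => ?_) ⟨v, hv⟩
    rw [GP_shp (ψ j) hq]
    refine Pool.Agent.Y719.EL.M.eq_tw (P₀ := GP (tws (ψ j) B₀) 0)
      (P := fun k => GP (tws (ψ j) (B k)) 0) (t := t) (h₀.twist (hψ j)).isEuler
      (fun k => ((h k).twist (hψ j)).isEuler) ?_ hq ((h₀.twist (hψ j)).goodAt hq)
      (fun k => ((h k).twist (hψ j)).goodAt hq)
    refine cast (congrArg Concentrated ?_) (h1 j)
    funext τ
    rw [e₀]
    congr 1
    exact sum_congr rfl fun k _ => by rw [e]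
  tfae_finish

end Pool.Agent.Y719.EL.N
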