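import Pool.Agent.Y719.EL.NF4
import Mathlib.NumberTheory.NumberField.InfinitePlace.TotallyRealComplex

/-!
# Groessencharacters of imaginary quadratic fields separate places
-/

set_option autoImplicit false

namespace Pool.Agent.Y719.EL.N

open NumberField IsDedekindDomain Pool.Agent.H921R2.TatePole
open scoped nonZeroDivisors

variable {K : Type} [Field K] [NumberField K]

/-- the norm in an imaginary quadratic field -/
lemma norm_sq_embedding [IsTotallyComplex K] (hK : Module.finrank ℚ K = 2) (σ : K →+* ℂ)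
    (a : 𝓞 K) : ‖σ a‖ ^ 2 = (Ideal.absNorm (Ideal.span {a}) : ℝ) := by
  classical
  have hr : InfinitePlace.nrRealPlaces K = 0 :=
    NumberField.nrRealPlaces_eq_zero_iff.2 inferInstance
  have hcard := InfinitePlace.card_add_two_mul_card_eq_rank K
  rw [hK, hr, zero_add] at hcard
  have hc : InfinitePlace.nrComplexPlaces K = 1 := by omega
  have hone : Fintype.card (InfinitePlace K) = 1 := by
    rw [InfinitePlace.card_eq_nrRealPlaces_add_nrComplexPlaces, hr, hc]
  obtain ⟨w₀, hw₀⟩ := Fintype.card_eq_one_iff.1 hone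
  have hw : InfinitePlace.mk σ = w₀ := hw₀ _
  have huniv : (Finset.univ : Finset (InfinitePlace K)) = {w₀} := by
    ext w
    simp [hw₀ w]
  have h1 := InfinitePlace.prod_eq_abs_norm (a : K)
  rw [huniv, Finset.prod_singleton, ← hw] at h1
  have hmult : (InfinitePlace.mk σ).mult = 2 :=
    InfinitePlace.mult_isComplex ⟨InfinitePlace.mk σ, IsTotallyComplex.isComplex _⟩
  rw [hmult, InfinitePlace.apply] at h1
  rw [h1, Ideal.absNorm_span_singleton]
  have h2 : Algebra.norm ℚ (a : K) = ((Algebra.norm ℤ a : ℤ) : ℚ) := by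
    rw [← Algebra.coe_norm_int]
  rw [h2, Nat.cast_natAbs]
  push_cast
  rfl

/-- a power of the ideal of a place is principal -/
lemma exists_generator (v : HeightOneSpectrum (𝓞 K)) : ∃ a : 𝓞 K, a ≠ 0 ∧
    v.asIdeal ^ Fintype.card (ClassGroup (𝓞 K)) = Ideal.span {a} := by
  have hmem : v.asIdeal ∈ (Ideal (𝓞 K))⁰ := mem_nonZeroDivisors_of_ne_zero v.ne_bot
  have h1 : (v.asIdeal ^ Fintype.card (ClassGroup (𝓞 K))).IsPrincipal := by
    rw [← ClassGroup.mk0_eq_one_iff (pow_mem hmem _)]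
    have h2 : (⟨v.asIdeal ^ Fintype.card (ClassGroup (𝓞 K)), pow_mem hmem _⟩ : (Ideal (𝓞 K))⁰) =
        ⟨v.asIdeal, hmem⟩ ^ Fintype.card (ClassGroup (𝓞 K)) := rfl
    rw [h2, map_pow, pow_card_eq_one]
  obtain ⟨a, ha⟩ := (Submodule.isPrincipal_iff _).1 h1
  refine ⟨a, ?_, ha⟩
  rintro rfl
  have h3 : v.asIdeal ^ Fintype.card (ClassGroup (𝓞 K)) = ⊥ := by
    rw [ha]
    exact Ideal.span_singleton_eq_bot.2 rfl
  exact pow_ne_zero _ v.ne_bot h3

/-- powers of two different places are different -/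
lemma place_pow_ne {v w : HeightOneSpectrum (𝓞 K)} (h : v ≠ w) {k l : ℕ} (hk : 0 < k)
    (hl : 0 < l) : v.asIdeal ^ k ≠ w.asIdeal ^ l := by
  intro h1
  apply h
  have h2 : w.asIdeal ^ l ≤ v.asIdeal := by
    rw [← h1]
    exact Ideal.pow_le_self hk.ne'
  have h3 : w.asIdeal ≤ v.asIdeal := (v.isPrime.pow_le_iff hl.ne').1 h2
  have h4 : w.asIdeal = v.asIdeal :=
    (w.isPrime.isMaximal w.ne_bot).eq_of_le v.isPrime.ne_top h3
  exact HeightOneSpectrum.ext h4.symm

/-- the embedding divided by its absolute value -/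
noncomputable def arg1 (σ : K →+* ℂ) (a : 𝓞 K) : ℂ := σ a / (‖σ a‖ : ℂ)

omit [NumberField K] in
lemma norm_arg1 (σ : K →+* ℂ) {a : 𝓞 K} (ha : a ≠ 0) : ‖arg1 σ a‖ = 1 := by
  unfold arg1
  have h1 : σ a ≠ 0 := by
    rw [Ne, map_eq_zero]
    exact_mod_cast ha
  rw [norm_div, Complex.norm_real, norm_norm, div_self (norm_ne_zero_iff.2 h1)]

variable {ψ : Ideal (𝓞 K) →* ℂ} {σ : K →+* ℂ} {m : ℤ}

/-- an unramified Groessencharacter has absolute value one -/
lemma groessen_norm (hψ : ∀ a : 𝓞 K, a ≠ 0 → ψ (Ideal.span {a}) = arg1 σ a ^ m)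
    (v : HeightOneSpectrum (𝓞 K)) : ‖ψ v.asIdeal‖ = 1 := by
  obtain ⟨a, ha, h1⟩ := exists_generator v
  have h2 : ψ v.asIdeal ^ Fintype.card (ClassGroup (𝓞 K)) = arg1 σ a ^ m := by
    rw [← map_pow, h1, hψ a ha]
  have h3 := congrArg norm h2
  rw [norm_pow, norm_zpow, norm_arg1 σ ha, one_zpow] at h3
  exact (pow_eq_one_iff_of_nonneg (norm_nonneg _) Fintype.card_ne_zero).1 h3

/-- it separates the places -/
theorem groessen_sep [IsTotallyComplex K] (hK : Module.finrank ℚ K = 2) (hm : m ≠ 0)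
    (hψ : ∀ a : 𝓞 K, a ≠ 0 → ψ (Ideal.span {a}) = arg1 σ a ^ m)
    {v w : HeightOneSpectrum (𝓞 K)} (hvw : v ≠ w) {k l : ℕ} (hk : 0 < k) (hl : 0 < l)
    (hn : nm v ^ k = nm w ^ l) : ψ v.asIdeal ^ k ≠ ψ w.asIdeal ^ l := by
  intro hkl
  obtain ⟨a, ha, ha1⟩ := exists_generator v
  obtain ⟨b, hb, hb1⟩ := exists_generator w
  set h := Fintype.card (ClassGroup (𝓞 K)) with hh
  have hh0 : 0 < h := Fintype.card_pos
  have hσa : σ a ≠ 0 := by rw [Ne, map_eq_zero]; exact_mod_cast ha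
  have hσb : σ b ≠ 0 := by rw [Ne, map_eq_zero]; exact_mod_cast hb
  -- the arguments
  have h1 : (arg1 σ a ^ k) ^ m = (arg1 σ b ^ l) ^ m := by
    rw [← zpow_natCast (arg1 σ a), ← zpow_natCast (arg1 σ b), zpow_comm, zpow_comm (arg1 σ b),
      ← hψ a ha, ← hψ b hb, ← ha1, ← hb1, map_pow, map_pow, zpow_natCast, zpow_natCast,
      ← pow_mul, ← pow_mul, mul_comm h, mul_comm h, pow_mul, pow_mul, hkl]
  -- the absolute values
  have h2 : ‖σ a‖ ^ k = ‖σ b‖ ^ l := by
    have e1 := norm_sq_embedding hK σ a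
    have e2 := norm_sq_embedding hK σ b
    rw [← ha1, map_pow] at e1
    rw [← hb1, map_pow] at e2
    have e3 : (‖σ a‖ ^ k) ^ 2 = (‖σ b‖ ^ l) ^ 2 := by
      rw [← pow_mul, mul_comm k 2, pow_mul, e1, ← pow_mul ‖σ b‖, mul_comm l 2, pow_mul, e2]
      have e4 : (nm v ^ k) ^ h = (nm w ^ l) ^ h := by rw [hn]
      have e5 : ((Ideal.absNorm v.asIdeal ^ h) ^ k : ℕ) = (Ideal.absNorm w.asIdeal ^ h) ^ l := by
        rw [← pow_mul, ← pow_mul, mul_comm h k, mul_comm h l, pow_mul, pow_mul]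
        exact e4
      exact_mod_cast e5
    exact (pow_left_inj₀ (by positivity) (by positivity) two_ne_zero).1 e3
  -- the elements
  have h3 : (σ a ^ k) ^ m = (σ b ^ l) ^ m := by
    have e1 : σ a ^ k = arg1 σ a ^ k * ((‖σ a‖ ^ k : ℝ) : ℂ) := by
      unfold arg1
      rw [div_pow]
      push_cast
      rw [div_mul_cancel₀]
      exact pow_ne_zero _ (by exact_mod_cast norm_ne_zero_iff.2 hσa)
    have e2 : σ b ^ l = arg1 σ b ^ l * ((‖σ b‖ ^ l : ℝ) : ℂ) := by
      unfold arg1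
      rw [div_pow]
      push_cast
      rw [div_mul_cancel₀]
      exact pow_ne_zero _ (by exact_mod_cast norm_ne_zero_iff.2 hσb)
    rw [e1, e2, mul_zpow, mul_zpow, h1, h2]
  have h4 : (σ a ^ k) ^ m.natAbs = (σ b ^ l) ^ m.natAbs := by
    rcases Int.natAbs_eq m with hm' | hm'
    · rw [hm', zpow_natCast, zpow_natCast] at h3
      exact h3
    · rw [hm', zpow_neg, zpow_neg, zpow_natCast, zpow_natCast] at h3
      exact inv_injective h3
  have h5 : a ^ (k * m.natAbs) = b ^ (l * m.natAbs) := by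
    rw [← pow_mul, ← pow_mul] at h4
    have e1 : σ ((a ^ (k * m.natAbs) : 𝓞 K) : K) = σ ((b ^ (l * m.natAbs) : 𝓞 K) : K) := by
      push_cast
      rw [map_pow, map_pow]
      exact h4
    exact_mod_cast σ.injective e1
  have hm0 : 0 < m.natAbs := Int.natAbs_pos.2 hm
  refine place_pow_ne hvw (k := h * (k * m.natAbs)) (l := h * (l * m.natAbs))
    (by positivity) (by positivity) ?_
  rw [pow_mul, ha1, pow_mul w.asIdeal, hb1, Ideal.span_singleton_pow, Ideal.span_singleton_pow, h5]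

end Pool.Agent.Y719.EL.N
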