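import Pool.Agent.Y719.EL.NF5

/-!
# Existence of unramified Groessencharacters of imaginary quadratic fields
-/

set_option autoImplicit false

namespace Pool.Agent.Y719.EL.N

open NumberField IsDedekindDomain Pool.Agent.H921R2.TatePole
open scoped nonZeroDivisors

variable {K : Type} [Field K] [NumberField K]

lemma exists_gen (I : Ideal (𝓞 K)) : ∃ a : 𝓞 K,
    I ^ Fintype.card (ClassGroup (𝓞 K)) = Ideal.span {a} := by
  by_cases hI : I = ⊥
  · refine ⟨0, ?_⟩
    rw [hI, Ideal.span_singleton_eq_bot.2 rfl]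
    exact zero_pow Fintype.card_ne_zero
  · have hmem : I ∈ (Ideal (𝓞 K))⁰ := mem_nonZeroDivisors_of_ne_zero hI
    have h1 : (I ^ Fintype.card (ClassGroup (𝓞 K))).IsPrincipal := by
      rw [← ClassGroup.mk0_eq_one_iff (pow_mem hmem _)]
      have h2 : (⟨I ^ Fintype.card (ClassGroup (𝓞 K)), pow_mem hmem _⟩ : (Ideal (𝓞 K))⁰) =
          ⟨I, hmem⟩ ^ Fintype.card (ClassGroup (𝓞 K)) := rfl
      rw [h2, map_pow, pow_card_eq_one]
    exact (Submodule.isPrincipal_iff _).1 h1

/-- the generator -/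
noncomputable def gen (I : Ideal (𝓞 K)) : 𝓞 K := (exists_gen I).choose

lemma gen_spec (I : Ideal (𝓞 K)) :
    I ^ Fintype.card (ClassGroup (𝓞 K)) = Ideal.span {gen I} := (exists_gen I).choose_spec

omit [NumberField K] in
lemma arg1_mul (σ : K →+* ℂ) (a b : 𝓞 K) : arg1 σ (a * b) = arg1 σ a * arg1 σ b := by
  unfold arg1
  push_cast
  rw [map_mul, norm_mul]
  push_cast
  rw [mul_div_mul_comm]

omit [NumberField K] in
lemma arg1_one (σ : K →+* ℂ) : arg1 σ 1 = 1 := by
  unfold arg1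
  simp

/-- the units of an imaginary quadratic field -/
lemma arg1_unit [IsTotallyComplex K] (hK : Module.finrank ℚ K = 2) (σ : K →+* ℂ) (u : (𝓞 K)ˣ) :
    arg1 σ (u : 𝓞 K) ^ Units.torsionOrder K = 1 := by
  classical
  have h1 : u ∈ Units.torsion K := by
    rw [Units.mem_torsion]
    intro w
    have h2 := norm_sq_embedding hK w.embedding (u : 𝓞 K)
    rw [Ideal.span_singleton_eq_top.2 u.isUnit, Ideal.absNorm_top, Nat.cast_one] at h2
    have h3 : w (u : 𝓞 K) = ‖w.embedding ((u : 𝓞 K) : K)‖ := (w.norm_embedding_eq _).symm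
    rw [h3]
    exact (pow_eq_one_iff_of_nonneg (norm_nonneg _) two_ne_zero).1 h2
  have h4 : u ^ Units.torsionOrder K = 1 := by
    have h5 : (⟨u, h1⟩ : Units.torsion K) ^ Nat.card (Units.torsion K) = 1 := pow_card_eq_one'
    have h6 := congrArg (fun x : Units.torsion K => (x : (𝓞 K)ˣ)) h5
    exact h6
  have h7 : ((u : 𝓞 K)) ^ Units.torsionOrder K = 1 := by
    rw [← Units.val_pow_eq_pow_val, h4, Units.val_one]
  have h8 : ∀ n : ℕ, arg1 σ ((u : 𝓞 K)) ^ n = arg1 σ ((u : 𝓞 K) ^ n) := by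
    intro n
    induction n with
    | zero => rw [pow_zero, pow_zero, arg1_one]
    | succ n ih => rw [pow_succ, pow_succ, arg1_mul, ih]
  rw [h8, h7, arg1_one]

/-- Groessencharacters exist. -/
theorem exists_groessen [IsTotallyComplex K] (hK : Module.finrank ℚ K = 2) (σ : K →+* ℂ) :
    ∃ (m : ℤ) (ψ : Ideal (𝓞 K) →* ℂ), m ≠ 0 ∧
      ∀ a : 𝓞 K, a ≠ 0 → ψ (Ideal.span {a}) = arg1 σ a ^ m := by
  classical
  set h := Fintype.card (ClassGroup (𝓞 K)) with hh
  set t := Units.torsionOrder K with ht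
  have hh0 : h ≠ 0 := Fintype.card_ne_zero
  have ht0 : t ≠ 0 := Units.torsionOrder_ne_zero K
  have key : ∀ a b : 𝓞 K, Ideal.span {a} = Ideal.span {b} → arg1 σ a ^ t = arg1 σ b ^ t := by
    intro a b hab
    obtain ⟨u, hu⟩ := Ideal.span_singleton_eq_span_singleton.1 hab
    rw [← hu, arg1_mul, mul_pow, arg1_unit hK σ u, mul_one]
  have hone : arg1 σ (gen (1 : Ideal (𝓞 K))) ^ t = 1 := by
    rw [key (gen 1) 1, arg1_one, one_pow]
    rw [← gen_spec, one_pow, Ideal.span_singleton_one]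
    exact Ideal.one_eq_top
  have hmul : ∀ I J : Ideal (𝓞 K), arg1 σ (gen (I * J)) ^ t =
      arg1 σ (gen I) ^ t * arg1 σ (gen J) ^ t := by
    intro I J
    rw [← mul_pow, ← arg1_mul]
    refine key _ _ ?_
    rw [← gen_spec, ← Ideal.span_singleton_mul_span_singleton, ← gen_spec, ← gen_spec, mul_pow]
  refine ⟨(h * t : ℕ), ⟨⟨fun I => arg1 σ (gen I) ^ t, hone⟩, hmul⟩, ?_, fun a ha => ?_⟩
  · exact_mod_cast mul_ne_zero hh0 ht0
  · show arg1 σ (gen (Ideal.span {a})) ^ t = _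
    have h8 : ∀ n : ℕ, arg1 σ (a ^ n) = arg1 σ a ^ n := by
      intro n
      induction n with
      | zero => rw [pow_zero, pow_zero, arg1_one]
      | succ n ih => rw [pow_succ, pow_succ, arg1_mul, ih]
    rw [key (gen (Ideal.span {a})) (a ^ h), h8, ← pow_mul, zpow_natCast]
    rw [← gen_spec, Ideal.span_singleton_pow]

end Pool.Agent.Y719.EL.N
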