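import Pool.Agent.Y719.EL.NF6
import Pool.Agent.Y774.FP.EC

/-!
# Tempered Euler products, weights, elliptic curves
-/

set_option autoImplicit false

namespace Pool.Agent.Y719.EL.N

open Filter Topology MeasureTheory Finset Polynomial NumberField IsDedekindDomain
  Pool.Agent.H921R2.TatePole
open Pool.Agent.Y774.MD (Concentrated nm_pos deg_le)
open Pool.Agent.TH958.BV (LFun localFactor)

variable {K : Type} [Field K] [NumberField K]

/-- Chebyshev's bound -/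
lemma sum_log_nm (x : ℕ) (T : Finset (HeightOneSpectrum (𝓞 K))) (hT : ∀ v ∈ T, nm v < x) :
    ∑ v ∈ T, Real.log (nm v) ≤
      (Module.finrank ℚ K : ℝ) ^ 2 * Real.log 4 * x := by
  classical
  set n := Module.finrank ℚ K with hn
  have h1 : ∀ v ∈ T, Real.log (nm v) ≤ n * Real.log (below v : ℕ) := by
    intro v _
    obtain ⟨e1, _, _⟩ := nm_eq v
    rw [e1, Nat.cast_pow, Real.log_pow]
    exact mul_le_mul_of_nonneg_right (by exact_mod_cast deg_le v) (Real.log_natCast_nonneg _)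
  have hmaps : ∀ v ∈ T, (below v : ℕ) ∈ (range x).filter Nat.Prime := by
    intro v hv
    rw [mem_filter, mem_range]
    obtain ⟨e1, e2, _⟩ := nm_eq v
    refine ⟨lt_of_le_of_lt ?_ (hT v hv), (below v).2⟩
    rw [e1]
    exact Nat.le_self_pow e2.ne' _
  have h2 : ∀ p ∈ (range x).filter Nat.Prime,
      ∑ v ∈ T with (below v : ℕ) = p, (n : ℝ) * Real.log (below v : ℕ) ≤
        n * n * Real.log p := by
    intro p hp
    have hpp := (mem_filter.1 hp).2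
    have h3 : ∀ v ∈ T.filter (fun v => (below v : ℕ) = p), (n : ℝ) * Real.log (below v : ℕ) =
        n * Real.log p := fun v hv => by rw [(mem_filter.1 hv).2]
    rw [sum_congr rfl h3, sum_const, nsmul_eq_mul]
    have h4 : (T.filter fun v => (below v : ℕ) = p).card ≤ n :=
      card_above ⟨p, hpp⟩ _ (fun v hv => Subtype.ext (mem_filter.1 hv).2)
    have h5 : 0 ≤ Real.log (p : ℕ) := Real.log_natCast_nonneg _
    have h6 : ((T.filter fun v => (below v : ℕ) = p).card : ℝ) ≤ n := by exact_mod_cast h4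
    calc ((T.filter fun v => (below v : ℕ) = p).card : ℝ) * (n * Real.log p) ≤
          n * (n * Real.log p) := mul_le_mul_of_nonneg_right h6 (by positivity)
      _ = _ := by ring
  have h3 : ∑ p ∈ (range x).filter Nat.Prime, Real.log p ≤ Real.log 4 * x := by
    refine le_trans ?_ (Chebyshev.theta_le_log4_mul_x (Nat.cast_nonneg x))
    unfold Chebyshev.theta
    refine sum_le_sum_of_subset_of_nonneg (fun p hp => ?_) fun p _ _ => Real.log_natCast_nonneg _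
    rw [mem_filter, mem_range] at hp
    rw [mem_filter, mem_Ioc, Nat.floor_natCast]
    exact ⟨⟨hp.2.pos, hp.1.le⟩, hp.2⟩
  calc ∑ v ∈ T, Real.log (nm v) ≤ ∑ v ∈ T, (n : ℝ) * Real.log (below v : ℕ) := sum_le_sum h1
    _ = ∑ p ∈ (range x).filter Nat.Prime,
          ∑ v ∈ T with (below v : ℕ) = p, (n : ℝ) * Real.log (below v : ℕ) :=
        (sum_fiberwise_of_maps_to hmaps _).symm
    _ ≤ ∑ p ∈ (range x).filter Nat.Prime, n * n * Real.log p := sum_le_sum h2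
    _ = n * n * ∑ p ∈ (range x).filter Nat.Prime, Real.log p := by rw [mul_sum]
    _ ≤ n * n * (Real.log 4 * x) := mul_le_mul_of_nonneg_left h3 (by positivity)
    _ = _ := by ring

/-- bounded sequences satisfy the mean square bound -/
lemma ms_of_bdd {c : HeightOneSpectrum (𝓞 K) → ℂ} {D : ℝ} (h : ∀ᶠ v in cofinite, ‖c v‖ ≤ D) :
    ∃ C : ℝ, ∀ (x : ℕ) (T : Finset (HeightOneSpectrum (𝓞 K))), (∀ v ∈ T, nm v < x) →
      ∑ v ∈ T, ‖c v‖ ^ 2 * Real.log (nm v) ≤ C * x := by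
  classical
  have hfin : {v | ¬ ‖c v‖ ≤ D}.Finite := h
  set S := hfin.toFinset with hS
  set D' : ℝ := |D| + ∑ v ∈ S, ‖c v‖ with hD'
  have hb : ∀ v, ‖c v‖ ≤ D' := by
    intro v
    by_cases hv : ‖c v‖ ≤ D
    · have h1 : 0 ≤ ∑ v ∈ S, ‖c v‖ := sum_nonneg fun _ _ => norm_nonneg _
      linarith [le_abs_self D]
    · have h1 : v ∈ S := by simpa [hS] using hv
      have h2 := single_le_sum (f := fun v => ‖c v‖) (fun _ _ => norm_nonneg _) h1
      have h3 := abs_nonneg D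
      linarith
  have hD0 : 0 ≤ D' := by positivity
  refine ⟨D' ^ 2 * ((Module.finrank ℚ K : ℝ) ^ 2 * Real.log 4), fun x T hT => ?_⟩
  calc ∑ v ∈ T, ‖c v‖ ^ 2 * Real.log (nm v) ≤ ∑ v ∈ T, D' ^ 2 * Real.log (nm v) :=
        sum_le_sum fun v _ => mul_le_mul_of_nonneg_right
          (pow_le_pow_left₀ (norm_nonneg _) (hb v) 2) (log_nm_nonneg v)
    _ = D' ^ 2 * ∑ v ∈ T, Real.log (nm v) := by rw [mul_sum]
    _ ≤ D' ^ 2 * ((Module.finrank ℚ K : ℝ) ^ 2 * Real.log 4 * x) :=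
        mul_le_mul_of_nonneg_left (sum_log_nm x T hT) (by positivity)
    _ = _ := by ring

variable {B : HeightOneSpectrum (𝓞 K) → ℂ[X]} {N : ℕ}

/-- tempered Euler products -/
lemma typ_of_tempered (one : ∀ v, (B v).coeff 0 = 1) (dg : ∀ v, (B v).natDegree ≤ N)
    (small : ∀ v, ∀ z : ℂ, (B v).eval z = 0 → ((nm v : ℝ))⁻¹ < ‖z‖)
    (zeros : ∀ᶠ v in cofinite, ∀ z : ℂ, (B v).eval z = 0 → 1 ≤ ‖z‖) : Typ B N := by
  refine ⟨one, dg, small, ⟨0, by norm_num, ?_⟩, ms_of_bdd (D := N) ?_⟩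
  · filter_upwards [zeros] with v hv z hz
    rw [neg_zero, Real.rpow_zero]
    exact hv z hz
  · filter_upwards [zeros] with v hv
    exact Pool.Agent.Y774.MD.coeff_one_bound (one v) (dg v) hv

/-- the normalisation of Euler factors of weight `w` -/
noncomputable def nz (w : ℝ) (P : HeightOneSpectrum (𝓞 K) → ℂ[X])
    (v : HeightOneSpectrum (𝓞 K)) : ℂ[X] :=
  (P v).comp (C ((((nm v : ℝ) ^ (-(w / 2)) : ℝ) : ℂ)) * X)

/-- the twisted Euler product -/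
noncomputable def LS (P : HeightOneSpectrum (𝓞 K) → ℂ[X]) (ψ : HeightOneSpectrum (𝓞 K) → ℂ)
    (s : ℂ) : ℂ := ∏' v : HeightOneSpectrum (𝓞 K), ((P v).eval (ψ v * (nm v : ℂ) ^ (-s)))⁻¹

lemma LFun_nz (w : ℝ) (P : HeightOneSpectrum (𝓞 K) → ℂ[X]) (ψ : HeightOneSpectrum (𝓞 K) → ℂ)
    (s : ℂ) : LFun (tws ψ (nz w P)) s = LS P ψ (s + ((w / 2 : ℝ) : ℂ)) := by
  unfold LFun LS localFactor
  refine tprod_congr fun v => ?_
  rw [tws_eval]
  unfold nz
  rw [eval_comp]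
  congr 2
  simp only [eval_mul, eval_C, eval_X]
  have hq := nm_real_pos v
  have h1 : (nm v : ℂ) ^ (-(s + ((w / 2 : ℝ) : ℂ))) =
      (((nm v : ℝ) ^ (-(w / 2)) : ℝ) : ℂ) * (nm v : ℂ) ^ (-s) := by
    have hn0 : (nm v : ℂ) ≠ 0 := by exact_mod_cast (nm_pos v).ne'
    rw [neg_add, Complex.cpow_add _ _ hn0, mul_comm, Complex.ofReal_cpow hq.le]
    push_cast
    rfl
  rw [h1]
  have h2 : (Ideal.absNorm v.asIdeal : ℂ) = (nm v : ℂ) := rfl
  rw [h2]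
  ring

/-- the modulus of the twisted Euler product on the edge -/
noncomputable def eA (w : ℝ) (P : HeightOneSpectrum (𝓞 K) → ℂ[X])
    (ψ : HeightOneSpectrum (𝓞 K) → ℂ) (τ : ℝ) : ℝ :=
  limUnder (𝓝[>] (0 : ℝ)) fun σ : ℝ =>
    ‖LS P ψ (((w / 2 + 1 : ℝ) : ℂ) + σ + τ * Complex.I)‖

lemma eA_eq (w : ℝ) (P : HeightOneSpectrum (𝓞 K) → ℂ[X]) (ψ : HeightOneSpectrum (𝓞 K) → ℂ)
    (τ : ℝ) : eA w P ψ τ = edgeAbs (tws ψ (nz w P)) τ := by
  unfold eA edgeAbs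
  congr 1
  funext σ
  rw [LFun_nz]
  congr 2
  push_cast
  ring

lemma eA_edge {w : ℝ} {P : HeightOneSpectrum (𝓞 K) → ℂ[X]} (h : Typ (nz w P) N)
    {ψ : HeightOneSpectrum (𝓞 K) → ℂ} (hψ : ∀ v, ‖ψ v‖ ≤ 1) : ∀ᵐ τ : ℝ, 0 < eA w P ψ τ ∧
    Tendsto (fun σ : ℝ => ‖LS P ψ (((w / 2 + 1 : ℝ) : ℂ) + σ + τ * Complex.I)‖) (𝓝[>] 0)
      (𝓝 (eA w P ψ τ)) := by
  filter_upwards [(h.twist hψ).edge] with τ hτ
  rw [eA_eq]
  refine ⟨hτ.1, ?_⟩
  refine (tendsto_congr fun σ => ?_).1 hτ.2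
  rw [LFun_nz]
  congr 2
  push_cast
  ring

lemma nz_injective {w : ℝ} {P Q : ℂ[X]} {v : HeightOneSpectrum (𝓞 K)}
    (h : P.comp (C ((((nm v : ℝ) ^ (-(w / 2)) : ℝ) : ℂ)) * X) =
      Q.comp (C ((((nm v : ℝ) ^ (-(w / 2)) : ℝ) : ℂ)) * X)) : P = Q := by
  have hc : ((((nm v : ℝ) ^ (-(w / 2)) : ℝ) : ℂ)) ≠ 0 := by
    exact_mod_cast (Real.rpow_pos_of_pos (nm_real_pos v) _).ne'
  refine Polynomial.funext fun z => ?_
  have h1 := congrArg (fun R : ℂ[X] => R.eval (((((nm v : ℝ) ^ (-(w / 2)) : ℝ) : ℂ))⁻¹ * z)) h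
  simp only [comp_C_mul_X_eval] at h1
  rw [← mul_assoc, mul_inv_cancel₀ hc, one_mul] at h1
  exact h1

variable {κ : Type} [Fintype κ] {P₀ : HeightOneSpectrum (𝓞 K) → ℂ[X]}
  {P : κ → HeightOneSpectrum (𝓞 K) → ℂ[X]} {N₀ M : ℕ} {n : κ → ℕ} {w : ℝ}

lemma nz_shp (t : κ → ℝ) (v : HeightOneSpectrum (𝓞 K)) :
    nz w (shp P t) v = shp (fun k => nz w (P k)) t v := by
  refine Polynomial.funext fun z => ?_
  unfold nz shp
  rw [comp_C_mul_X_eval, eval_prod, eval_prod]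
  refine prod_congr rfl fun k _ => ?_
  rw [comp_C_mul_X_eval, comp_C_mul_X_eval, comp_C_mul_X_eval]
  congr 1
  ring

/-- **Main theorem in weight `w`.** -/
theorem main_w {ι : Type} (h₀ : Typ (nz w P₀) N₀) (h : ∀ k, Typ (nz w (P k)) (n k)) (t : κ → ℝ)
    {ψ : ι → HeightOneSpectrum (𝓞 K) → ℂ} (hψ : ∀ j v, ‖ψ j v‖ ≤ 1) (hM₀ : N₀ ≤ M)
    (hM : ∑ k, n k ≤ M) (hsep : Sep ψ M) : List.TFAE
      [∀ v, P₀ v = shp P t v,
       ∀ j, ∀ᵐ τ : ℝ, eA w P₀ (ψ j) τ = ∏ k, eA w (P k) (ψ j) (τ + t k),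
       ∀ j, Concentrated fun τ => Real.log (eA w P₀ (ψ j) τ) -
          ∑ k, Real.log (eA w (P k) (ψ j) (τ + t k))] := by
  have h1 := main h₀ h t hψ hM₀ hM hsep
  have e : (∀ v, nz w P₀ v = shp (fun k => nz w (P k)) t v) ↔ ∀ v, P₀ v = shp P t v := by
    refine forall_congr' fun v => ?_
    rw [← nz_shp]
    exact ⟨fun h2 => nz_injective h2, fun h2 => by unfold nz; rw [h2]⟩
  simp_rw [← eA_eq] at h1
  rw [e] at h1
  exact h1

end Pool.Agent.Y719.EL.N
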