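import Pool.Agent.Y719.EL.Tr

/-!
# Orders of local meromorphic continuations on the edge, over all twists
-/

set_option autoImplicit false

namespace Pool.Agent.Y719.EL

open Complex Filter Topology ComplexConjugate
open Pool.Agent.TH339.MP (PP FF tm bα norm_bα norm_b_le FF_split hpart hpart_tendsto summable_tm)
open Pool.Agent.H341R2 (E lam summable_E E_le E_nonneg E_add E_const_mul E_sum w_nonneg
  lam_bounded lam_tendsto path_tendsto' log_norm_meromorphic)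

lemma log_inv_tendsto : Tendsto (fun ε : ℝ => Real.log (1 / ε)) (𝓝[>] 0) atTop := by
  have h1 := tendsto_neg_atBot_atTop.comp Real.tendsto_log_nhdsGT_zero
  refine h1.congr fun ε => ?_
  simp only [Function.comp_apply]
  rw [one_div, Real.log_inv]

section
variable {ι : Type} [Fintype ι] {n : ι → ℕ} {S : ι → Finset ℕ} {A : ∀ i, ℕ → Fin (n i + 1) → ℂ}
  {ρ : ∀ i, Multiset (Fin (n i + 1) → ℤ)} {θ : ι → ℝ} (m : ι → ℤ)
  (h : ∀ i, Bdd (S i) (A i) (ρ i) (θ i))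

include h

lemma order_finite (x : Tw) {φ : ℂ → ℂ} (hφ : MeromorphicAt φ (1 + x.τ * I))
    (hev : ∀ᶠ s in 𝓝 (1 + x.τ * I : ℂ), 1 < s.re →
      ∏ i, LS (S i) (A i) (ρ i) x.χ (s + θ i) ^ m i = φ s) :
    ∃ e : ℤ, meromorphicOrderAt φ (1 + x.τ * I) = e ∧ ∃ C : ℝ, ∀ᶠ ε : ℝ in 𝓝[>] 0,
      |Real.log ‖∏ i, LS (S i) (A i) (ρ i) x.χ (1 + x.τ * I + ε + θ i) ^ m i‖ -
        e * Real.log ε| ≤ C := by
  have hev' : ∀ᶠ ε : ℝ in 𝓝[>] 0,
      ∏ i, LS (S i) (A i) (ρ i) x.χ (1 + x.τ * I + ε + θ i) ^ m i = φ (1 + x.τ * I + ε) := by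
    filter_upwards [(path_tendsto' (1 + x.τ * I : ℂ)).eventually hev, self_mem_nhdsWithin]
      with ε h1 h2
    have hε : (0 : ℝ) < ε := h2
    refine h1 ?_
    simp
    exact hε
  have hne : ∀ᶠ ε : ℝ in 𝓝[>] 0, φ (1 + x.τ * I + ε) ≠ 0 := by
    filter_upwards [hev', self_mem_nhdsWithin] with ε h1 h2
    have hε : (0 : ℝ) < ε := h2
    have hs : 1 < (1 + x.τ * I + ε : ℂ).re := by
      simp
      exact hε
    rw [← h1, ← exp_bt m h x hs]
    exact Complex.exp_ne_zero _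
  have hfreq : ∃ᶠ z in 𝓝[≠] (1 + x.τ * I : ℂ), φ z ≠ 0 := by
    have hpath : Tendsto (fun ε : ℝ => (1 + x.τ * I : ℂ) + ε) (𝓝[>] 0)
        (𝓝[≠] (1 + x.τ * I : ℂ)) := by
      rw [tendsto_nhdsWithin_iff]
      refine ⟨path_tendsto' _, ?_⟩
      filter_upwards [self_mem_nhdsWithin] with ε hε
      have hε' : (0 : ℝ) < ε := hε
      simp only [Set.mem_compl_iff, Set.mem_singleton_iff, add_eq_left]
      exact_mod_cast hε'.ne'
    exact hpath.frequently hne.frequently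
  have hnt : meromorphicOrderAt φ (1 + x.τ * I) ≠ ⊤ := by
    rw [Ne, meromorphicOrderAt_eq_top_iff]
    intro h
    exact hfreq (h.mono fun z hz => not_not.2 hz)
  obtain ⟨e, he⟩ := WithTop.ne_top_iff_exists.1 hnt
  refine ⟨e, he.symm, ?_⟩
  obtain ⟨C, hC⟩ := log_norm_meromorphic hφ he.symm
  refine ⟨C, ?_⟩
  filter_upwards [hC, hev'] with ε h1 h2
  rw [h2]
  exact h1.2

theorem orders {κ : Type} [Fintype κ] (x : κ → Tw) (hx : ∀ k l, k ≠ l → ¬ (x k).Same (x l))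
    (φ : κ → ℂ → ℂ) (hφ : ∀ k, MeromorphicAt (φ k) (1 + (x k).τ * I))
    (hev : ∀ k, ∀ᶠ s in 𝓝 (1 + (x k).τ * I : ℂ), 1 < s.re →
      ∏ i, LS (S i) (A i) (ρ i) (x k).χ (s + θ i) ^ m i = φ k s) :
    ∃ e : κ → ℤ, (∀ k, meromorphicOrderAt (φ k) (1 + (x k).τ * I) = e k) ∧
      (∀ V : ℝ, (∃ᶠ ε : ℝ in 𝓝[>] 0,
        E ε (fun p => ‖TT S A ρ θ m p‖ ^ 2) ≤ V * Real.log (1 / ε)) → ∑ k, (e k : ℝ) ^ 2 ≤ V) ∧
      ∑ k, (e k : ℝ) ^ 2 ≤ (∑ i, |(m i : ℝ)| * (ρ i).card) ^ 2 := by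
  have h0 := fun k => order_finite m h (x k) (hφ k) (hev k)
  choose e he C hC using h0
  have hV : ∀ V : ℝ, (∃ᶠ ε : ℝ in 𝓝[>] 0,
      E ε (fun p => ‖TT S A ρ θ m p‖ ^ 2) ≤ V * Real.log (1 / ε)) → ∑ k, (e k : ℝ) ^ 2 ≤ V := by
    intro V hfr
    obtain ⟨C', hC'⟩ := main_ineq m h x hx
    have hC2 : ∀ᶠ ε : ℝ in 𝓝[>] 0, ∀ k,
        |Real.log ‖∏ i, LS (S i) (A i) (ρ i) (x k).χ (1 + (x k).τ * I + ε + θ i) ^ m i‖ -
          e k * Real.log ε| ≤ C k := Filter.eventually_all.2 hC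
    by_contra hcon
    push Not at hcon
    set c := ∑ k, 2 * |(e k : ℝ)| * |C k| with hc
    have hbig := log_inv_tendsto.eventually_gt_atTop
      (max 1 ((C' + c) / (∑ k, (e k : ℝ) ^ 2 - V)))
    obtain ⟨ε, h1, h2, h3, h4, h5⟩ := (hfr.and_eventually (hC'.and (hC2.and
      (hbig.and (self_mem_nhdsWithin : ∀ᶠ ε : ℝ in 𝓝[>] 0, ε ∈ Set.Ioi (0 : ℝ)))))).exists
    have hε : (0 : ℝ) < ε := h5
    set L := Real.log (1 / ε) with hL
    have hL1 : 1 < L := (le_max_left _ _).trans_lt h4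
    have hL2 : (C' + c) / (∑ k, (e k : ℝ) ^ 2 - V) < L := (le_max_right _ _).trans_lt h4
    have hlog : Real.log ε = -L := by
      rw [hL, one_div, Real.log_inv, neg_neg]
    have hk : ∀ k, (e k : ℝ) ^ 2 * L ^ 2 ≤ (Real.log ‖∏ i, LS (S i) (A i) (ρ i) (x k).χ
        (1 + (x k).τ * I + ε + θ i) ^ m i‖) ^ 2 + 2 * |(e k : ℝ)| * |C k| * L := by
      intro k
      set u := Real.log ‖∏ i, LS (S i) (A i) (ρ i) (x k).χ
        (1 + (x k).τ * I + ε + θ i) ^ m i‖ with hu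
      have e1 : |u + e k * L| ≤ |C k| := by
        have := h3 k
        rw [hlog] at this
        have e2 : u + e k * L = u - e k * -L := by ring
        rw [e2]
        exact this.trans (le_abs_self _)
      have e3 : (e k : ℝ) ^ 2 * L ^ 2 = u ^ 2 + 2 * ((e k * L) * (u + e k * L)) -
        (u + e k * L) ^ 2 := by ring
      have e4 : (e k * L) * (u + e k * L) ≤ (|(e k : ℝ)| * L) * |C k| := by
        refine (le_abs_self _).trans ?_
        rw [abs_mul, abs_mul, abs_of_pos (by linarith : 0 < L)]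
        exact mul_le_mul_of_nonneg_left e1 (by positivity)
      rw [e3]
      nlinarith [sq_nonneg (u + e k * L)]
    have hsum : (∑ k, (e k : ℝ) ^ 2) * L ^ 2 ≤ L * (V * L + C') + c * L := by
      calc (∑ k, (e k : ℝ) ^ 2) * L ^ 2 = ∑ k, (e k : ℝ) ^ 2 * L ^ 2 := by rw [Finset.sum_mul]
        _ ≤ ∑ k, ((Real.log ‖∏ i, LS (S i) (A i) (ρ i) (x k).χ
          (1 + (x k).τ * I + ε + θ i) ^ m i‖) ^ 2 + 2 * |(e k : ℝ)| * |C k| * L) :=
            Finset.sum_le_sum fun k _ => hk k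
        _ = (∑ k, (Real.log ‖∏ i, LS (S i) (A i) (ρ i) (x k).χ
          (1 + (x k).τ * I + ε + θ i) ^ m i‖) ^ 2) + c * L := by
            rw [Finset.sum_add_distrib, hc, Finset.sum_mul]
        _ ≤ L * (V * L + C') + c * L := by
            have := mul_le_mul_of_nonneg_left (add_le_add_left h1 C') (by linarith : 0 ≤ L)
            linarith
    rw [div_lt_iff₀ (by linarith)] at hL2
    nlinarith
  refine ⟨e, he, hV, ?_⟩
  -- the trivial bound for the mean square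
  set D : ℝ := ∑ i, |(m i : ℝ)| * (ρ i).card with hD
  have hD0 : 0 ≤ D := by positivity
  refine le_of_forall_pos_le_add fun δ hδ => ?_
  refine hV (D ^ 2 + δ) (Eventually.frequently ?_)
  obtain ⟨C₃, hC₃⟩ := lam_bounded
  filter_upwards [hC₃, self_mem_nhdsWithin, log_inv_tendsto.eventually_ge_atTop
    (D ^ 2 * |C₃| / δ)] with ε h1 h2 h3
  have hε : (0 : ℝ) < ε := h2
  have hTb : ∀ p : Nat.Primes, |‖TT S A ρ θ m p‖ ^ 2| ≤ D ^ 2 := by
    intro p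
    rw [abs_of_nonneg (sq_nonneg _)]
    exact pow_le_pow_left₀ (norm_nonneg _) (norm_TT m h p) 2
  have hQ1 := E_le hε hTb fun p => (le_abs_self _).trans (hTb p)
  have h4 : lam ε ≤ Real.log (1 / ε) + |C₃| := by
    have := (abs_le.1 h1).2
    rw [one_div, Real.log_inv]
    have := le_abs_self C₃
    linarith
  rw [div_le_iff₀ hδ] at h3
  calc E ε (fun p => ‖TT S A ρ θ m p‖ ^ 2) ≤ D ^ 2 * lam ε := hQ1
    _ ≤ D ^ 2 * (Real.log (1 / ε) + |C₃|) := mul_le_mul_of_nonneg_left h4 (sq_nonneg _)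
    _ ≤ (D ^ 2 + δ) * Real.log (1 / ε) := by linarith

end

end Pool.Agent.Y719.EL
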