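import Pool.Agent.Y719.EL.Bes
import Pool.Agent.H341R2.TwistBessel
import Mathlib.NumberTheory.DirichletCharacter.Basic

/-!
# Almost orthogonality of `p ↦ conj χ(p) p^{iτ}`
-/

set_option autoImplicit false

namespace Pool.Agent.Y719.EL

open Complex Filter Topology ComplexConjugate
open Pool.Agent.H341R2 (E lam summable_E E_le E_nonneg E_add E_const_mul E_sum w_nonneg
  lam_bounded lam_tendsto primeSum_bounded norm_prime_cpow_I conj_prime_cpow_I summable_prime_rpow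
  norm_prime_cpow)

section
variable {q₁ q₂ : ℕ} (χ₁ : DirichletCharacter ℂ q₁) (χ₂ : DirichletCharacter ℂ q₂)

/-- the product `conj χ₁ · χ₂` -/
noncomputable def psi : DirichletCharacter ℂ (q₁ * q₂) :=
  (DirichletCharacter.changeLevel (Dvd.intro q₂ rfl) χ₁)⁻¹ *
    DirichletCharacter.changeLevel (Dvd.intro_left q₁ rfl) χ₂

lemma conj_char {q : ℕ} [NeZero q] (χ : DirichletCharacter ℂ q) (x : ZMod q) :
    conj (χ x) = χ⁻¹ x := by
  by_cases hx : IsUnit x
  · obtain ⟨u, rfl⟩ := hx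
    have h1 : ‖χ (u : ZMod q)‖ = 1 := χ.unit_norm_eq_one u
    have h2 : χ⁻¹ (u : ZMod q) = (χ (u : ZMod q))⁻¹ := by
      rw [MulChar.inv_apply_eq_inv' χ (u : ZMod q)]
    rw [h2, Complex.inv_def, Complex.normSq_eq_norm_sq, h1]
    simp
  · rw [χ.map_nonunit hx, χ⁻¹.map_nonunit hx, map_zero]

lemma psi_apply [NeZero q₁] [NeZero q₂] {p : ℕ} (hp : p.Prime) :
    psi χ₁ χ₂ (p : ZMod (q₁ * q₂)) = conj (χ₁ p) * χ₂ p := by
  by_cases hc : p.Coprime (q₁ * q₂)
  · have hc1 : p.Coprime q₁ := hc.coprime_mul_right_right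
    have hc2 : p.Coprime q₂ := hc.coprime_mul_left_right
    set u : (ZMod (q₁ * q₂))ˣ := ZMod.unitOfCoprime p hc with hu
    have hup : (u : ZMod (q₁ * q₂)) = (p : ZMod (q₁ * q₂)) := ZMod.coe_unitOfCoprime p hc
    rw [← hup, psi, MulChar.mul_apply, MulChar.inv_apply_eq_inv',
      DirichletCharacter.changeLevel_eq_cast_of_dvd, DirichletCharacter.changeLevel_eq_cast_of_dvd,
      hup, conj_char, MulChar.inv_apply_eq_inv', ZMod.cast_natCast (Dvd.intro q₂ rfl),
      ZMod.cast_natCast (Dvd.intro_left q₁ rfl)]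
  · have h1 : ¬ IsUnit (p : ZMod (q₁ * q₂)) := by
      rwa [ZMod.isUnit_iff_coprime]
    rw [(psi χ₁ χ₂).map_nonunit h1]
    have h2 : p ∣ q₁ * q₂ := by
      by_contra h
      exact hc ((Nat.Prime.coprime_iff_not_dvd hp).2 h)
    rcases (Nat.Prime.dvd_mul hp).1 h2 with h | h
    · have h3 : ¬ IsUnit (p : ZMod q₁) := by
        rw [ZMod.isUnit_iff_coprime, Nat.Prime.coprime_iff_not_dvd hp]
        exact not_not.2 h
      rw [χ₁.map_nonunit h3]
      simp
    · have h3 : ¬ IsUnit (p : ZMod q₂) := by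
        rw [ZMod.isUnit_iff_coprime, Nat.Prime.coprime_iff_not_dvd hp]
        exact not_not.2 h
      rw [χ₂.map_nonunit h3]
      simp

lemma psi_apply' [NeZero q₁] [NeZero q₂] {a : ℕ} (hc : a.Coprime (q₁ * q₂)) :
    psi χ₁ χ₂ (a : ZMod (q₁ * q₂)) = (χ₁ a)⁻¹ * χ₂ a := by
  set u : (ZMod (q₁ * q₂))ˣ := ZMod.unitOfCoprime a hc with hu
  have hup : (u : ZMod (q₁ * q₂)) = (a : ZMod (q₁ * q₂)) := ZMod.coe_unitOfCoprime a hc
  rw [← hup, psi, MulChar.mul_apply, MulChar.inv_apply_eq_inv',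
    DirichletCharacter.changeLevel_eq_cast_of_dvd, DirichletCharacter.changeLevel_eq_cast_of_dvd,
    hup, ZMod.cast_natCast (Dvd.intro q₂ rfl), ZMod.cast_natCast (Dvd.intro_left q₁ rfl)]

lemma psi_ne_one [NeZero q₁] [NeZero q₂] {a : ℕ} (hc : a.Coprime (q₁ * q₂))
    (h : χ₁ a ≠ χ₂ a) : psi χ₁ χ₂ ≠ 1 := by
  intro h1
  have h2 := psi_apply' χ₁ χ₂ hc
  have h3 : IsUnit (a : ZMod (q₁ * q₂)) := (ZMod.isUnit_iff_coprime _ _).2 hc
  have h4 : IsUnit (a : ZMod q₁) := (ZMod.isUnit_iff_coprime _ _).2 hc.coprime_mul_right_right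
  rw [h1, MulChar.one_apply h3] at h2
  have h5 : χ₁ (a : ZMod q₁) ≠ 0 := by
    obtain ⟨u, hu⟩ := h4
    rw [← hu]
    have := χ₁.unit_norm_eq_one u
    intro h6
    rw [h6, norm_zero] at this
    exact zero_ne_one this
  apply h
  field_simp at h2
  exact h2

end

/-- a twist: a Dirichlet character and a height -/
structure Tw where
  /-- the modulus -/
  q : ℕ
  /-- the modulus is positive -/
  hq : q ≠ 0
  /-- the character -/
  χ : DirichletCharacter ℂ q
  /-- the height -/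
  τ : ℝ

/-- the two twists coincide at the integers prime to the moduli -/
def Tw.Same (x y : Tw) : Prop :=
  x.τ = y.τ ∧ ∀ a : ℕ, a.Coprime (x.q * y.q) → x.χ a = y.χ a

/-- the function `p ↦ conj χ(p) p^{iτ}` -/
noncomputable def vt (x : Tw) (p : Nat.Primes) : ℂ :=
  conj (x.χ p) * ((p : ℕ) : ℂ) ^ (x.τ * I)

theorem norm_vt_le (x : Tw) (p : Nat.Primes) : ‖vt x p‖ ≤ 1 := by
  rw [vt, norm_mul, norm_prime_cpow_I, mul_one, Complex.norm_conj]
  exact x.χ.norm_le_one _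

theorem vt_orth {x y : Tw} (h : ¬ x.Same y) :
    ∃ C : ℝ, ∀ᶠ ε : ℝ in 𝓝[>] 0, |E ε fun p => (vt x p * conj (vt y p)).re| ≤ C := by
  have := x.hq
  have := y.hq
  have : NeZero x.q := ⟨x.hq⟩
  have : NeZero y.q := ⟨y.hq⟩
  have : NeZero (x.q * y.q) := ⟨mul_ne_zero x.hq y.hq⟩
  have h : psi x.χ y.χ ≠ 1 ∨ (y.τ - x.τ) ≠ 0 := by
    by_cases h1 : x.τ = y.τ
    · left
      have h2 : ∃ a : ℕ, a.Coprime (x.q * y.q) ∧ x.χ a ≠ y.χ a := by
        by_contra h3
        push Not at h3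
        exact h ⟨h1, h3⟩
      obtain ⟨a, ha, hne⟩ := h2
      exact psi_ne_one _ _ ha hne
    · right
      intro h2
      exact h1 (by linarith)
  obtain ⟨C, hC⟩ := primeSum_bounded (psi x.χ y.χ) (y.τ - x.τ) h
  refine ⟨C, ?_⟩
  filter_upwards [hC, self_mem_nhdsWithin] with ε h1 h2
  have hε : (0 : ℝ) < ε := h2
  have key : (E ε fun p => (vt x p * conj (vt y p)).re) =
      (∑' p : Nat.Primes, (psi x.χ y.χ) p *
        ((p : ℕ) : ℂ) ^ (-(1 + ε + ((y.τ - x.τ : ℝ) : ℂ) * I))).re := by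
    rw [E, Complex.re_tsum]
    · refine tsum_congr fun p => ?_
      have h0 : ((p : ℕ) : ℂ) ≠ 0 := by exact_mod_cast p.2.ne_zero
      have h3 : vt x p * conj (vt y p) = (psi x.χ y.χ) p *
          ((p : ℕ) : ℂ) ^ (-(((y.τ - x.τ : ℝ) : ℂ) * I)) := by
        rw [vt, vt, map_mul, Complex.conj_conj, conj_prime_cpow_I, psi_apply _ _ p.2]
        push_cast
        have : -(((y.τ : ℂ) - x.τ) * I) = x.τ * I + -(y.τ * I) := by ring
        rw [this, Complex.cpow_add _ _ h0]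
        ring
      rw [h3]
      have h4 : ((p : ℕ) : ℂ) ^ (-(1 + ε + ((y.τ - x.τ : ℝ) : ℂ) * I) : ℂ) =
          ((p : ℕ) : ℂ) ^ (-(((y.τ - x.τ : ℝ) : ℂ) * I)) * (((p : ℝ) ^ (-(1 + ε)) : ℝ) : ℂ) := by
        rw [Complex.ofReal_cpow (by positivity)]
        push_cast
        rw [← Complex.cpow_add _ _ h0]
        congr 1
        ring
      rw [h4, ← mul_assoc, Complex.re_mul_ofReal]
    · refine Summable.of_norm_bounded (summable_prime_rpow (r := -(1 + ε)) (by linarith))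
        fun p => ?_
      rw [norm_mul, norm_prime_cpow]
      refine mul_le_of_le_one_left (by positivity) ?_ |>.trans (le_of_eq ?_)
      · exact (psi x.χ y.χ).norm_le_one _
      · congr 1
        simp
  rw [key]
  exact h1

end Pool.Agent.Y719.EL
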