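import Pool.Agent.TH345.ET.W
import Pool.Agent.TH339.MP.R1

/-!
# Finite products of Euler products as exponentials of Dirichlet series over prime powers
-/

set_option autoImplicit false

namespace Pool.Agent.Y719.EL

open Finset Filter Topology
open Pool.Agent.TH339.MP (PP FF tm bα norm_bα fα hasProd_α summable_tm norm_b_le)

/-- The value at the point `x` of the torus of the character with exponents `μ`. -/
noncomputable def weight {n : ℕ} (x : Fin (n + 1) → ℂ) (μ : Fin (n + 1) → ℤ) : ℂ :=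
  ∏ i, x i ^ μ i

/-- The factor at `p` of `L_S(s, π × χ, ρ)`. -/
noncomputable def factor {n q : ℕ} (S : Finset ℕ) (A : ℕ → Fin (n + 1) → ℂ)
    (ρ : Multiset (Fin (n + 1) → ℤ)) (χ : DirichletCharacter ℂ q) (s : ℂ) (p : ℕ) : ℂ :=
  if p ∈ S then 1 else ((ρ.map fun μ => 1 - χ p * weight (A p) μ * (p : ℂ) ^ (-s)).prod)⁻¹

/-- The Euler product `L_S(s, π × χ, ρ)`. -/
noncomputable def LS {n q : ℕ} (S : Finset ℕ) (A : ℕ → Fin (n + 1) → ℂ)
    (ρ : Multiset (Fin (n + 1) → ℤ)) (χ : DirichletCharacter ℂ q) (s : ℂ) : ℂ :=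
  ∏' p : Nat.Primes, factor S A ρ χ s p

/-- The bound for the weights. -/
def Bdd {n : ℕ} (S : Finset ℕ) (A : ℕ → Fin (n + 1) → ℂ) (ρ : Multiset (Fin (n + 1) → ℤ))
    (θ : ℝ) : Prop :=
  ∀ p : ℕ, p.Prime → p ∉ S → ∀ μ ∈ ρ, ‖weight (A p) μ‖ ≤ (p : ℝ) ^ θ

/-- the shifted roots -/
noncomputable def rt {n q : ℕ} (A : ℕ → Fin (n + 1) → ℂ) (ρ : Multiset (Fin (n + 1) → ℤ))
    (χ : DirichletCharacter ℂ q) (θ : ℝ) (p : ℕ) (j : Fin ρ.toList.length) : ℂ :=
  χ p * weight (A p) ρ.toList[j.1] * (((p : ℝ) ^ (-θ) : ℝ) : ℂ)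

section
variable {n q : ℕ} {S : Finset ℕ} {A : ℕ → Fin (n + 1) → ℂ} {ρ : Multiset (Fin (n + 1) → ℤ)}
  {χ : DirichletCharacter ℂ q} {θ : ℝ}

lemma norm_rt (h : Bdd S A ρ θ) (p : ℕ) (hp : p.Prime) (hS : p ∉ S) (j : Fin ρ.toList.length) :
    ‖rt A ρ χ θ p j‖ ≤ 1 := by
  have hp0 : (0 : ℝ) < p := by exact_mod_cast hp.pos
  unfold rt
  rw [norm_mul, norm_mul, Complex.norm_real, Real.norm_of_nonneg (by positivity)]
  have h1 := h p hp hS ρ.toList[j.1] (Multiset.mem_toList.1 (List.getElem_mem _))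
  have h2 : ‖χ (p : ZMod q)‖ ≤ 1 := χ.norm_le_one _
  calc ‖χ (p : ZMod q)‖ * ‖weight (A p) ρ.toList[j.1]‖ * (p : ℝ) ^ (-θ)
      ≤ 1 * (p : ℝ) ^ θ * (p : ℝ) ^ (-θ) := by gcongr
    _ = 1 := by rw [one_mul, ← Real.rpow_add hp0, add_neg_cancel, Real.rpow_zero]

lemma prod_toList {M : Type*} [CommMonoid M] {X : Type*} (ρ : Multiset X) (f : X → M) :
    ∏ j : Fin ρ.toList.length, f ρ.toList[j.1] = (ρ.map f).prod := by
  conv_rhs => rw [← Multiset.coe_toList ρ, Multiset.map_coe, Multiset.prod_coe]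
  rw [← Fin.prod_univ_getElem]
  have h : (ρ.toList.map f).length = ρ.toList.length := List.length_map _
  refine Fintype.prod_equiv (finCongr h.symm) _ _ fun j => ?_
  simp

lemma sum_toList {M : Type*} [AddCommMonoid M] {X : Type*} (ρ : Multiset X) (f : X → M) :
    ∑ j : Fin ρ.toList.length, f ρ.toList[j.1] = (ρ.map f).sum := by
  have := prod_toList (M := Multiplicative M) ρ (fun x => Multiplicative.ofAdd (f x))
  exact this

lemma factor_eq {p : ℕ} (hp : p.Prime) (s : ℂ) :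
    factor S A ρ χ (s + θ) p = fα (rt A ρ χ θ) S s ⟨p, hp⟩ := by
  have hp0 : (0 : ℝ) < p := by exact_mod_cast hp.pos
  have hpc : (p : ℂ) ≠ 0 := by exact_mod_cast hp.ne_zero
  unfold factor fα
  simp only
  split_ifs with h
  · rfl
  · rw [← prod_toList, ← Finset.prod_inv_distrib]
    refine Finset.prod_congr rfl fun j _ => ?_
    congr 2
    unfold rt
    have h1 : (p : ℂ) ^ (-(s + θ)) = (((p : ℝ) ^ (-θ) : ℝ) : ℂ) * (p : ℂ) ^ (-s) := by
      rw [Complex.ofReal_cpow hp0.le, neg_add, Complex.cpow_add _ _ hpc, mul_comm]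
      push_cast
      rfl
    rw [h1]
    ring

theorem LS_eq (h : Bdd S A ρ θ) {s : ℂ} (hs : 1 < s.re) :
    LS S A ρ χ (s + θ) = Complex.exp (FF (bα (rt A ρ χ θ) S) s) := by
  unfold LS
  rw [← (hasProd_α (α := rt A ρ χ θ) (S := S) (fun p hp hS j => norm_rt h p hp hS j) hs).tprod_eq]
  exact tprod_congr fun p => factor_eq p.2 s

end

section
variable {ι : Type*} (T : Finset ι) (k : ι → ℤ) (b : ι → PP → ℂ) (N : ι → ℝ)

/-- the linear combination of the coefficients -/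
noncomputable def comb (x : PP) : ℂ := ∑ i ∈ T, (k i : ℂ) * b i x

lemma norm_comb (hb : ∀ i ∈ T, ∀ x, ‖b i x‖ ≤ N i / (x.2 + 1 : ℕ)) (x : PP) :
    ‖comb T k b x‖ ≤ (∑ i ∈ T, |(k i : ℝ)| * N i) / (x.2 + 1 : ℕ) := by
  unfold comb
  rw [Finset.sum_div]
  refine norm_sum_le_of_le _ fun i hi => ?_
  rw [norm_mul, Complex.norm_intCast, mul_div_assoc]
  exact mul_le_mul_of_nonneg_left (hb i hi x) (abs_nonneg _)

theorem FF_comb (hb : ∀ i ∈ T, ∀ x, ‖b i x‖ ≤ N i / (x.2 + 1 : ℕ)) {s : ℂ} (hs : 1 < s.re) :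
    FF (comb T k b) s = ∑ i ∈ T, (k i : ℂ) * FF (b i) s := by
  unfold FF
  have h1 : ∀ x, tm (comb T k b) s x = ∑ i ∈ T, (k i : ℂ) * tm (b i) s x := by
    intro x
    unfold tm comb
    rw [Finset.sum_mul]
    exact Finset.sum_congr rfl fun i _ => by ring
  rw [tsum_congr h1, Summable.tsum_finsetSum fun i hi => (summable_tm (hb i hi) hs).mul_left _]
  exact Finset.sum_congr rfl fun i _ => tsum_mul_left

theorem exp_comb (hb : ∀ i ∈ T, ∀ x, ‖b i x‖ ≤ N i / (x.2 + 1 : ℕ)) {s : ℂ} (hs : 1 < s.re) :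
    Complex.exp (FF (comb T k b) s) = ∏ i ∈ T, Complex.exp (FF (b i) s) ^ k i := by
  rw [FF_comb T k b N hb hs, Complex.exp_sum]
  exact Finset.prod_congr rfl fun i _ => Complex.exp_int_mul _ _

end

end Pool.Agent.Y719.EL
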