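import Pool.Agent.Y719.EL.Rep
import Pool.Agent.Y719.EL.Orth

/-!
# Logarithms of the Euler products near the edge as weighted sums over the primes
-/

set_option autoImplicit false

namespace Pool.Agent.Y719.EL

open Complex Filter Topology ComplexConjugate
open Pool.Agent.TH339.MP (PP FF tm bα norm_bα norm_b_le FF_split hpart hpart_tendsto summable_tm)
open Pool.Agent.H341R2 (E lam summable_E E_le E_nonneg E_add E_const_mul E_sum w_nonneg
  lam_bounded lam_tendsto primeSum_bounded norm_prime_cpow_I conj_prime_cpow_I summable_prime_rpow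
  norm_prime_cpow path_tendsto' log_norm_meromorphic)

lemma FF_edge {b : PP → ℂ} {M : ℝ} (hb : ∀ x, ‖b x‖ ≤ M / (x.2 + 1 : ℕ)) (τ : ℝ) :
    ∃ C : ℝ, ∀ᶠ ε : ℝ in 𝓝[>] 0,
      |(FF b (1 + τ * I + ε)).re -
        E ε fun p => (b (p, 0) * ((p : ℕ) : ℂ) ^ (-(τ * I))).re| ≤ C := by
  have h1 : Tendsto (fun ε : ℝ => (1 + τ * I + ε : ℂ)) (𝓝[>] 0)
      (𝓝[{s : ℂ | 1 ≤ s.re}] (1 + τ * I)) := by
    rw [tendsto_nhdsWithin_iff]
    refine ⟨path_tendsto' _, ?_⟩
    filter_upwards [self_mem_nhdsWithin] with ε hε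
    have hε' : (0 : ℝ) < ε := hε
    change 1 ≤ (1 + τ * I + ε : ℂ).re
    simp
    exact hε'.le
  have h2 := ((hpart_tendsto hb (1 + τ * I)).comp h1).norm.isBoundedUnder_le
  obtain ⟨C, hC⟩ := h2
  refine ⟨C, ?_⟩
  filter_upwards [Filter.eventually_map.1 hC, self_mem_nhdsWithin] with ε h3 h4
  have hε : (0 : ℝ) < ε := h4
  have hs : 1 < (1 + τ * I + ε : ℂ).re := by
    simp
    exact hε
  have h5 : Summable fun p : Nat.Primes => tm b (1 + τ * I + ε) (p, 0) :=
    (summable_tm hb hs).comp_injective (i := fun p : Nat.Primes => ((p, 0) : PP))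
      fun p q h => congrArg Prod.fst h
  have h6 : (E ε fun p => (b (p, 0) * ((p : ℕ) : ℂ) ^ (-(τ * I))).re) =
      (∑' p : Nat.Primes, tm b (1 + τ * I + ε) (p, 0)).re := by
    rw [Complex.re_tsum h5, E]
    refine tsum_congr fun p => ?_
    have h0 : ((p : ℕ) : ℂ) ≠ 0 := by exact_mod_cast p.2.ne_zero
    have h7 : ((p : ℕ) : ℂ) ^ (-(1 + τ * I + ε) : ℂ) =
        ((p : ℕ) : ℂ) ^ (-(τ * I)) * (((p : ℝ) ^ (-(1 + ε)) : ℝ) : ℂ) := by
      rw [Complex.ofReal_cpow (by positivity)]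
      push_cast
      rw [← Complex.cpow_add _ _ h0]
      congr 1
      ring
    unfold tm
    simp only [zero_add, pow_one]
    rw [h7, ← mul_assoc, Complex.re_mul_ofReal]
  rw [FF_split hb hs, Complex.add_re, h6, add_sub_cancel_left]
  exact (Complex.abs_re_le_norm _).trans h3

section
variable {ι : Type} [Fintype ι] {n : ι → ℕ} (S : ι → Finset ℕ) (A : ∀ i, ℕ → Fin (n i + 1) → ℂ)
  (ρ : ∀ i, Multiset (Fin (n i + 1) → ℤ)) (θ : ι → ℝ) (m : ι → ℤ)

/-- the normalized trace of `ρ(A_p)` -/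
noncomputable def trc (i : ι) (p : ℕ) : ℂ :=
  if p ∈ S i then 0 else ((ρ i).map fun μ => weight (A i p) μ).sum * (((p : ℝ) ^ (-(θ i)) : ℝ) : ℂ)

/-- the combination of the traces -/
noncomputable def TT (p : ℕ) : ℂ := ∑ i, (m i : ℂ) * trc S A ρ θ i p

/-- the coefficients for the twist -/
noncomputable def bt (x : Tw) : PP → ℂ :=
  comb Finset.univ m fun i => bα (rt (A i) (ρ i) x.χ (θ i)) (S i)

variable {S A ρ θ}
variable (h : ∀ i, Bdd (S i) (A i) (ρ i) (θ i))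

include h

omit [Fintype ι] in
lemma norm_trc (i : ι) (p : Nat.Primes) : ‖trc S A ρ θ i p‖ ≤ (ρ i).card := by
  have hp0 : (0 : ℝ) < p := by exact_mod_cast p.2.pos
  unfold trc
  split_ifs with hS
  · rw [norm_zero]
    positivity
  · rw [norm_mul, Complex.norm_real, Real.norm_of_nonneg (by positivity)]
    have h1 : ‖((ρ i).map fun μ => weight (A i p) μ).sum‖ ≤ (ρ i).card * (p : ℝ) ^ (θ i) := by
      rw [← sum_toList]
      refine (norm_sum_le_of_le (n := fun _ => (p : ℝ) ^ (θ i)) _ fun j _ => ?_).trans ?_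
      · exact h i p p.2 hS _ (Multiset.mem_toList.1 (List.getElem_mem _))
      · simp
    calc ‖((ρ i).map fun μ => weight (A i p) μ).sum‖ * (p : ℝ) ^ (-(θ i))
        ≤ (ρ i).card * (p : ℝ) ^ (θ i) * (p : ℝ) ^ (-(θ i)) := by gcongr
      _ = (ρ i).card := by
        rw [mul_assoc, ← Real.rpow_add hp0, add_neg_cancel, Real.rpow_zero, mul_one]

lemma norm_TT (p : Nat.Primes) : ‖TT S A ρ θ m p‖ ≤ ∑ i, |(m i : ℝ)| * (ρ i).card := by
  unfold TT
  refine norm_sum_le_of_le _ fun i _ => ?_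
  rw [norm_mul, Complex.norm_intCast]
  exact mul_le_mul_of_nonneg_left (norm_trc h i p) (abs_nonneg _)

lemma norm_bt (x : Tw) (y : PP) :
    ‖bt S A ρ θ m x y‖ ≤ (∑ i, |(m i : ℝ)| * ((ρ i).toList.length : ℝ)) / (y.2 + 1 : ℕ) :=
  norm_comb Finset.univ m _ (fun i => ((ρ i).toList.length : ℝ))
    (fun i _ z => norm_bα (fun p hp hS j => norm_rt (h i) p hp hS j) z) y

lemma exp_bt (x : Tw) {s : ℂ} (hs : 1 < s.re) :
    Complex.exp (FF (bt S A ρ θ m x) s) = ∏ i, LS (S i) (A i) (ρ i) x.χ (s + θ i) ^ m i := by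
  unfold bt
  rw [exp_comb Finset.univ m _ (fun i => ((ρ i).toList.length : ℝ))
    (fun i _ z => norm_bα (fun p hp hS j => norm_rt (h i) p hp hS j) z) hs]
  exact Finset.prod_congr rfl fun i _ => by rw [LS_eq (h i) hs]

omit h in
lemma bt_prime (x : Tw) (p : Nat.Primes) :
    bt S A ρ θ m x (p, 0) * ((p : ℕ) : ℂ) ^ (-(x.τ * I)) =
      TT S A ρ θ m p * conj (vt x p) := by
  rw [vt, map_mul, Complex.conj_conj, conj_prime_cpow_I, ← mul_assoc]
  congr 1
  unfold bt comb TT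
  rw [Finset.sum_mul]
  refine Finset.sum_congr rfl fun i _ => ?_
  rw [mul_assoc]
  congr 1
  unfold bα trc rt
  simp only [zero_add, pow_one, Nat.cast_one, div_one]
  split_ifs with hS
  · simp
  · rw [← Finset.sum_mul, ← Finset.mul_sum, sum_toList (ρ i) (fun μ => weight (A i p) μ)]
    ring

/-- the logarithm near the edge -/
lemma log_edge (x : Tw) :
    ∃ C : ℝ, ∀ᶠ ε : ℝ in 𝓝[>] 0,
      |Real.log ‖∏ i, LS (S i) (A i) (ρ i) x.χ (1 + x.τ * I + ε + θ i) ^ m i‖ -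
        E ε fun p => (TT S A ρ θ m p * conj (vt x p)).re| ≤ C := by
  obtain ⟨C, hC⟩ := FF_edge (norm_bt m h x) x.τ
  refine ⟨C, ?_⟩
  filter_upwards [hC, self_mem_nhdsWithin] with ε h1 h2
  have hε : (0 : ℝ) < ε := h2
  have hs : 1 < (1 + x.τ * I + ε : ℂ).re := by
    simp
    exact hε
  rw [← exp_bt m h x hs, Complex.norm_exp, Real.log_exp]
  simp only [bt_prime] at h1
  exact h1

/-- **The inequality.** -/
theorem main_ineq {κ : Type} [Fintype κ] (x : κ → Tw) (hx : ∀ k l, k ≠ l → ¬ (x k).Same (x l)) :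
    ∃ C : ℝ, ∀ᶠ ε : ℝ in 𝓝[>] 0,
      ∑ k, (Real.log ‖∏ i, LS (S i) (A i) (ρ i) (x k).χ (1 + (x k).τ * I + ε + θ i) ^ m i‖) ^ 2 ≤
        Real.log (1 / ε) * (E ε (fun p => ‖TT S A ρ θ m p‖ ^ 2) + C) := by
  classical
  set D : ℝ := ∑ i, |(m i : ℝ)| * (ρ i).card with hD
  have hD0 : 0 ≤ D := by positivity
  obtain ⟨C₁, hC₁⟩ := bessel_ms Finset.univ (fun p => TT S A ρ θ m p) (fun k => vt (x k)) D
    (norm_TT m h) (fun k p => norm_vt_le (x k) p)
    (fun k _ l _ hkl => vt_orth (hx k l hkl))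
  have hlog := fun k => log_edge m h (x k)
  choose Cl hCl using hlog
  obtain ⟨C₃, hC₃⟩ := lam_bounded
  have ev : ∀ᶠ ε : ℝ in 𝓝[>] 0, ∀ k, |Real.log ‖∏ i, LS (S i) (A i) (ρ i) (x k).χ
      (1 + (x k).τ * I + ε + θ i) ^ m i‖ -
        E ε fun p => (TT S A ρ θ m p * conj (vt (x k) p)).re| ≤ Cl k :=
    Filter.eventually_all.2 hCl
  -- the constants
  set c := ∑ k, (2 * |Cl k| * (2 * D) + (Cl k) ^ 2) with hc
  refine ⟨2 * (|C₁| + c) + D ^ 2 * 2 * |C₃|, ?_⟩
  have hlogt : Tendsto (fun ε : ℝ => Real.log (1 / ε)) (𝓝[>] 0) atTop := by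
    have := Real.tendsto_log_nhdsGT_zero
    have h1 := tendsto_neg_atBot_atTop.comp this
    refine h1.congr fun ε => ?_
    simp only [Function.comp_apply]
    rw [one_div, Real.log_inv]
  filter_upwards [hC₁, ev, hC₃, self_mem_nhdsWithin,
    hlogt.eventually_ge_atTop (max 1 |C₃|)] with ε h1 h2 h3 h4 h5
  have hε : (0 : ℝ) < ε := h4
  set Q := E ε (fun p => ‖TT S A ρ θ m p‖ ^ 2) with hQ
  set L := Real.log (1 / ε) with hL
  set Λ := lam ε with hΛ
  have hL1 : 1 ≤ L := (le_max_left _ _).trans h5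
  have hLC : |C₃| ≤ L := (le_max_right _ _).trans h5
  have hΛL : |Λ - L| ≤ |C₃| := by
    have : Λ - L = lam ε + Real.log ε := by
      rw [hL, one_div, Real.log_inv]
      ring
    rw [this]
    exact h3.trans (le_abs_self _)
  have hΛ2 : Λ ≤ 2 * L := by
    have := (abs_le.1 hΛL).2
    linarith
  have hΛ0 : 0 ≤ Λ := tsum_nonneg fun p => w_nonneg ε p
  have hTb : ∀ p : Nat.Primes, |‖TT S A ρ θ m p‖ ^ 2| ≤ D ^ 2 := by
    intro p
    rw [abs_of_nonneg (sq_nonneg _)]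
    exact pow_le_pow_left₀ (norm_nonneg _) (norm_TT m h p) 2
  have hQ1 : Q ≤ D ^ 2 * Λ := E_le hε hTb fun p => (le_abs_self _).trans (hTb p)
  have hQ0 : 0 ≤ Q := E_nonneg fun p => sq_nonneg _
  have hr : ∀ k, |E ε fun p => (TT S A ρ θ m p * conj (vt (x k) p)).re| ≤ D * Λ := by
    intro k
    have hb1 : ∀ p : Nat.Primes, |(TT S A ρ θ m p * conj (vt (x k) p)).re| ≤ D := by
      intro p
      refine (Complex.abs_re_le_norm _).trans ?_
      rw [norm_mul, Complex.norm_conj]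
      calc _ ≤ D * 1 := mul_le_mul (norm_TT m h p) (norm_vt_le (x k) p) (norm_nonneg _) hD0
        _ = D := mul_one D
    rw [abs_le]
    constructor
    · have h6 := E_le hε (φ := fun p : Nat.Primes => -(TT S A ρ θ m p * conj (vt (x k) p)).re)
        (B := D) (b := D) (fun p => by rw [abs_neg]; exact hb1 p) (fun p => by
          have := (abs_le.1 (hb1 p)).1
          linarith)
      have h7 : E ε (fun p : Nat.Primes => -(TT S A ρ θ m p * conj (vt (x k) p)).re) =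
          -(E ε fun p : Nat.Primes => (TT S A ρ θ m p * conj (vt (x k) p)).re) := by
        have := E_const_mul (ε := ε) (-1)
          (fun p : Nat.Primes => (TT S A ρ θ m p * conj (vt (x k) p)).re)
        simp only [neg_mul, one_mul] at this
        exact this
      rw [h7] at h6
      linarith
    · exact E_le hε hb1 fun p => (abs_le.1 (hb1 p)).2
  have hk : ∀ k, (Real.log ‖∏ i, LS (S i) (A i) (ρ i) (x k).χ
      (1 + (x k).τ * I + ε + θ i) ^ m i‖) ^ 2 ≤
      (E ε fun p => (TT S A ρ θ m p * conj (vt (x k) p)).re) ^ 2 +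
        (2 * |Cl k| * (2 * D) + (Cl k) ^ 2) * L := by
    intro k
    set u := Real.log ‖∏ i, LS (S i) (A i) (ρ i) (x k).χ (1 + (x k).τ * I + ε + θ i) ^ m i‖
    set w := E ε fun p : Nat.Primes => (TT S A ρ θ m p * conj (vt (x k) p)).re with hw
    have e1 : |u - w| ≤ |Cl k| := (h2 k).trans (le_abs_self _)
    have e2 : |w| ≤ D * (2 * L) := (hr k).trans (mul_le_mul_of_nonneg_left hΛ2 hD0)
    have e3 : u ^ 2 = w ^ 2 + 2 * (w * (u - w)) + (u - w) ^ 2 := by ring
    have e4 : w * (u - w) ≤ D * (2 * L) * |Cl k| := by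
      refine (le_abs_self _).trans ?_
      rw [abs_mul]
      exact mul_le_mul e2 e1 (abs_nonneg _) (by positivity)
    have e5 : (u - w) ^ 2 ≤ (Cl k) ^ 2 := sq_le_sq.2 e1
    have e6 : (Cl k) ^ 2 ≤ (Cl k) ^ 2 * L := le_mul_of_one_le_right (sq_nonneg _) hL1
    rw [e3]
    nlinarith
  have hsum : ∑ k, (Real.log ‖∏ i, LS (S i) (A i) (ρ i) (x k).χ
      (1 + (x k).τ * I + ε + θ i) ^ m i‖) ^ 2 ≤ Λ * (Q + C₁) + c * L := by
    refine (Finset.sum_le_sum fun k _ => hk k).trans ?_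
    rw [Finset.sum_add_distrib, ← Finset.sum_mul]
    linarith
  refine hsum.trans ?_
  have e7 : Λ * Q ≤ L * Q + D ^ 2 * 2 * |C₃| * L := by
    have e8 : Λ * Q = L * Q + (Λ - L) * Q := by ring
    have e9 : (Λ - L) * Q ≤ |C₃| * (D ^ 2 * (2 * L)) := by
      calc (Λ - L) * Q ≤ |C₃| * Q := mul_le_mul_of_nonneg_right (le_of_abs_le hΛL) hQ0
        _ ≤ |C₃| * (D ^ 2 * (2 * L)) := by
          refine mul_le_mul_of_nonneg_left (hQ1.trans ?_) (abs_nonneg _)
          exact mul_le_mul_of_nonneg_left hΛ2 (sq_nonneg _)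
    linarith
  have e10 : Λ * C₁ ≤ 2 * L * |C₁| :=
    (mul_le_mul_of_nonneg_left (le_abs_self _) hΛ0).trans
      (mul_le_mul_of_nonneg_right hΛ2 (abs_nonneg _))
  have hc0 : 0 ≤ c := Finset.sum_nonneg fun k _ => by positivity
  nlinarith

end

end Pool.Agent.Y719.EL
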